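import Mathlib

set_option autoImplicit false

namespace Pool.Agent.Helper691.RM

open Finset Real Classical

noncomputable section

/-- number of neighbours of `x` in colour `c` inside `Y` -/
def dg {V : Type} (A : Bool → V → V → Prop) (c : Bool) (x : V) (Y : Finset V) : ℝ :=
  ((Y.filter (fun y => A c x y)).card : ℝ)

/-- `S` is bidense in colour `c` -/
def Bid {V : Type} (A : Bool → V → V → Prop) (c : Bool) (ρ δ : ℝ) (S : Finset V) : Prop :=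
  ∀ X ⊆ S, ∀ Y ⊆ S, ρ * (S.card : ℝ) ≤ (X.card : ℝ) → ρ * (S.card : ℝ) ≤ (Y.card : ℝ) →
    δ * (X.card : ℝ) * (Y.card : ℝ) ≤ ∑ x ∈ X, dg A c x Y

/-- a probability distribution on maps, supported on colour `c` homomorphisms into `U`, with
all cylinder probabilities at most `kap ^ (number of fixed coordinates)` -/
structure HomDist {V ι : Type} [Fintype V] [Fintype ι] (A : Bool → V → V → Prop)
    (H : SimpleGraph ι) (c : Bool) (U : Finset V) (kap : ℝ) (g : (ι → V) → ℝ) : Prop where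
  nonneg : ∀ ψ, 0 ≤ g ψ
  sum_one : ∑ ψ, g ψ = 1
  mem : ∀ ψ, g ψ ≠ 0 → ∀ v, ψ v ∈ U
  hom : ∀ ψ, g ψ ≠ 0 → ∀ u v, H.Adj u v → A c (ψ u) (ψ v)
  cyl : ∀ (T : Finset ι) (τ : ι → V),
    ∑ ψ ∈ Finset.univ.filter (fun ψ : ι → V => ∀ v ∈ T, ψ v = τ v), g ψ ≤ kap ^ T.card

/-- the output of the induction: a random homomorphism `φ` in colour `c` together with a random
element `e` of the environment adjacent to the whole image -/
structure Good {V ι E Ω : Type} [Fintype V] [Fintype ι] [Fintype E] [Fintype Ω]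
    (A : Bool → V → V → Prop) (H : SimpleGraph ι) (W : Finset V) (ν : E → ℝ)
    (rel : E → V → Prop) (i K : ℕ) (B : ℕ → ℝ) (D : ℕ → ℕ) (p : ℕ → ι → ℝ) (κ : ℝ)
    (c : Bool) (P : Ω → ℝ) (φ : Ω → ι → V) (e : Ω → E) (ℓ : Ω → ι → ℕ) : Prop where
  nonneg : ∀ ω, 0 ≤ P ω
  sum_one : ∑ ω, P ω = 1
  mem : ∀ ω, P ω ≠ 0 → ∀ v, φ ω v ∈ W
  hom : ∀ ω, P ω ≠ 0 → ∀ u v, H.Adj u v → A c (φ ω u) (φ ω v)
  adj : ∀ ω, P ω ≠ 0 → ∀ v, rel (e ω) (φ ω v)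
  lev : ∀ ω v, i ≤ ℓ ω v ∧ ℓ ω v ≤ K
  dens : ∀ (T : Finset ι) (τ : ι → V) (lam : ι → ℕ),
    ∑ ω ∈ Finset.univ.filter (fun ω : Ω => ∀ v ∈ T, φ ω v = τ v ∧ ℓ ω v = lam v), P ω ≤
      ∏ v ∈ T, (Real.exp (B (lam v)) / (W.card : ℝ))
  level : ∀ v l, i ≤ l → H.degree v < D (l + 1) →
    ∑ ω ∈ Finset.univ.filter (fun ω : Ω => l < ℓ ω v), P ω ≤ p l v
  ent : ∀ (T : Finset ι) (f : (ι → V) → E → ℝ), (∀ x e, 0 < f x e) →
    (∀ x y e, (∀ v ∈ T, x v = y v) → f x e = f y e) →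
    ∑ ω, P ω * Real.log (f (φ ω) (e ω)) ≤
      κ * (1 + (T.card : ℝ)) + ∑ ω, P ω * Real.log (∑ e', ν e' * f (φ ω) e')

/-- the inductive statement -/
def Q {V ι : Type} [Fintype V] [Fintype ι] (A : Bool → V → V → Prop) (H : SimpleGraph ι)
    (i K : ℕ) (β : ℝ) (B : ℕ → ℝ) (D : ℕ → ℕ) (p : ℕ → ι → ℝ) (κ : ℝ) : Prop :=
  ∀ (W : Finset V), W.Nonempty → ∀ (E : Type) [Fintype E] (ν : E → ℝ) (rel : E → V → Prop),
    (∀ e, 0 ≤ ν e) → ∑ e, ν e = 1 →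
    (∀ x ∈ W, Real.exp (-β) ≤ ∑ e ∈ Finset.univ.filter (fun e : E => rel e x), ν e) →
    ∃ (c : Bool) (Ω : Type) (_ : Fintype Ω) (P : Ω → ℝ) (φ : Ω → ι → V) (e : Ω → E)
      (ℓ : Ω → ι → ℕ), Good A H W ν rel i K B D p κ c P φ e ℓ

end

end Pool.Agent.Helper691.RM
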