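import Mathlib
import Pool.Agent.Helper691.RM.Defs

set_option autoImplicit false

namespace Pool.Agent.Helper691.RM

open Finset Real Classical

noncomputable section

/-- a distribution with small cylinder probabilities, tested against a function of the
coordinates in `S` -/
theorem marg {V ι : Type} [Fintype V] [Fintype ι] (g : (ι → V) → ℝ) (hg0 : ∀ ψ, 0 ≤ g ψ)
    (W : Finset V) (hW : W.Nonempty) (S : Finset ι) (kap : ℝ)
    (hmem : ∀ ψ, g ψ ≠ 0 → ∀ v ∈ S, ψ v ∈ W)
    (hcyl : ∀ τ : ι → V,
      ∑ ψ ∈ Finset.univ.filter (fun ψ : ι → V => ∀ v ∈ S, ψ v = τ v), g ψ ≤ kap ^ S.card)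
    (h : (ι → V) → ℝ) (hh0 : ∀ ψ, 0 ≤ h ψ)
    (hdep : ∀ x y, (∀ v ∈ S, x v = y v) → h x = h y) :
    ∑ ψ, g ψ * h ψ ≤ (kap * (W.card : ℝ)) ^ S.card *
      ((∑ y ∈ Fintype.piFinset (fun _ : ι => W), h y) / (W.card : ℝ) ^ Fintype.card ι) := by
  have hWpos : (0 : ℝ) < (W.card : ℝ) := by exact_mod_cast hW.card_pos
  have hSle : S.card ≤ Fintype.card ι := by
    simpa using Finset.card_le_univ S
  -- number of `y` agreeing with `ψ` on `S`
  have hcount : ∀ ψ, g ψ ≠ 0 →
      ((Fintype.piFinset (fun _ : ι => W)).filter (fun y => ∀ v ∈ S, ψ v = y v)).card =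
        W.card ^ (Fintype.card ι - S.card) := by
    intro ψ hψ
    have h1 : (Fintype.piFinset (fun _ : ι => W)).filter (fun y => ∀ v ∈ S, ψ v = y v) =
        Fintype.piFinset (fun v : ι => if v ∈ S then {ψ v} else W) := by
      ext y
      simp only [Finset.mem_filter, Fintype.mem_piFinset]
      constructor
      · rintro ⟨h1, h2⟩ v
        by_cases hv : v ∈ S
        · simp [hv, (h2 v hv).symm]
        · simp [hv, h1 v]
      · intro h1
        refine ⟨fun v => ?_, fun v hv => ?_⟩
        · have := h1 v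
          by_cases hv : v ∈ S
          · simp [hv] at this
            rw [this]
            exact hmem ψ hψ v hv
          · simpa [hv] using this
        · have := h1 v
          simp [hv] at this
          exact this.symm
    rw [h1, Fintype.card_piFinset]
    have h2 : ∀ v : ι, (if v ∈ S then ({ψ v} : Finset V) else W).card =
        if v ∈ S then 1 else W.card := by
      intro v
      split_ifs <;> simp
    simp only [h2]
    rw [Finset.prod_ite]
    simp only [Finset.prod_const_one, Finset.prod_const, one_mul]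
    congr 1
    have : Finset.univ.filter (fun v : ι => v ∉ S) = Sᶜ := by
      ext v; simp
    rw [this, Finset.card_compl]
  have key : (∑ ψ, g ψ * h ψ) * (W.card : ℝ) ^ (Fintype.card ι - S.card) ≤
      kap ^ S.card * ∑ y ∈ Fintype.piFinset (fun _ : ι => W), h y := by
    have e1 : (∑ ψ, g ψ * h ψ) * (W.card : ℝ) ^ (Fintype.card ι - S.card) =
        ∑ ψ, ∑ y ∈ Fintype.piFinset (fun _ : ι => W),
          (if ∀ v ∈ S, ψ v = y v then g ψ * h y else 0) := by
      rw [Finset.sum_mul]
      refine Finset.sum_congr rfl fun ψ _ => ?_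
      by_cases hψ : g ψ = 0
      · simp [hψ]
      · rw [← Finset.sum_filter]
        have : ∀ y ∈ (Fintype.piFinset (fun _ : ι => W)).filter (fun y => ∀ v ∈ S, ψ v = y v),
            g ψ * h y = g ψ * h ψ := by
          intro y hy
          rw [Finset.mem_filter] at hy
          rw [hdep ψ y hy.2]
        rw [Finset.sum_congr rfl this, Finset.sum_const, hcount ψ hψ, nsmul_eq_mul]
        push_cast
        ring
    rw [e1, Finset.sum_comm, Finset.mul_sum]
    refine Finset.sum_le_sum fun y _ => ?_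
    have e2 : ∑ ψ, (if ∀ v ∈ S, ψ v = y v then g ψ * h y else 0) =
        (∑ ψ ∈ Finset.univ.filter (fun ψ : ι → V => ∀ v ∈ S, ψ v = y v), g ψ) * h y := by
      rw [← Finset.sum_filter, Finset.sum_mul]
    rw [e2]
    exact mul_le_mul_of_nonneg_right (hcyl y) (hh0 y)
  have hpow : (W.card : ℝ) ^ Fintype.card ι =
      (W.card : ℝ) ^ (Fintype.card ι - S.card) * (W.card : ℝ) ^ S.card := by
    rw [← pow_add]; congr 1; omega
  rw [hpow, mul_pow]
  have hp1 : (0 : ℝ) < (W.card : ℝ) ^ (Fintype.card ι - S.card) := pow_pos hWpos _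
  have hp2 : (0 : ℝ) < (W.card : ℝ) ^ S.card := pow_pos hWpos _
  have : kap ^ S.card * (W.card : ℝ) ^ S.card *
      ((∑ y ∈ Fintype.piFinset (fun _ : ι => W), h y) /
        ((W.card : ℝ) ^ (Fintype.card ι - S.card) * (W.card : ℝ) ^ S.card)) =
      (kap ^ S.card * ∑ y ∈ Fintype.piFinset (fun _ : ι => W), h y) /
        (W.card : ℝ) ^ (Fintype.card ι - S.card) := by
    field_simp
  rw [this, le_div_iff₀ hp1]
  exact key

end

end Pool.Agent.Helper691.RM
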