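import Mathlib
import Pool.Agent.Helper691.RM.Marg

set_option autoImplicit false

namespace Pool.Agent.Helper691.RM

open Finset Real Classical

noncomputable section

/-- product weight of a tuple -/
def wt {E : Type} (ν : E → ℝ) {s : ℕ} (w : Fin s → E) : ℝ := ∏ i, ν (w i)

theorem wt_nonneg {E : Type} {ν : E → ℝ} (hν : ∀ e, 0 ≤ ν e) {s : ℕ} (w : Fin s → E) :
    0 ≤ wt ν w := Finset.prod_nonneg fun _ _ => hν _

theorem wt_sum {E : Type} [Fintype E] (ν : E → ℝ) (s : ℕ) (h : E → ℝ) :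
    ∑ w : Fin s → E, wt ν w * ∏ i, h (w i) = (∑ e, ν e * h e) ^ s := by
  have : ∀ w : Fin s → E, wt ν w * ∏ i, h (w i) = ∏ i, (ν (w i) * h (w i)) := by
    intro w
    rw [wt, Finset.prod_mul_distrib]
  simp only [this]
  have h2 := Finset.prod_univ_sum (fun _ : Fin s => (Finset.univ : Finset E))
    (fun _ e => ν e * h e)
  simp only [Finset.prod_const, Finset.card_univ, Fintype.card_fin, Fintype.piFinset_univ] at h2
  exact h2.symm

theorem entstep {V ι E Ω : Type} [Fintype V] [Fintype ι] [Fintype E] [Fintype Ω]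
    (ν : E → ℝ) (hν0 : ∀ e, 0 ≤ ν e) (hν1 : ∑ e, ν e = 1) (s : ℕ) (hs : 0 < s)
    (S : Finset V) (hS : S.Nonempty) (kap : ℝ) (hk : 1 ≤ kap * (S.card : ℝ))
    (P : Ω → ℝ) (hP0 : ∀ ω, 0 ≤ P ω) (hP1 : ∑ ω, P ω = 1)
    (w : Ω → Fin s → E) (x : Ω → ι → V) (R : Ω → Finset ι) (G : Ω → (ι → V) → ℝ)
    (hG0 : ∀ ω, P ω ≠ 0 → ∀ ψ, 0 ≤ G ω ψ) (hG1 : ∀ ω, P ω ≠ 0 → ∑ ψ, G ω ψ = 1)
    (hGS : ∀ ω, P ω ≠ 0 → ∀ ψ, G ω ψ ≠ 0 →
      (∀ v ∈ R ω, ψ v ∈ S) ∧ (∀ v, v ∉ R ω → ψ v = x ω v))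
    (hGc : ∀ ω, P ω ≠ 0 → ∀ T ⊆ R ω, ∀ τ : ι → V,
      ∑ ψ ∈ Finset.univ.filter (fun ψ : ι → V => ∀ v ∈ T, ψ v = τ v), G ω ψ ≤ kap ^ T.card)
    (T : Finset ι) (k0 : ℝ)
    (hent : ∀ (g : (ι → V) → (Fin s → E) → ℝ) (C : ℝ), (∀ y w', 0 < g y w') →
      (∀ y z w', (∀ v ∈ T, y v = z v) → g y w' = g z w') → 0 < C →
      (∀ y, ∑ w', wt ν w' * g y w' ≤ C) →
      ∑ ω, P ω * Real.log (g (x ω) (w ω)) ≤ k0 + Real.log C)
    (f : (ι → V) → E → ℝ) (hf : ∀ y e, 0 < f y e)
    (hfd : ∀ y z e, (∀ v ∈ T, y v = z v) → f y e = f z e) :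
    ∑ ω, P ω * ∑ ψ, G ω ψ * ∑ I : Fin s, (1 / (s : ℝ)) * Real.log (f ψ (w ω I)) ≤
      (1 / (s : ℝ)) * (k0 + (T.card : ℝ) * (Real.log 2 + Real.log (kap * (S.card : ℝ)))) +
        ∑ ω, P ω * ∑ ψ, G ω ψ * Real.log (∑ e, ν e * f ψ e) := by
  have hspos : (0 : ℝ) < (s : ℝ) := by exact_mod_cast hs
  have hSpos : (0 : ℝ) < (S.card : ℝ) := by exact_mod_cast hS.card_pos
  set nf : (ι → V) → ℝ := fun ψ => ∑ e, ν e * f ψ e with hnf_def
  have hnf : ∀ ψ, 0 < nf ψ := by
    intro ψ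
    obtain ⟨e, he⟩ : ∃ e, ν e ≠ 0 := by
      by_contra hcon
      push Not at hcon
      simp [hcon] at hν1
    refine Finset.sum_pos' (fun e _ => mul_nonneg (hν0 e) (hf ψ e).le) ⟨e, Finset.mem_univ _, ?_⟩
    exact mul_pos (lt_of_le_of_ne (hν0 e) (Ne.symm he)) (hf ψ e)
  set q : (ι → V) → (Fin s → E) → ℝ := fun ψ w' => ∏ i, (f ψ (w' i) / nf ψ) with hq_def
  have hqpos : ∀ ψ w', 0 < q ψ w' := fun ψ w' =>
    Finset.prod_pos fun i _ => div_pos (hf _ _) (hnf _)
  have hnfd : ∀ y z, (∀ v ∈ T, y v = z v) → nf y = nf z := by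
    intro y z hyz
    simp only [hnf_def]
    exact Finset.sum_congr rfl fun e _ => by rw [hfd y z e hyz]
  have hqd : ∀ y z w', (∀ v ∈ T, y v = z v) → q y w' = q z w' := by
    intro y z w' hyz
    simp only [hq_def]
    refine Finset.prod_congr rfl fun i _ => ?_
    rw [hfd y z _ hyz, hnfd y z hyz]
  have hqsum : ∀ ψ, ∑ w', wt ν w' * q ψ w' = 1 := by
    intro ψ
    have h1 := wt_sum ν s (fun e => f ψ e / nf ψ)
    have h2 : ∑ e, ν e * (f ψ e / nf ψ) = 1 := by
      have : ∀ e, ν e * (f ψ e / nf ψ) = (ν e * f ψ e) / nf ψ := fun e => by ring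
      simp only [this]
      rw [← Finset.sum_div]
      exact div_self (hnf ψ).ne'
    rw [h2, one_pow] at h1
    exact h1
  -- merged maps
  set mg : Finset ι → (ι → V) → (ι → V) → (ι → V) :=
    fun S' y z v => if v ∈ S' then y v else z v with hmg
  set gt : (ι → V) → (Fin s → E) → ℝ := fun z w' =>
    ∑ S' ∈ T.powerset,
      (∑ y ∈ Fintype.piFinset (fun _ : ι => S), q (mg S' y z) w') /
        (S.card : ℝ) ^ Fintype.card ι with hgt
  have hpow : (0 : ℝ) < (S.card : ℝ) ^ Fintype.card ι := pow_pos hSpos _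
  have hpine : (Fintype.piFinset (fun _ : ι => S)).Nonempty := by
    rw [Fintype.piFinset_nonempty]; exact fun _ => hS
  have hterm : ∀ S' z w', 0 < (∑ y ∈ Fintype.piFinset (fun _ : ι => S), q (mg S' y z) w') /
        (S.card : ℝ) ^ Fintype.card ι := by
    intro S' z w'
    exact div_pos (Finset.sum_pos (fun y _ => hqpos _ _) hpine) hpow
  have hgtpos : ∀ z w', 0 < gt z w' := by
    intro z w'
    exact Finset.sum_pos (fun S' _ => hterm S' z w') ⟨∅, by simp⟩
  have hgtd : ∀ y z w', (∀ v ∈ T, y v = z v) → gt y w' = gt z w' := by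
    intro y z w' hyz
    simp only [hgt]
    refine Finset.sum_congr rfl fun S' _ => ?_
    congr 1
    refine Finset.sum_congr rfl fun y' _ => ?_
    apply hqd
    intro v hv
    simp only [hmg]
    split_ifs
    · rfl
    · exact hyz v hv
  have hcardpi : ((Fintype.piFinset (fun _ : ι => S)).card : ℝ) =
      (S.card : ℝ) ^ Fintype.card ι := by
    rw [Fintype.card_piFinset]; simp
  have hgtsum : ∀ z, ∑ w', wt ν w' * gt z w' ≤ 2 ^ T.card := by
    intro z
    have e1 : ∑ w', wt ν w' * gt z w' = ∑ S' ∈ T.powerset,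
        (∑ y ∈ Fintype.piFinset (fun _ : ι => S), ∑ w', wt ν w' * q (mg S' y z) w') /
          (S.card : ℝ) ^ Fintype.card ι := by
      simp only [hgt, Finset.mul_sum]
      rw [Finset.sum_comm]
      refine Finset.sum_congr rfl fun S' _ => ?_
      rw [Finset.sum_comm' (s := Fintype.piFinset (fun _ : ι => S)) (t := fun _ => Finset.univ)
        (t' := Finset.univ) (s' := fun _ => Fintype.piFinset (fun _ : ι => S)) (by simp),
        Finset.sum_div]
      refine Finset.sum_congr rfl fun w' _ => ?_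
      rw [← Finset.mul_sum]
      ring
    rw [e1]
    simp only [hqsum, Finset.sum_const, nsmul_eq_mul, mul_one, hcardpi]
    rw [div_self hpow.ne', mul_one, Finset.card_powerset]
    push_cast
    exact le_refl _
  have hE := hent gt (2 ^ T.card) hgtpos hgtd (by positivity) hgtsum
  -- per `ω` bound
  have hC1 : 1 ≤ (kap * (S.card : ℝ)) ^ T.card := one_le_pow₀ hk
  have hC1pos : 0 < (kap * (S.card : ℝ)) ^ T.card := lt_of_lt_of_le one_pos hC1
  have hmain : ∀ ω, P ω ≠ 0 → ∑ ψ, G ω ψ * q ψ (w ω) ≤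
      (kap * (S.card : ℝ)) ^ T.card * gt (x ω) (w ω) := by
    intro ω hω
    set S' : Finset ι := T ∩ R ω with hS'
    have h1 : ∑ ψ, G ω ψ * q ψ (w ω) = ∑ ψ, G ω ψ * q (mg S' ψ (x ω)) (w ω) := by
      refine Finset.sum_congr rfl fun ψ _ => ?_
      by_cases hψ : G ω ψ = 0
      · simp [hψ]
      · congr 1
        apply hqd
        intro v hv
        simp only [hmg]
        split_ifs with hv'
        · rfl
        · apply (hGS ω hω ψ hψ).2 v
          intro hvR
          exact hv' (by rw [hS']; exact Finset.mem_inter.mpr ⟨hv, hvR⟩)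
    rw [h1]
    have h2 := marg (G ω) (hG0 ω hω) S hS S' kap
      (fun ψ hψ v hv => (hGS ω hω ψ hψ).1 v (Finset.mem_inter.mp hv).2)
      (fun τ => hGc ω hω S' Finset.inter_subset_right τ)
      (fun ψ => q (mg S' ψ (x ω)) (w ω)) (fun ψ => (hqpos _ _).le)
      (by
        intro y z hyz
        apply hqd
        intro v _
        simp only [hmg]
        split_ifs with hv'
        · exact hyz v hv'
        · rfl)
    refine h2.trans ?_
    have h3 : (kap * (S.card : ℝ)) ^ S'.card ≤ (kap * (S.card : ℝ)) ^ T.card :=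
      pow_le_pow_right₀ hk (Finset.card_le_card Finset.inter_subset_left)
    have h4 : (∑ y ∈ Fintype.piFinset (fun _ : ι => S), q (mg S' y (x ω)) (w ω)) /
        (S.card : ℝ) ^ Fintype.card ι ≤ gt (x ω) (w ω) := by
      simp only [hgt]
      exact Finset.single_le_sum (f := fun S' =>
        (∑ y ∈ Fintype.piFinset (fun _ : ι => S), q (mg S' y (x ω)) (w ω)) /
        (S.card : ℝ) ^ Fintype.card ι) (fun S'' _ => (hterm S'' _ _).le)
        (Finset.mem_powerset.mpr Finset.inter_subset_left)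
    exact mul_le_mul h3 h4 (hterm S' _ _).le hC1pos.le
  have hper : ∀ ω, P ω ≠ 0 → ∑ ψ, G ω ψ * Real.log (q ψ (w ω)) ≤
      Real.log (gt (x ω) (w ω)) + (T.card : ℝ) * Real.log (kap * (S.card : ℝ)) := by
    intro ω hω
    set Y := (kap * (S.card : ℝ)) ^ T.card * gt (x ω) (w ω) with hY
    have hYpos : 0 < Y := mul_pos hC1pos (hgtpos _ _)
    have h1 : ∀ ψ, G ω ψ * Real.log (q ψ (w ω)) ≤
        G ω ψ * q ψ (w ω) / Y + G ω ψ * (Real.log Y - 1) := by
      intro ψ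
      have h2 : Real.log (q ψ (w ω)) ≤ q ψ (w ω) / Y + (Real.log Y - 1) := by
        have h3 := Real.log_le_sub_one_of_pos (div_pos (hqpos ψ (w ω)) hYpos)
        rw [Real.log_div (hqpos _ _).ne' hYpos.ne'] at h3
        linarith
      calc G ω ψ * Real.log (q ψ (w ω)) ≤ G ω ψ * (q ψ (w ω) / Y + (Real.log Y - 1)) :=
            mul_le_mul_of_nonneg_left h2 (hG0 ω hω ψ)
        _ = _ := by ring
    calc ∑ ψ, G ω ψ * Real.log (q ψ (w ω)) ≤
        ∑ ψ, (G ω ψ * q ψ (w ω) / Y + G ω ψ * (Real.log Y - 1)) :=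
          Finset.sum_le_sum fun ψ _ => h1 ψ
      _ = (∑ ψ, G ω ψ * q ψ (w ω)) / Y + (Real.log Y - 1) := by
          rw [Finset.sum_add_distrib, ← Finset.sum_div, ← Finset.sum_mul, hG1 ω hω, one_mul]
      _ ≤ 1 + (Real.log Y - 1) := by
          have := (div_le_one hYpos).mpr (hmain ω hω)
          linarith
      _ = Real.log (gt (x ω) (w ω)) + (T.card : ℝ) * Real.log (kap * (S.card : ℝ)) := by
          rw [hY, Real.log_mul hC1pos.ne' (hgtpos _ _).ne', Real.log_pow]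
          ring
  -- relation between `f` and `q`
  have hlog : ∀ ψ w', ∑ I : Fin s, (1 / (s : ℝ)) * Real.log (f ψ (w' I)) =
      (1 / (s : ℝ)) * Real.log (q ψ w') + Real.log (nf ψ) := by
    intro ψ w'
    have h1 : Real.log (q ψ w') = ∑ I : Fin s, (Real.log (f ψ (w' I)) - Real.log (nf ψ)) := by
      simp only [hq_def]
      rw [Real.log_prod (fun i _ => (div_pos (hf _ _) (hnf _)).ne')]
      refine Finset.sum_congr rfl fun I _ => ?_
      rw [Real.log_div (hf _ _).ne' (hnf _).ne']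
    rw [h1, Finset.sum_sub_distrib, Finset.sum_const, Finset.card_univ, Fintype.card_fin,
      nsmul_eq_mul, ← Finset.mul_sum]
    field_simp
    ring
  have hω : ∀ ω, P ω * ∑ ψ, G ω ψ * ∑ I : Fin s, (1 / (s : ℝ)) * Real.log (f ψ (w ω I)) ≤
      (1 / (s : ℝ)) * (P ω * Real.log (gt (x ω) (w ω)) +
        P ω * ((T.card : ℝ) * Real.log (kap * (S.card : ℝ)))) +
        P ω * ∑ ψ, G ω ψ * Real.log (nf ψ) := by
    intro ω
    by_cases hPω : P ω = 0
    · simp [hPω]
    · have h1 : ∑ ψ, G ω ψ * ∑ I : Fin s, (1 / (s : ℝ)) * Real.log (f ψ (w ω I)) =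
          (1 / (s : ℝ)) * ∑ ψ, G ω ψ * Real.log (q ψ (w ω)) +
            ∑ ψ, G ω ψ * Real.log (nf ψ) := by
        rw [Finset.mul_sum, ← Finset.sum_add_distrib]
        refine Finset.sum_congr rfl fun ψ _ => ?_
        rw [hlog]
        ring
      rw [h1, mul_add]
      have h2 := mul_le_mul_of_nonneg_left (hper ω hPω) (hP0 ω)
      have h3 : (0 : ℝ) < 1 / (s : ℝ) := by positivity
      have h4 := mul_le_mul_of_nonneg_left h2 h3.le
      nlinarith [h4]
  calc ∑ ω, P ω * ∑ ψ, G ω ψ * ∑ I : Fin s, (1 / (s : ℝ)) * Real.log (f ψ (w ω I))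
      ≤ ∑ ω, ((1 / (s : ℝ)) * (P ω * Real.log (gt (x ω) (w ω)) +
        P ω * ((T.card : ℝ) * Real.log (kap * (S.card : ℝ)))) +
        P ω * ∑ ψ, G ω ψ * Real.log (nf ψ)) := Finset.sum_le_sum fun ω _ => hω ω
    _ = (1 / (s : ℝ)) * (∑ ω, P ω * Real.log (gt (x ω) (w ω)) +
          (∑ ω, P ω) * ((T.card : ℝ) * Real.log (kap * (S.card : ℝ)))) +
        ∑ ω, P ω * ∑ ψ, G ω ψ * Real.log (nf ψ) := by
        rw [Finset.sum_add_distrib, ← Finset.mul_sum, Finset.sum_add_distrib, Finset.sum_mul]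
    _ ≤ _ := by
        have hlog2 : Real.log ((2 : ℝ) ^ T.card) = (T.card : ℝ) * Real.log 2 := Real.log_pow _ _
        have hsumP : (∑ ω, P ω) * ((T.card : ℝ) * Real.log (kap * (S.card : ℝ))) ≤
            (T.card : ℝ) * Real.log (kap * (S.card : ℝ)) := by
          rw [hP1, one_mul]
        have h3 : (0 : ℝ) < 1 / (s : ℝ) := by positivity
        have h5 : ∑ ω, P ω * Real.log (gt (x ω) (w ω)) +
          (∑ ω, P ω) * ((T.card : ℝ) * Real.log (kap * (S.card : ℝ))) ≤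
          k0 + (T.card : ℝ) * (Real.log 2 + Real.log (kap * (S.card : ℝ))) := by
          rw [hlog2] at hE
          linarith
        have h6 := mul_le_mul_of_nonneg_left h5 h3.le
        linarith

end

end Pool.Agent.Helper691.RM
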