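import Mathlib
import Pool.Agent.Helper691.RM.Ent

set_option autoImplicit false

namespace Pool.Agent.Helper691.RM

open Finset Real Classical

noncomputable section

/-- indicator of a proposition -/
def ind (q : Prop) : ℝ := if q then 1 else 0

theorem ind_pos {q : Prop} (h : q) : ind q = 1 := by simp [ind, h]

theorem ind_neg {q : Prop} (h : ¬ q) : ind q = 0 := by simp [ind, h]

theorem sum_triple {Ω X : Type} [Fintype Ω] [Fintype X] (s : ℕ)
    (F : Ω → X → Fin s → ℝ) :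
    ∑ z : Ω × X × Fin s, F z.1 z.2.1 z.2.2 = ∑ ω, ∑ ψ, ∑ I, F ω ψ I := by
  rw [Fintype.sum_prod_type]
  refine Finset.sum_congr rfl fun ω _ => ?_
  rw [Fintype.sum_prod_type]

theorem assembly {V ι E Ω : Type} [Fintype V] [Fintype ι] [Fintype E] [Fintype Ω]
    (A : Bool → V → V → Prop) (H : SimpleGraph ι) (W : Finset V) (ν : E → ℝ)
    (rel : E → V → Prop) (hν0 : ∀ e, 0 ≤ ν e) (hν1 : ∑ e, ν e = 1)
    (i K : ℕ) (hiK : i ≤ K) (B : ℕ → ℝ) (D : ℕ → ℕ) (p : ℕ → ι → ℝ) (κ : ℝ) (c : Bool)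
    (s : ℕ) (hs : 0 < s)
    (S : Finset V) (hS : S.Nonempty) (hSW : S ⊆ W) (kap : ℝ)
    (hk : 1 ≤ kap * (S.card : ℝ)) (hkB : kap ≤ Real.exp (B i) / (W.card : ℝ))
    (P : Ω → ℝ) (hP0 : ∀ ω, 0 ≤ P ω) (hP1 : ∑ ω, P ω = 1)
    (w : Ω → Fin s → E) (x : Ω → ι → V) (ℓ0 : Ω → ι → ℕ) (R : Ω → Finset ι)
    (G : Ω → (ι → V) → ℝ)
    (hG0 : ∀ ω, P ω ≠ 0 → ∀ ψ, 0 ≤ G ω ψ) (hG1 : ∀ ω, P ω ≠ 0 → ∑ ψ, G ω ψ = 1)
    (hGS : ∀ ω, P ω ≠ 0 → ∀ ψ, G ω ψ ≠ 0 →
      (∀ v ∈ R ω, ψ v ∈ S) ∧ (∀ v, v ∉ R ω → ψ v = x ω v))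
    (hxW : ∀ ω, P ω ≠ 0 → ∀ v, v ∉ R ω → x ω v ∈ W)
    (hGadj : ∀ ω, P ω ≠ 0 → ∀ ψ, G ω ψ ≠ 0 → ∀ v I, rel (w ω I) (ψ v))
    (hGhom : ∀ ω, P ω ≠ 0 → ∀ ψ, G ω ψ ≠ 0 → ∀ u v, H.Adj u v → A c (ψ u) (ψ v))
    (hGc : ∀ ω, P ω ≠ 0 → ∀ T ⊆ R ω, ∀ τ : ι → V,
      ∑ ψ ∈ Finset.univ.filter (fun ψ : ι → V => ∀ v ∈ T, ψ v = τ v), G ω ψ ≤ kap ^ T.card)
    (hlev : ∀ ω v, v ∉ R ω → i < ℓ0 ω v ∧ ℓ0 ω v ≤ K)
    (hdens : ∀ (T : Finset ι) (τ : ι → V) (lam : ι → ℕ),
      ∑ ω ∈ Finset.univ.filter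
          (fun ω : Ω => ∀ v ∈ T, v ∉ R ω ∧ x ω v = τ v ∧ ℓ0 ω v = lam v), P ω ≤
        ∏ v ∈ T, (Real.exp (B (lam v)) / (W.card : ℝ)))
    (hlevel : ∀ v l, i ≤ l → H.degree v < D (l + 1) →
      ∑ ω ∈ Finset.univ.filter (fun ω : Ω => v ∉ R ω ∧ l < ℓ0 ω v), P ω ≤ p l v)
    (k0 : Finset ι → ℝ)
    (hκ : ∀ T : Finset ι, (1 / (s : ℝ)) *
      (k0 T + (T.card : ℝ) * (Real.log 2 + Real.log (kap * (S.card : ℝ)))) ≤
        κ * (1 + (T.card : ℝ)))
    (hent : ∀ (T : Finset ι) (g : (ι → V) → (Fin s → E) → ℝ) (C : ℝ), (∀ y w', 0 < g y w') →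
      (∀ y z w', (∀ v ∈ T, y v = z v) → g y w' = g z w') → 0 < C →
      (∀ y, ∑ w', wt ν w' * g y w' ≤ C) →
      ∑ ω, P ω * Real.log (g (x ω) (w ω)) ≤ k0 T + Real.log C) :
    ∃ (Ω' : Type) (_ : Fintype Ω') (P' : Ω' → ℝ) (φ : Ω' → ι → V) (e : Ω' → E)
      (ℓ : Ω' → ι → ℕ), Good A H W ν rel i K B D p κ c P' φ e ℓ := by
  have hspos : (0 : ℝ) < (s : ℝ) := by exact_mod_cast hs
  have hSpos : (0 : ℝ) < (S.card : ℝ) := by exact_mod_cast hS.card_pos
  have hWpos : (0 : ℝ) < (W.card : ℝ) := by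
    exact_mod_cast (hS.mono hSW).card_pos
  have hkap0 : 0 < kap := by
    by_contra hcon
    push Not at hcon
    have := mul_nonpos_of_nonpos_of_nonneg hcon hSpos.le
    linarith
  set P' : Ω × (ι → V) × Fin s → ℝ := fun z => P z.1 * G z.1 z.2.1 * (1 / (s : ℝ)) with hP'
  -- nonzero facts
  have hnz : ∀ z : Ω × (ι → V) × Fin s, P' z ≠ 0 → P z.1 ≠ 0 ∧ G z.1 z.2.1 ≠ 0 := by
    intro z hz
    constructor
    · intro h; apply hz; simp [hP', h]
    · intro h; apply hz; simp [hP', h]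
  have hP'0 : ∀ z, 0 ≤ P' z := by
    intro z
    by_cases h : P z.1 = 0
    · simp [hP', h]
    · exact mul_nonneg (mul_nonneg (hP0 _) (hG0 _ h _)) (by positivity)
  -- summation formula
  have hsum : ∀ F : Ω → (ι → V) → Fin s → ℝ,
      ∑ z : Ω × (ι → V) × Fin s, P' z * F z.1 z.2.1 z.2.2 =
        ∑ ω, P ω * ∑ ψ, G ω ψ * ∑ I, (1 / (s : ℝ)) * F ω ψ I := by
    intro F
    have := sum_triple s (fun (ω : Ω) (ψ : ι → V) (I : Fin s) =>
      P ω * G ω ψ * (1 / (s : ℝ)) * F ω ψ I)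
    simp only [hP']
    rw [this]
    refine Finset.sum_congr rfl fun ω _ => ?_
    rw [Finset.mul_sum]
    refine Finset.sum_congr rfl fun ψ _ => ?_
    rw [Finset.mul_sum, Finset.mul_sum]
    refine Finset.sum_congr rfl fun I _ => ?_
    ring
  have hsum' : ∀ F : Ω → (ι → V) → ℝ,
      ∑ z : Ω × (ι → V) × Fin s, P' z * F z.1 z.2.1 = ∑ ω, P ω * ∑ ψ, G ω ψ * F ω ψ := by
    intro F
    rw [hsum (fun ω ψ _ => F ω ψ)]
    refine Finset.sum_congr rfl fun ω _ => ?_
    congr 1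
    refine Finset.sum_congr rfl fun ψ _ => ?_
    congr 1
    rw [Finset.sum_const, Finset.card_univ, Fintype.card_fin, nsmul_eq_mul]
    field_simp
  -- probability of an event depending on `ω, ψ`
  have hprob : ∀ (Ev : Ω → (ι → V) → Prop)
      [DecidablePred (fun z : Ω × (ι → V) × Fin s => Ev z.1 z.2.1)],
      ∑ z ∈ Finset.univ.filter (fun z : Ω × (ι → V) × Fin s => Ev z.1 z.2.1), P' z =
        ∑ ω, P ω * ∑ ψ, G ω ψ * ind (Ev ω ψ) := by
    intro Ev _
    rw [← hsum' (fun ω ψ => ind (Ev ω ψ)), Finset.sum_filter]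
    refine Finset.sum_congr rfl fun z _ => ?_
    split_ifs with h
    · simp [ind_pos h]
    · simp [ind_neg h]
  refine ⟨Ω × (ι → V) × Fin s, inferInstance, P', fun z => z.2.1, fun z => w z.1 z.2.2,
    fun z v => if v ∈ R z.1 then i else ℓ0 z.1 v, ?_⟩
  constructor
  · exact hP'0
  · have := hsum' (fun _ _ => 1)
    simp only [mul_one] at this
    rw [this]
    calc ∑ ω, P ω * ∑ ψ, G ω ψ = ∑ ω, P ω := by
          refine Finset.sum_congr rfl fun ω _ => ?_
          by_cases h : P ω = 0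
          · simp [h]
          · rw [hG1 ω h, mul_one]
      _ = 1 := hP1
  · intro z hz v
    obtain ⟨h1, h2⟩ := hnz z hz
    by_cases hv : v ∈ R z.1
    · exact hSW ((hGS _ h1 _ h2).1 v hv)
    · rw [(hGS _ h1 _ h2).2 v hv]
      exact hxW _ h1 v hv
  · intro z hz u v huv
    obtain ⟨h1, h2⟩ := hnz z hz
    exact hGhom _ h1 _ h2 u v huv
  · intro z hz v
    obtain ⟨h1, h2⟩ := hnz z hz
    exact hGadj _ h1 _ h2 v _
  · intro z v
    by_cases hv : v ∈ R z.1
    · simp [hv, hiK]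
    · simp only [hv, if_false]
      obtain ⟨h1, h2⟩ := hlev z.1 v hv
      exact ⟨h1.le, h2⟩
  · intro T τ lam
    set T0 := T.filter (fun v => lam v = i) with hT0
    set T1 := T.filter (fun v => ¬ lam v = i) with hT1
    have e1 := hprob (fun ω ψ => ∀ v ∈ T, ψ v = τ v ∧ (if v ∈ R ω then i else ℓ0 ω v) = lam v)
    rw [e1]
    have e2 : ∀ ω, P ω * ∑ ψ, G ω ψ *
        ind (∀ v ∈ T, ψ v = τ v ∧ (if v ∈ R ω then i else ℓ0 ω v) = lam v) ≤
        kap ^ T0.card *
          (if ∀ v ∈ T1, v ∉ R ω ∧ x ω v = τ v ∧ ℓ0 ω v = lam v then P ω else 0) := by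
      intro ω
      by_cases hω : P ω = 0
      · simp [hω]
      · by_cases hev : (∀ v ∈ T1, v ∉ R ω ∧ x ω v = τ v ∧ ℓ0 ω v = lam v) ∧ T0 ⊆ R ω
        · rw [if_pos hev.1]
          have h3 : ∑ ψ, G ω ψ *
              ind (∀ v ∈ T, ψ v = τ v ∧ (if v ∈ R ω then i else ℓ0 ω v) = lam v) ≤
              ∑ ψ ∈ Finset.univ.filter (fun ψ : ι → V => ∀ v ∈ T0, ψ v = τ v), G ω ψ := by
            rw [Finset.sum_filter]
            refine Finset.sum_le_sum fun ψ _ => ?_
            by_cases hc : ∀ v ∈ T, ψ v = τ v ∧ (if v ∈ R ω then i else ℓ0 ω v) = lam v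
            · rw [ind_pos hc, mul_one, if_pos]
              intro v hv
              exact (hc v (Finset.mem_filter.mp hv).1).1
            · rw [ind_neg hc, mul_zero]
              split_ifs
              · exact hG0 ω hω ψ
              · exact le_refl _
          calc P ω * _ ≤ P ω * kap ^ T0.card :=
                mul_le_mul_of_nonneg_left (h3.trans (hGc ω hω T0 hev.2 τ)) (hP0 ω)
            _ = _ := mul_comm _ _
        · have h4 : ∑ ψ, G ω ψ *
              ind (∀ v ∈ T, ψ v = τ v ∧ (if v ∈ R ω then i else ℓ0 ω v) = lam v) = 0 := by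
            refine Finset.sum_eq_zero fun ψ _ => ?_
            by_cases hψ : G ω ψ = 0
            · simp [hψ]
            · rw [ind_neg, mul_zero]
              intro hc
              apply hev
              constructor
              · intro v hv
                obtain ⟨hvT, hvi⟩ := Finset.mem_filter.mp hv
                obtain ⟨h5, h6⟩ := hc v hvT
                have hvR : v ∉ R ω := by
                  intro hvR
                  rw [if_pos hvR] at h6
                  exact hvi h6.symm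
                rw [if_neg hvR] at h6
                refine ⟨hvR, ?_, h6⟩
                rw [← (hGS ω hω ψ hψ).2 v hvR]
                exact h5
              · intro v hv
                obtain ⟨hvT, hvi⟩ := Finset.mem_filter.mp hv
                obtain ⟨h5, h6⟩ := hc v hvT
                by_contra hvR
                rw [if_neg hvR] at h6
                have := (hlev ω v hvR).1
                omega
          rw [h4, mul_zero]
          apply mul_nonneg (pow_nonneg hkap0.le _)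
          split_ifs
          · exact hP0 ω
          · exact le_refl _
    calc ∑ ω, P ω * ∑ ψ, G ω ψ *
        ind (∀ v ∈ T, ψ v = τ v ∧ (if v ∈ R ω then i else ℓ0 ω v) = lam v)
        ≤ ∑ ω, kap ^ T0.card *
          (if ∀ v ∈ T1, v ∉ R ω ∧ x ω v = τ v ∧ ℓ0 ω v = lam v then P ω else 0) :=
          Finset.sum_le_sum fun ω _ => e2 ω
      _ = kap ^ T0.card * ∑ ω ∈ Finset.univ.filter
          (fun ω : Ω => ∀ v ∈ T1, v ∉ R ω ∧ x ω v = τ v ∧ ℓ0 ω v = lam v), P ω := by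
          rw [← Finset.mul_sum, Finset.sum_filter]
      _ ≤ (∏ v ∈ T0, (Real.exp (B (lam v)) / (W.card : ℝ))) *
          ∏ v ∈ T1, (Real.exp (B (lam v)) / (W.card : ℝ)) := by
          have h7 : kap ^ T0.card ≤ ∏ v ∈ T0, (Real.exp (B (lam v)) / (W.card : ℝ)) := by
            rw [← Finset.prod_const]
            refine Finset.prod_le_prod (fun _ _ => hkap0.le) fun v hv => ?_
            rw [(Finset.mem_filter.mp hv).2]
            exact hkB
          refine mul_le_mul h7 (hdens T1 τ lam) (Finset.sum_nonneg fun ω _ => hP0 ω) ?_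
          exact Finset.prod_nonneg fun v _ => by positivity
      _ = ∏ v ∈ T, (Real.exp (B (lam v)) / (W.card : ℝ)) := by
          rw [hT0, hT1]
          exact Finset.prod_filter_mul_prod_filter_not T _ _
  · intro v l hil hdeg
    have e1 := hprob (fun ω _ => l < (if v ∈ R ω then i else ℓ0 ω v))
    rw [e1]
    refine le_trans ?_ (hlevel v l hil hdeg)
    rw [Finset.sum_filter]
    refine Finset.sum_le_sum fun ω _ => ?_
    by_cases hω : P ω = 0
    · simp [hω]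
    · by_cases hv : v ∈ R ω
      · have h1 : ¬ l < i := by omega
        simp [hv, h1, ind]
      · by_cases hl : l < ℓ0 ω v
        · simp [hv, hl, hG1 ω hω, ind]
        · simp [hv, hl, ind]
  · intro T f hf hfd
    have h1 := hsum (fun ω ψ I => Real.log (f ψ (w ω I)))
    have h2 := hsum' (fun _ ψ => Real.log (∑ e', ν e' * f ψ e'))
    rw [h1, h2]
    have h3 := entstep ν hν0 hν1 s hs S hS kap hk P hP0 hP1 w x R G hG0 hG1 hGS hGc T (k0 T)
      (hent T) f hf hfd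
    linarith [hκ T]

end

end Pool.Agent.Helper691.RM
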