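import Mathlib
import Pool.Agent.Helper691.RM.Assembly

set_option autoImplicit false

namespace Pool.Agent.Helper691.RM

open Finset Real Classical

noncomputable section

section defs

variable {V E : Type} [Fintype V] [Fintype E]

/-- common neighbourhood in `S` of a tuple of environment elements -/
def Uw (rel : E → V → Prop) (S : Finset V) {s : ℕ} (w : Fin s → E) : Finset V :=
  S.filter (fun x => ∀ i, rel (w i) x)

/-- the tuple has a large common neighbourhood -/
def goodw (rel : E → V → Prop) (S : Finset V) (β : ℝ) {s : ℕ} (w : Fin s → E) : Prop :=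
  1 / 2 * Real.exp (-((s : ℝ) * β)) * (S.card : ℝ) ≤ ((Uw rel S w).card : ℝ)

/-- total weight of good tuples -/
def Zw (ν : E → ℝ) (rel : E → V → Prop) (S : Finset V) (β : ℝ) (s : ℕ) : ℝ :=
  ∑ w : Fin s → E, wt ν w * ind (goodw rel S β w)

/-- the distribution of a good tuple -/
def nuw (ν : E → ℝ) (rel : E → V → Prop) (S : Finset V) (β : ℝ) {s : ℕ} (w : Fin s → E) : ℝ :=
  wt ν w * ind (goodw rel S β w) / Zw ν rel S β s

/-- uniform distribution on `U ^ J` -/
def unif {J : Type} [Fintype J] (U : Finset V) (z : J → V) : ℝ :=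
  ∏ j, (ind (z j ∈ U) / (U.card : ℝ))

/-- new environment distribution -/
def nuE (ν : E → ℝ) (rel : E → V → Prop) (S : Finset V) (β : ℝ) {s t : ℕ}
    (e : (Fin s → E) × (Bool × Fin t → V)) : ℝ :=
  nuw ν rel S β e.1 * unif (Uw rel S e.1) e.2

/-- new environment relation -/
def relE (A : Bool → V → V → Prop) (rel : E → V → Prop) (S : Finset V) (β : ℝ) {s t : ℕ}
    (e : (Fin s → E) × (Bool × Fin t → V)) (x : V) : Prop :=
  goodw rel S β e.1 ∧ (∀ i, rel (e.1 i) x) ∧
    ∀ j, e.2 j ∈ Uw rel S e.1 ∧ A j.1 (e.2 j) x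

end defs

theorem ind_nonneg (q : Prop) : 0 ≤ ind q := by
  unfold ind; split_ifs <;> norm_num

theorem ind_le_one (q : Prop) : ind q ≤ 1 := by
  unfold ind; split_ifs <;> norm_num

section lemmas

variable {V E : Type} [Fintype V] [Fintype E]

/-- product test functions against the uniform distribution -/
theorem unif_sum {J : Type} [Fintype J] (U : Finset V) (h : J → V → ℝ) :
    ∑ z : J → V, unif U z * ∏ j, h j (z j) = ∏ j, ((∑ y ∈ U, h j y) / (U.card : ℝ)) := by
  have e1 : ∀ z : J → V, unif U z * ∏ j, h j (z j) =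
      ∏ j, (ind (z j ∈ U) / (U.card : ℝ) * h j (z j)) := by
    intro z
    rw [unif, Finset.prod_mul_distrib]
  simp only [e1]
  have h2 := Finset.prod_univ_sum (fun _ : J => (Finset.univ : Finset V))
    (fun j y => ind (y ∈ U) / (U.card : ℝ) * h j y)
  rw [Fintype.piFinset_univ] at h2
  rw [← h2]
  refine Finset.prod_congr rfl fun j _ => ?_
  rw [Finset.sum_div, ← Finset.sum_filter_add_sum_filter_not Finset.univ (fun y => y ∈ U)]
  have h3 : ∑ y ∈ Finset.univ.filter (fun y => y ∉ U),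
      ind (y ∈ U) / (U.card : ℝ) * h j y = 0 := by
    refine Finset.sum_eq_zero fun y hy => ?_
    rw [ind_neg (Finset.mem_filter.mp hy).2]
    simp
  rw [h3, add_zero]
  have h4 : Finset.univ.filter (fun y => y ∈ U) = U := by ext; simp
  rw [h4]
  refine Finset.sum_congr rfl fun y hy => ?_
  rw [ind_pos hy]
  ring

theorem unif_nonneg {J : Type} [Fintype J] (U : Finset V) (z : J → V) : 0 ≤ unif U z :=
  Finset.prod_nonneg fun _ _ => div_nonneg (ind_nonneg _) (Nat.cast_nonneg _)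

theorem unif_sum_one {J : Type} [Fintype J] (U : Finset V) (hU : U.Nonempty) :
    ∑ z : J → V, unif U z = 1 := by
  have h := unif_sum (J := J) U (fun _ _ => 1)
  have hpos : (0 : ℝ) < (U.card : ℝ) := by exact_mod_cast hU.card_pos
  simp only [Finset.prod_const_one, mul_one, Finset.sum_const, nsmul_eq_mul] at h
  rw [h, div_self hpos.ne']
  simp

/-- average size of the common neighbourhood -/
theorem avg_Uw (ν : E → ℝ) (hν0 : ∀ e, 0 ≤ ν e) (rel : E → V → Prop) (S : Finset V) (β : ℝ)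
    (hdeg : ∀ x ∈ S, Real.exp (-β) ≤
      ∑ e ∈ Finset.univ.filter (fun e : E => rel e x), ν e) (s : ℕ) :
    Real.exp (-((s : ℝ) * β)) * (S.card : ℝ) ≤
      ∑ w : Fin s → E, wt ν w * ((Uw rel S w).card : ℝ) := by
  have e1 : ∀ w : Fin s → E, ((Uw rel S w).card : ℝ) = ∑ x ∈ S, ∏ i, ind (rel (w i) x) := by
    intro w
    rw [Uw, Finset.card_filter]
    push_cast
    refine Finset.sum_congr rfl fun x _ => ?_
    by_cases h : ∀ i, rel (w i) x
    · rw [if_pos h]
      rw [Finset.prod_eq_one]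
      intro i _
      exact ind_pos (h i)
    · rw [if_neg h]
      push Not at h
      obtain ⟨i, hi⟩ := h
      rw [Finset.prod_eq_zero (Finset.mem_univ i) (ind_neg hi)]
  simp only [e1, Finset.mul_sum]
  rw [Finset.sum_comm]
  have e2 : ∀ x ∈ S, Real.exp (-((s : ℝ) * β)) ≤
      ∑ w : Fin s → E, wt ν w * ∏ i, ind (rel (w i) x) := by
    intro x hx
    rw [wt_sum ν s (fun e => ind (rel e x))]
    have h3 : ∑ e, ν e * ind (rel e x) =
        ∑ e ∈ Finset.univ.filter (fun e : E => rel e x), ν e := by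
      rw [Finset.sum_filter]
      refine Finset.sum_congr rfl fun e _ => ?_
      unfold ind
      split_ifs <;> simp
    rw [h3]
    have h4 : Real.exp (-((s : ℝ) * β)) = Real.exp (-β) ^ s := by
      rw [← Real.exp_nat_mul]; congr 1; ring
    rw [h4]
    exact pow_le_pow_left₀ (Real.exp_pos _).le (hdeg x hx) s
  calc Real.exp (-((s : ℝ) * β)) * (S.card : ℝ) = ∑ x ∈ S, Real.exp (-((s : ℝ) * β)) := by
        rw [Finset.sum_const, nsmul_eq_mul, mul_comm]
    _ ≤ _ := Finset.sum_le_sum e2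

theorem Zw_ge (ν : E → ℝ) (hν0 : ∀ e, 0 ≤ ν e) (hν1 : ∑ e, ν e = 1) (rel : E → V → Prop)
    (S : Finset V) (hS : S.Nonempty) (β : ℝ)
    (hdeg : ∀ x ∈ S, Real.exp (-β) ≤
      ∑ e ∈ Finset.univ.filter (fun e : E => rel e x), ν e) (s : ℕ) :
    1 / 2 * Real.exp (-((s : ℝ) * β)) ≤ Zw ν rel S β s := by
  have hSpos : (0 : ℝ) < (S.card : ℝ) := by exact_mod_cast hS.card_pos
  have h1 := avg_Uw ν hν0 rel S β hdeg s
  have hwsum : ∑ w : Fin s → E, wt ν w = 1 := by
    have := wt_sum ν s (fun _ => 1)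
    simpa [hν1] using this
  have h2 : ∑ w : Fin s → E, wt ν w * ((Uw rel S w).card : ℝ) ≤
      ∑ w : Fin s → E, (wt ν w * ind (goodw rel S β w) * (S.card : ℝ) +
        wt ν w * (1 / 2 * Real.exp (-((s : ℝ) * β)) * (S.card : ℝ))) := by
    refine Finset.sum_le_sum fun w _ => ?_
    have hw0 := wt_nonneg hν0 w
    have hcard : ((Uw rel S w).card : ℝ) ≤ (S.card : ℝ) := by
      exact_mod_cast Finset.card_le_card (Finset.filter_subset _ _)
    by_cases hg : goodw rel S β w
    · rw [ind_pos hg, mul_one]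
      have h3 : 0 ≤ 1 / 2 * Real.exp (-((s : ℝ) * β)) * (S.card : ℝ) := by positivity
      nlinarith [mul_le_mul_of_nonneg_left hcard hw0, mul_nonneg hw0 h3]
    · rw [ind_neg hg]
      have h3 := hg
      unfold goodw at h3
      push Not at h3
      nlinarith [mul_le_mul_of_nonneg_left h3.le hw0]
  rw [Finset.sum_add_distrib, ← Finset.sum_mul, ← Finset.sum_mul, hwsum, one_mul] at h2
  have h3 : Real.exp (-((s : ℝ) * β)) * (S.card : ℝ) ≤
      Zw ν rel S β s * (S.card : ℝ) + 1 / 2 * Real.exp (-((s : ℝ) * β)) * (S.card : ℝ) :=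
    h1.trans h2
  have h4 : 1 / 2 * Real.exp (-((s : ℝ) * β)) * (S.card : ℝ) ≤
      Zw ν rel S β s * (S.card : ℝ) := by linarith
  exact le_of_mul_le_mul_right h4 hSpos

theorem nuw_nonneg (ν : E → ℝ) (hν0 : ∀ e, 0 ≤ ν e) (rel : E → V → Prop)
    (S : Finset V) (β : ℝ) {s : ℕ} (w : Fin s → E) : 0 ≤ nuw ν rel S β w := by
  unfold nuw
  refine div_nonneg (mul_nonneg (wt_nonneg hν0 w) (ind_nonneg _)) ?_
  exact Finset.sum_nonneg fun w _ => mul_nonneg (wt_nonneg hν0 w) (ind_nonneg _)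

theorem Uw_nonempty (rel : E → V → Prop) (S : Finset V) (hS : S.Nonempty) (β : ℝ) {s : ℕ}
    (w : Fin s → E) (hg : goodw rel S β w) : (Uw rel S w).Nonempty := by
  have hSpos : (0 : ℝ) < (S.card : ℝ) := by exact_mod_cast hS.card_pos
  rw [← Finset.card_pos]
  have : (0 : ℝ) < ((Uw rel S w).card : ℝ) :=
    lt_of_lt_of_le (by positivity) hg
  exact_mod_cast this

theorem nuE_sum (ν : E → ℝ) (hν0 : ∀ e, 0 ≤ ν e) (hν1 : ∑ e, ν e = 1)
    (rel : E → V → Prop) (S : Finset V) (hS : S.Nonempty) (β : ℝ)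
    (hdeg : ∀ x ∈ S, Real.exp (-β) ≤
      ∑ e ∈ Finset.univ.filter (fun e : E => rel e x), ν e) (s t : ℕ)
    (h : (Fin s → E) → ℝ) :
    ∑ e : (Fin s → E) × (Bool × Fin t → V), nuE ν rel S β e * h e.1 =
      ∑ w, nuw ν rel S β w * h w := by
  rw [Fintype.sum_prod_type]
  refine Finset.sum_congr rfl fun w _ => ?_
  simp only [nuE]
  by_cases hg : goodw rel S β w
  · have : ∀ z : Bool × Fin t → V, nuw ν rel S β w * unif (Uw rel S w) z * h w =
        nuw ν rel S β w * h w * unif (Uw rel S w) z := fun z => by ring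
    have h1 : ∑ z : Bool × Fin t → V, unif (Uw rel S w) z = 1 := by
      convert unif_sum_one (J := Bool × Fin t) _ (Uw_nonempty rel S hS β w hg)
    calc ∑ z : Bool × Fin t → V, nuw ν rel S β w * unif (Uw rel S w) z * h w
        = ∑ z : Bool × Fin t → V, nuw ν rel S β w * h w * unif (Uw rel S w) z :=
          Finset.sum_congr rfl fun z _ => this z
      _ = nuw ν rel S β w * h w * ∑ z : Bool × Fin t → V, unif (Uw rel S w) z := by
          rw [Finset.mul_sum]
      _ = _ := by rw [h1, mul_one]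
  · have : nuw ν rel S β w = 0 := by simp [nuw, ind_neg hg]
    simp [this]

theorem nuE_nonneg (ν : E → ℝ) (hν0 : ∀ e, 0 ≤ ν e) (rel : E → V → Prop) (S : Finset V)
    (β : ℝ) {s t : ℕ} (e : (Fin s → E) × (Bool × Fin t → V)) : 0 ≤ nuE ν rel S β e :=
  mul_nonneg (nuw_nonneg ν hν0 rel S β e.1) (unif_nonneg _ _)

theorem nuw_sum_one (ν : E → ℝ) (hν0 : ∀ e, 0 ≤ ν e) (hν1 : ∑ e, ν e = 1)
    (rel : E → V → Prop) (S : Finset V) (hS : S.Nonempty) (β : ℝ)
    (hdeg : ∀ x ∈ S, Real.exp (-β) ≤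
      ∑ e ∈ Finset.univ.filter (fun e : E => rel e x), ν e) (s : ℕ) :
    ∑ w : Fin s → E, nuw ν rel S β w = 1 := by
  have h := Zw_ge ν hν0 hν1 rel S hS β hdeg s
  have hpos : 0 < Zw ν rel S β s := lt_of_lt_of_le (by positivity) h
  simp only [nuw]
  rw [← Finset.sum_div]
  exact div_self hpos.ne'

theorem nuE_sum_one (ν : E → ℝ) (hν0 : ∀ e, 0 ≤ ν e) (hν1 : ∑ e, ν e = 1)
    (rel : E → V → Prop) (S : Finset V) (hS : S.Nonempty) (β : ℝ)
    (hdeg : ∀ x ∈ S, Real.exp (-β) ≤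
      ∑ e ∈ Finset.univ.filter (fun e : E => rel e x), ν e) (s t : ℕ) :
    ∑ e : (Fin s → E) × (Bool × Fin t → V), nuE ν rel S β e = 1 := by
  have := nuE_sum ν hν0 hν1 rel S hS β hdeg s t (fun _ => 1)
  simpa [nuw_sum_one ν hν0 hν1 rel S hS β hdeg s] using this

/-- comparison with the product reference -/
theorem nuE_ref (ν : E → ℝ) (hν0 : ∀ e, 0 ≤ ν e) (hν1 : ∑ e, ν e = 1)
    (rel : E → V → Prop) (S : Finset V) (hS : S.Nonempty) (β : ℝ)
    (hdeg : ∀ x ∈ S, Real.exp (-β) ≤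
      ∑ e ∈ Finset.univ.filter (fun e : E => rel e x), ν e) (s t : ℕ)
    (h : (Fin s → E) → ℝ) (hh : ∀ w, 0 ≤ h w) :
    ∑ e : (Fin s → E) × (Bool × Fin t → V), nuE ν rel S β e * h e.1 ≤
      2 * Real.exp ((s : ℝ) * β) * ∑ w, wt ν w * h w := by
  rw [nuE_sum ν hν0 hν1 rel S hS β hdeg s t h, Finset.mul_sum]
  refine Finset.sum_le_sum fun w _ => ?_
  have hZ := Zw_ge ν hν0 hν1 rel S hS β hdeg s
  have hpos : 0 < Zw ν rel S β s := lt_of_lt_of_le (by positivity) hZ
  have h1 : nuw ν rel S β w ≤ 2 * Real.exp ((s : ℝ) * β) * wt ν w := by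
    unfold nuw
    rw [div_le_iff₀ hpos]
    have h2 : wt ν w * ind (goodw rel S β w) ≤ wt ν w := by
      have := mul_le_mul_of_nonneg_left (ind_le_one (goodw rel S β w)) (wt_nonneg hν0 w)
      linarith
    have h3 : 2 * Real.exp ((s : ℝ) * β) * (1 / 2 * Real.exp (-((s : ℝ) * β))) = 1 := by
      have : Real.exp ((s : ℝ) * β) * Real.exp (-((s : ℝ) * β)) = 1 := by
        rw [← Real.exp_add]; simp
      linarith
    have h4 : 1 ≤ 2 * Real.exp ((s : ℝ) * β) * Zw ν rel S β s := by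
      rw [← h3]
      exact mul_le_mul_of_nonneg_left hZ (by positivity)
    nlinarith [mul_le_mul_of_nonneg_left h4 (wt_nonneg hν0 w)]
  have := mul_le_mul_of_nonneg_right h1 (hh w)
  linarith

end lemmas

end

end Pool.Agent.Helper691.RM
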