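import Mathlib
import Pool.Agent.Helper691.RM.Env

set_option autoImplicit false

namespace Pool.Agent.Helper691.RM

open Finset Real Classical

noncomputable section

/-- few vertices of a large subset of a bidense set have small degree into it -/
theorem few_bad {V : Type} (A : Bool → V → V → Prop) (c : Bool)
    (ρ δ : ℝ) (hρ : 0 < ρ) (hδ : 0 < δ) (S : Finset V) (hS : S.Nonempty) (hB : Bid A c ρ δ S)
    (U : Finset V) (hU : U ⊆ S) (hUρ : ρ * (S.card : ℝ) ≤ (U.card : ℝ)) :
    ((U.filter (fun x => dg A c x U < δ * (U.card : ℝ))).card : ℝ) ≤ ρ * (S.card : ℝ) := by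
  have hSpos : (0 : ℝ) < (S.card : ℝ) := by exact_mod_cast hS.card_pos
  by_contra hcon
  push Not at hcon
  set X := U.filter (fun x => dg A c x U < δ * (U.card : ℝ)) with hX
  have hXS : X ⊆ S := (Finset.filter_subset _ _).trans hU
  have h1 := hB X hXS U hU hcon.le hUρ
  have hXpos : (0 : ℝ) < (X.card : ℝ) := lt_trans (by positivity) hcon
  have hXne : X.Nonempty := by
    rw [← Finset.card_pos]; exact_mod_cast hXpos
  have h2 : ∑ x ∈ X, dg A c x U < ∑ _x ∈ X, δ * (U.card : ℝ) :=
    Finset.sum_lt_sum_of_nonempty hXne fun x hx => (Finset.mem_filter.mp hx).2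
  rw [Finset.sum_const, nsmul_eq_mul] at h2
  nlinarith

/-- lower bound for the number of vertices whose weight in the new environment is large -/
theorem Wp_card {V E : Type} [Fintype V] [Fintype E] (A : Bool → V → V → Prop)
    (hsymm : ∀ c x y, A c x y → A c y x) (ν : E → ℝ) (hν0 : ∀ e, 0 ≤ ν e)
    (hν1 : ∑ e, ν e = 1) (rel : E → V → Prop) (S : Finset V) (hS : S.Nonempty) (β : ℝ)
    (hdeg : ∀ x ∈ S, Real.exp (-β) ≤
      ∑ e ∈ Finset.univ.filter (fun e : E => rel e x), ν e) (s t : ℕ)
    (ρ δ : ℝ) (hρ : 0 < ρ) (hδ : 0 < δ) (hB : ∀ c, Bid A c ρ δ S)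
    (h8 : 8 * ρ ≤ Real.exp (-((s : ℝ) * β))) (β' : ℝ)
    (hβ' : (s : ℝ) * β + 2 * (t : ℝ) * Real.log (1 / δ) + Real.log 8 ≤ β') :
    Real.exp (-β') * (S.card : ℝ) ≤ ((S.filter (fun x => Real.exp (-β') ≤
      ∑ e ∈ Finset.univ.filter (fun e : (Fin s → E) × (Bool × Fin t → V) =>
        relE A rel S β e x), nuE ν rel S β e)).card : ℝ) := by
  have hSpos : (0 : ℝ) < (S.card : ℝ) := by exact_mod_cast hS.card_pos
  set f : V → ℝ := fun x => ∑ e ∈ Finset.univ.filter
    (fun e : (Fin s → E) × (Bool × Fin t → V) => relE A rel S β e x), nuE ν rel S β e with hf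
  -- value of `f`
  have hf1 : ∀ x, f x = ∑ w : Fin s → E, nuw ν rel S β w *
      ∑ z : Bool × Fin t → V, unif (Uw rel S w) z * ind (relE A rel S β (w, z) x) := by
    intro x
    simp only [hf]
    rw [Finset.sum_filter, Fintype.sum_prod_type]
    refine Finset.sum_congr rfl fun w _ => ?_
    rw [Finset.mul_sum]
    refine Finset.sum_congr rfl fun z _ => ?_
    simp only [nuE, ind]
    split_ifs <;> ring
  have hf0 : ∀ x, 0 ≤ f x := fun x =>
    Finset.sum_nonneg fun e _ => nuE_nonneg ν hν0 rel S β e
  have hfle : ∀ x, f x ≤ 1 := by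
    intro x
    rw [← nuE_sum_one ν hν0 hν1 rel S hS β hdeg s t]
    exact Finset.sum_le_sum_of_subset_of_nonneg (Finset.filter_subset _ _)
      fun e _ _ => nuE_nonneg ν hν0 rel S β e
  -- lower bound for the inner sum at a good tuple and a good vertex
  have hin : ∀ w : Fin s → E, goodw rel S β w → ∀ x ∈ Uw rel S w,
      (∀ c, δ * ((Uw rel S w).card : ℝ) ≤ dg A c x (Uw rel S w)) →
      δ ^ (2 * t) ≤ ∑ z : Bool × Fin t → V, unif (Uw rel S w) z *
        ind (relE A rel S β (w, z) x) := by
    intro w hg x hx hd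
    set U := Uw rel S w with hU
    have hUne : U.Nonempty := ⟨x, hx⟩
    have hUpos : (0 : ℝ) < (U.card : ℝ) := by exact_mod_cast hUne.card_pos
    have h1 : ∀ z : Bool × Fin t → V, unif U z * ind (relE A rel S β (w, z) x) =
        unif U z * ∏ j : Bool × Fin t, ind (A j.1 (z j) x) := by
      intro z
      by_cases hz : ∀ j, z j ∈ U
      · congr 1
        by_cases hA : ∀ j : Bool × Fin t, A j.1 (z j) x
        · rw [ind_pos, Finset.prod_eq_one]
          · intro j _
            exact ind_pos (hA j)
          · exact ⟨hg, (Finset.mem_filter.mp hx).2, fun j => ⟨hz j, hA j⟩⟩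
        · rw [ind_neg]
          · push Not at hA
            obtain ⟨j, hj⟩ := hA
            rw [Finset.prod_eq_zero (Finset.mem_univ j) (ind_neg hj)]
          · intro h
            exact hA fun j => (h.2.2 j).2
      · push Not at hz
        obtain ⟨j, hj⟩ := hz
        have : unif U z = 0 := by
          unfold unif
          rw [Finset.prod_eq_zero (Finset.mem_univ j)]
          rw [ind_neg hj]; simp
        rw [this]; simp
    have h2 := unif_sum (J := Bool × Fin t) U (fun j y => ind (A j.1 y x))
    have h3 : ∀ c : Bool, ∑ y ∈ U, ind (A c y x) = dg A c x U := by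
      intro c
      rw [dg, Finset.card_filter]
      push_cast
      refine Finset.sum_congr rfl fun y _ => ?_
      unfold ind
      by_cases h : A c y x
      · rw [if_pos h, if_pos (hsymm _ _ _ h)]
      · rw [if_neg h, if_neg (fun h' => h (hsymm _ _ _ h'))]
    calc δ ^ (2 * t) = ∏ _j : Bool × Fin t, δ := by
          rw [Finset.prod_const, Finset.card_univ]
          simp
      _ ≤ ∏ j : Bool × Fin t, ((∑ y ∈ U, ind (A j.1 y x)) / (U.card : ℝ)) := by
          refine Finset.prod_le_prod (fun _ _ => hδ.le) fun j _ => ?_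
          rw [le_div_iff₀ hUpos, h3]
          exact hd _
      _ = ∑ z : Bool × Fin t → V, unif U z * ∏ j : Bool × Fin t, ind (A j.1 (z j) x) := by
          rw [← h2]
          exact Finset.sum_congr (by ext; simp) fun _ _ => rfl
      _ = _ := Finset.sum_congr rfl fun z _ => (h1 z).symm
  -- lower bound for the total
  have htot : 1 / 4 * Real.exp (-((s : ℝ) * β)) * δ ^ (2 * t) * (S.card : ℝ) ≤
      ∑ x ∈ S, f x := by
    have h1 : ∑ x ∈ S, f x = ∑ w : Fin s → E, nuw ν rel S β w * ∑ x ∈ S,
        ∑ z : Bool × Fin t → V, unif (Uw rel S w) z * ind (relE A rel S β (w, z) x) := by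
      simp only [hf1]
      rw [Finset.sum_comm]
      refine Finset.sum_congr rfl fun w _ => ?_
      rw [Finset.mul_sum]
    have h2 : ∀ w : Fin s → E, nuw ν rel S β w *
        (1 / 4 * Real.exp (-((s : ℝ) * β)) * δ ^ (2 * t) * (S.card : ℝ)) ≤
        nuw ν rel S β w * ∑ x ∈ S,
        ∑ z : Bool × Fin t → V, unif (Uw rel S w) z * ind (relE A rel S β (w, z) x) := by
      intro w
      by_cases hg : goodw rel S β w
      · refine mul_le_mul_of_nonneg_left ?_ (nuw_nonneg ν hν0 rel S β w)
        set U := Uw rel S w with hU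
        have hUS : U ⊆ S := Finset.filter_subset _ _
        have hUg : 1 / 2 * Real.exp (-((s : ℝ) * β)) * (S.card : ℝ) ≤ (U.card : ℝ) := hg
        have hUρ : ρ * (S.card : ℝ) ≤ (U.card : ℝ) := by nlinarith
        set Y := U.filter (fun x => ∀ c, δ * (U.card : ℝ) ≤ dg A c x U) with hY
        have hYc : (U.card : ℝ) / 2 ≤ (Y.card : ℝ) := by
          have hcov : U ⊆ Y ∪ (U.filter (fun x => dg A true x U < δ * (U.card : ℝ)) ∪
              U.filter (fun x => dg A false x U < δ * (U.card : ℝ))) := by
            intro x hx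
            by_cases h : ∀ c, δ * (U.card : ℝ) ≤ dg A c x U
            · exact Finset.mem_union_left _ (Finset.mem_filter.mpr ⟨hx, h⟩)
            · push Not at h
              obtain ⟨c, hc⟩ := h
              apply Finset.mem_union_right
              cases c
              · exact Finset.mem_union_right _ (Finset.mem_filter.mpr ⟨hx, hc⟩)
              · exact Finset.mem_union_left _ (Finset.mem_filter.mpr ⟨hx, hc⟩)
          have hc1 := (Finset.card_le_card hcov).trans ((Finset.card_union_le _ _).trans
            (Nat.add_le_add_left (Finset.card_union_le _ _) _))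
          have hc2 : (U.card : ℝ) ≤ (Y.card : ℝ) +
              (((U.filter (fun x => dg A true x U < δ * (U.card : ℝ))).card : ℝ) +
              ((U.filter (fun x => dg A false x U < δ * (U.card : ℝ))).card : ℝ)) := by
            exact_mod_cast hc1
          have hb1 := few_bad A true ρ δ hρ hδ S hS (hB true) U hUS hUρ
          have hb2 := few_bad A false ρ δ hρ hδ S hS (hB false) U hUS hUρ
          nlinarith
        have h3 : ∑ _x ∈ Y, δ ^ (2 * t) ≤ ∑ x ∈ S,
            ∑ z : Bool × Fin t → V, unif U z * ind (relE A rel S β (w, z) x) := by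
          refine (Finset.sum_le_sum (f := fun _ => δ ^ (2 * t)) (g := fun x =>
            ∑ z : Bool × Fin t → V, unif U z * ind (relE A rel S β (w, z) x)) fun x hx => ?_).trans
            (Finset.sum_le_sum_of_subset_of_nonneg ((Finset.filter_subset _ _).trans hUS)
              fun x _ _ => ?_)
          · obtain ⟨hxU, hxd⟩ := Finset.mem_filter.mp hx
            exact hin w hg x hxU hxd
          · exact Finset.sum_nonneg fun z _ => mul_nonneg (unif_nonneg _ _) (ind_nonneg _)
        refine le_trans ?_ h3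
        rw [Finset.sum_const, nsmul_eq_mul]
        have hδt : 0 < δ ^ (2 * t) := pow_pos hδ _
        have : 1 / 4 * Real.exp (-((s : ℝ) * β)) * (S.card : ℝ) ≤ (Y.card : ℝ) := by
          linarith
        nlinarith [mul_le_mul_of_nonneg_right this hδt.le]
      · have : nuw ν rel S β w = 0 := by simp [nuw, ind_neg hg]
        simp [this]
    rw [h1]
    refine le_trans ?_ (Finset.sum_le_sum fun w _ => h2 w)
    rw [← Finset.sum_mul, nuw_sum_one ν hν0 hν1 rel S hS β hdeg s, one_mul]
  -- comparison of constants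
  have hexp : Real.exp (-β') ≤ 1 / 8 * Real.exp (-((s : ℝ) * β)) * δ ^ (2 * t) := by
    have h1 : 1 / 8 * Real.exp (-((s : ℝ) * β)) * δ ^ (2 * t) =
        Real.exp (-((s : ℝ) * β + 2 * (t : ℝ) * Real.log (1 / δ) + Real.log 8)) := by
      rw [neg_add, neg_add, Real.exp_add, Real.exp_add, Real.exp_neg (Real.log 8),
        Real.exp_log (by norm_num : (0 : ℝ) < 8)]
      have h2 : Real.exp (-(2 * (t : ℝ) * Real.log (1 / δ))) = δ ^ (2 * t) := by
        rw [one_div, Real.log_inv]
        have : -(2 * (t : ℝ) * -Real.log δ) = ((2 * t : ℕ) : ℝ) * Real.log δ := by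
          push_cast; ring
        rw [this, Real.exp_nat_mul, Real.exp_log hδ]
      rw [h2]
      ring
    rw [h1]
    exact Real.exp_le_exp.mpr (neg_le_neg hβ')
  set W' := S.filter (fun x => Real.exp (-β') ≤ f x) with hW'
  have h5 : ∑ x ∈ S, f x ≤ (W'.card : ℝ) + Real.exp (-β') * (S.card : ℝ) := by
    rw [← Finset.sum_filter_add_sum_filter_not S (fun x => Real.exp (-β') ≤ f x)]
    refine add_le_add ?_ ?_
    · calc ∑ x ∈ W', f x ≤ ∑ _x ∈ W', (1 : ℝ) := Finset.sum_le_sum fun x _ => hfle x
        _ = (W'.card : ℝ) := by simp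
    · calc ∑ x ∈ S.filter (fun x => ¬ Real.exp (-β') ≤ f x), f x
          ≤ ∑ _x ∈ S.filter (fun x => ¬ Real.exp (-β') ≤ f x), Real.exp (-β') := by
            refine Finset.sum_le_sum fun x hx => ?_
            have := (Finset.mem_filter.mp hx).2
            push Not at this
            exact this.le
        _ = ((S.filter (fun x => ¬ Real.exp (-β') ≤ f x)).card : ℝ) * Real.exp (-β') := by
            rw [Finset.sum_const, nsmul_eq_mul]
        _ ≤ Real.exp (-β') * (S.card : ℝ) := by
            rw [mul_comm]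
            refine mul_le_mul_of_nonneg_left ?_ (Real.exp_pos _).le
            exact_mod_cast Finset.card_le_card (Finset.filter_subset _ _)
  have h6 : 2 * Real.exp (-β') * (S.card : ℝ) ≤ ∑ x ∈ S, f x := by
    refine le_trans ?_ htot
    refine mul_le_mul_of_nonneg_right ?_ hSpos.le
    linarith
  linarith

end

end Pool.Agent.Helper691.RM
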