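import Mathlib
import Pool.Agent.Helper691.RM.Size

set_option autoImplicit false

namespace Pool.Agent.Helper691.RM

open Finset Real Classical

noncomputable section

/-- vertices of the common neighbourhood compatible with the images of the neighbours of `v` -/
def Av {V ι E : Type} [Fintype V] (A : Bool → V → V → Prop) (H : SimpleGraph ι) (c : Bool)
    (rel : E → V → Prop) (S : Finset V) {s : ℕ} (v : ι) (x : ι → V) (w : Fin s → E) :
    Finset V :=
  (Uw rel S w).filter (fun y => ∀ u, H.Adj v u → A c (x u) y)

theorem mem_Av {V ι E : Type} [Fintype V] (A : Bool → V → V → Prop) (H : SimpleGraph ι)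
    (c : Bool) (rel : E → V → Prop) (S : Finset V) {s : ℕ} (v : ι) (x : ι → V) (w : Fin s → E)
    (y : V) : y ∈ Av A H c rel S v x w ↔
      y ∈ Uw rel S w ∧ ∀ u, H.Adj v u → A c (x u) y := by
  simp [Av]

theorem Av_subset {V ι E : Type} [Fintype V] (A : Bool → V → V → Prop) (H : SimpleGraph ι)
    (c : Bool) (rel : E → V → Prop) (S : Finset V) {s : ℕ} (v : ι) (x : ι → V)
    (w : Fin s → E) : Av A H c rel S v x w ⊆ Uw rel S w := by
  intro y hy
  exact ((mem_Av A H c rel S v x w y).mp hy).1

theorem prod_bool_fin (c : Bool) (t : ℕ) (a : ℝ) :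
    ∏ j : Bool × Fin t, (if j.1 = c then a else 1) = a ^ t := by
  rw [Fintype.prod_prod_type, Fintype.prod_bool]
  cases c <;> simp

theorem sum_ind_mem {V : Type} (X U : Finset V) (hXU : X ⊆ U) :
    ∑ y ∈ U, ind (y ∈ X) = (X.card : ℝ) := by
  rw [← Finset.sum_subset hXU (f := fun y => ind (y ∈ X))]
  · rw [Finset.sum_congr rfl (g := fun _ => (1 : ℝ)) fun y hy => ind_pos hy]
    simp
  · intro y _ hy
    exact ind_neg hy

theorem badprob {V ι E Ω : Type} [Fintype V] [Fintype ι] [Nonempty ι] [Fintype E] [Fintype Ω]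
    (A : Bool → V → V → Prop) (hsymm : ∀ c x y, A c x y → A c y x) (H : SimpleGraph ι)
    (ν : E → ℝ) (hν0 : ∀ e, 0 ≤ ν e)
    (hν1 : ∑ e, ν e = 1) (rel : E → V → Prop) (S : Finset V) (hS : S.Nonempty) (β : ℝ)
    (hdeg : ∀ x ∈ S, Real.exp (-β) ≤
      ∑ e ∈ Finset.univ.filter (fun e : E => rel e x), ν e) (s t : ℕ) (ht : 0 < t)
    (W' : Finset V) (j K : ℕ) (B' : ℕ → ℝ) (D : ℕ → ℕ) (p' : ℕ → ι → ℝ) (κ' : ℝ) (c : Bool)
    (P : Ω → ℝ) (φ : Ω → ι → V) (e : Ω → (Fin s → E) × (Bool × Fin t → V)) (ℓ : Ω → ι → ℕ)
    (hG : Good A H W' (nuE ν rel S β) (relE A rel S β) j K B' D p' κ' c P φ e ℓ)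
    (r : ℝ) (hr : 0 < r) (v : ι) :
    ∑ ω ∈ Finset.univ.filter (fun ω : Ω =>
        ¬ Real.exp (-r) * ((Uw rel S (e ω).1).card : ℝ) ≤
          ((Av A H c rel S v (φ ω) (e ω).1).card : ℝ)), P ω ≤
      (κ' * (1 + (H.degree v : ℝ)) + Real.log 2) / ((t : ℝ) * r) := by
  have htpos : (0 : ℝ) < (t : ℝ) := by exact_mod_cast ht
  -- the test function
  set ev : (ι → V) → (Fin s → E) × (Bool × Fin t → V) → Prop := fun x e =>
    goodw rel S β e.1 ∧ ∀ i : Fin t, e.2 (c, i) ∈ Av A H c rel S v x e.1 with hev
  set q : (ι → V) → (Fin s → E) → ℝ := fun x w =>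
    ((Uw rel S w).card : ℝ) / ((Av A H c rel S v x w).card : ℝ) with hq
  set f : (ι → V) → (Fin s → E) × (Bool × Fin t → V) → ℝ := fun x e =>
    if ev x e then q x e.1 ^ t else 1 with hf
  have hevpos : ∀ x e, ev x e → 0 < ((Av A H c rel S v x e.1).card : ℝ) := by
    intro x e h
    have : (Av A H c rel S v x e.1).Nonempty := ⟨_, h.2 ⟨0, ht⟩⟩
    exact_mod_cast this.card_pos
  have hAU : ∀ x (w : Fin s → E), ((Av A H c rel S v x w).card : ℝ) ≤
      ((Uw rel S w).card : ℝ) := by
    intro x w
    exact_mod_cast Finset.card_le_card (Av_subset A H c rel S v x w)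
  have hfpos : ∀ x e, 0 < f x e := by
    intro x e
    simp only [hf]
    split_ifs with h
    · have h1 := hevpos x e h
      exact pow_pos (div_pos (lt_of_lt_of_le h1 (hAU x e.1)) h1) _
    · exact one_pos
  have hAd : ∀ x y (w : Fin s → E), (∀ u ∈ Finset.univ.filter (fun u => H.Adj v u), x u = y u) →
      Av A H c rel S v x w = Av A H c rel S v y w := by
    intro x y w h
    ext z
    rw [mem_Av, mem_Av]
    refine and_congr_right fun _ => ?_
    refine forall_congr' fun u => ?_
    refine forall_congr' fun hu => ?_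
    rw [h u (by simp [hu])]
  have hfd : ∀ x y e, (∀ u ∈ Finset.univ.filter (fun u => H.Adj v u), x u = y u) →
      f x e = f y e := by
    intro x y e h
    simp only [hf, hev, hq, hAd x y e.1 h]
  have hcardT : (((Finset.univ.filter (fun u => H.Adj v u)).card : ℕ) : ℝ) =
      (H.degree v : ℝ) := by
    rw [← SimpleGraph.card_neighborFinset_eq_degree]
    congr 2
    ext u
    simp
  have hent := hG.ent (Finset.univ.filter (fun u => H.Adj v u)) f hfpos hfd
  rw [hcardT] at hent
  -- the average of the test function is at most two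
  have hf2 : ∀ x, ∑ e', nuE ν rel S β e' * f x e' ≤ 2 := by
    intro x
    have h1 : ∀ e' : (Fin s → E) × (Bool × Fin t → V), nuE ν rel S β e' * f x e' ≤
        nuE ν rel S β e' + nuE ν rel S β e' * (ind (ev x e') * q x e'.1 ^ t) := by
      intro e'
      have h0 := nuE_nonneg ν hν0 rel S β e'
      simp only [hf]
      by_cases h : ev x e'
      · rw [if_pos h, ind_pos h]
        linarith
      · rw [if_neg h, ind_neg h]
        linarith
    refine (Finset.sum_le_sum fun e' _ => h1 e').trans ?_
    rw [Finset.sum_add_distrib, nuE_sum_one ν hν0 hν1 rel S hS β hdeg s t]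
    have h2 : ∑ e' : (Fin s → E) × (Bool × Fin t → V),
        nuE ν rel S β e' * (ind (ev x e') * q x e'.1 ^ t) ≤ 1 := by
      rw [Fintype.sum_prod_type, ← nuw_sum_one ν hν0 hν1 rel S hS β hdeg s]
      refine Finset.sum_le_sum fun w _ => ?_
      have hw0 := nuw_nonneg ν hν0 rel S β w
      by_cases hg : goodw rel S β w
      · set U := Uw rel S w with hU
        have hUne := Uw_nonempty rel S hS β w hg
        have hUpos : (0 : ℝ) < (U.card : ℝ) := by exact_mod_cast hUne.card_pos
        have h3 : ∀ z : Bool × Fin t → V, nuE ν rel S β (w, z) *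
            (ind (ev x (w, z)) * q x w ^ t) ≤ nuw ν rel S β w * (q x w ^ t *
              (unif U z * ∏ j : Bool × Fin t,
                (if j.1 = c then ind (z j ∈ Av A H c rel S v x w) else 1))) := by
          intro z
          have hq0 : 0 ≤ q x w := by
            simp only [hq]; positivity
          have h4 : ind (ev x (w, z)) ≤ ∏ j : Bool × Fin t,
                (if j.1 = c then ind (z j ∈ Av A H c rel S v x w) else 1) := by
            by_cases h : ev x (w, z)
            · rw [ind_pos h, Finset.prod_eq_one]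
              intro j _
              split_ifs with hj
              · apply ind_pos
                have := h.2 j.2
                have hj' : j = (c, j.2) := by rw [← hj]
                rw [hj']
                exact this
              · rfl
            · rw [ind_neg h]
              refine Finset.prod_nonneg fun j _ => ?_
              split_ifs
              · exact ind_nonneg _
              · exact zero_le_one
          have h5 : nuE ν rel S β (w, z) = nuw ν rel S β w * unif U z := rfl
          rw [h5]
          have h6 := unif_nonneg U z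
          have h7 : 0 ≤ nuw ν rel S β w * unif U z * q x w ^ t := by positivity
          nlinarith [mul_le_mul_of_nonneg_left h4 h7]
        refine (Finset.sum_le_sum fun z _ => h3 z).trans ?_
        rw [← Finset.mul_sum, ← Finset.mul_sum]
        have h8 := unif_sum (J := Bool × Fin t) U (fun j y =>
          if j.1 = c then ind (y ∈ Av A H c rel S v x w) else 1)
        have h9 : ∑ z : Bool × Fin t → V, unif U z * ∏ j : Bool × Fin t,
                (if j.1 = c then ind (z j ∈ Av A H c rel S v x w) else 1) =
            (((Av A H c rel S v x w).card : ℝ) / (U.card : ℝ)) ^ t := by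
          have h10 : ∑ z : Bool × Fin t → V, unif U z * ∏ j : Bool × Fin t,
                (if j.1 = c then ind (z j ∈ Av A H c rel S v x w) else 1) =
              ∏ j : Bool × Fin t, ((∑ y ∈ U,
                (if j.1 = c then ind (y ∈ Av A H c rel S v x w) else 1)) / (U.card : ℝ)) := by
            rw [← h8]
            exact Finset.sum_congr (by ext; simp) fun _ _ => rfl
          rw [h10]
          have h11 : ∑ y ∈ U, ind (y ∈ Av A H c rel S v x w) =
              ((Av A H c rel S v x w).card : ℝ) :=
            sum_ind_mem _ _ (Av_subset _ _ _ _ _ _ _ _)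
          have h12 : ∀ j : Bool × Fin t, ((∑ y ∈ U,
                (if j.1 = c then ind (y ∈ Av A H c rel S v x w) else 1)) / (U.card : ℝ)) =
              if j.1 = c then ((Av A H c rel S v x w).card : ℝ) / (U.card : ℝ) else 1 := by
            intro j
            split_ifs with hj
            · rw [h11]
            · rw [Finset.sum_const, nsmul_eq_mul, mul_one, div_self hUpos.ne']
          simp only [h12]
          exact prod_bool_fin c t _
        rw [h9]
        have h13 : q x w ^ t * (((Av A H c rel S v x w).card : ℝ) / (U.card : ℝ)) ^ t ≤ 1 := by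
          rw [← mul_pow]
          refine pow_le_one₀ ?_ ?_
          · simp only [hq]; positivity
          · simp only [hq]
            by_cases h0 : ((Av A H c rel S v x w).card : ℝ) = 0
            · rw [h0]; simp
            · rw [div_mul_div_comm, mul_comm, div_self (mul_ne_zero h0 hUpos.ne')]
        calc nuw ν rel S β w * (q x w ^ t *
              (((Av A H c rel S v x w).card : ℝ) / (U.card : ℝ)) ^ t)
            ≤ nuw ν rel S β w * 1 := mul_le_mul_of_nonneg_left h13 hw0
          _ = _ := mul_one _
      · have h3 : nuw ν rel S β w = 0 := by simp [nuw, ind_neg hg]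
        simp [nuE, h3]
    linarith
  have hlog2 : ∑ ω, P ω * Real.log (∑ e', nuE ν rel S β e' * f (φ ω) e') ≤ Real.log 2 := by
    have h1 : ∀ ω, P ω * Real.log (∑ e', nuE ν rel S β e' * f (φ ω) e') ≤
        P ω * Real.log 2 := by
      intro ω
      refine mul_le_mul_of_nonneg_left ?_ (hG.nonneg ω)
      refine Real.log_le_log ?_ (hf2 (φ ω))
      obtain ⟨e', he'⟩ : ∃ e' : (Fin s → E) × (Bool × Fin t → V), nuE ν rel S β e' ≠ 0 := by
        by_contra hcon
        push Not at hcon
        have := nuE_sum_one ν hν0 hν1 rel S hS β hdeg s t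
        simp [hcon] at this
      refine Finset.sum_pos' (fun e' _ => mul_nonneg (nuE_nonneg ν hν0 rel S β e')
        (hfpos _ e').le) ⟨e', Finset.mem_univ _, ?_⟩
      exact mul_pos (lt_of_le_of_ne (nuE_nonneg ν hν0 rel S β e') (Ne.symm he')) (hfpos _ e')
    calc ∑ ω, P ω * Real.log (∑ e', nuE ν rel S β e' * f (φ ω) e')
        ≤ ∑ ω, P ω * Real.log 2 := Finset.sum_le_sum fun ω _ => h1 ω
      _ = Real.log 2 := by rw [← Finset.sum_mul, hG.sum_one, one_mul]
  -- lower bound for the left-hand side
  have hlow : ∀ ω, P ω * Real.log (f (φ ω) (e ω)) ≥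
      if ¬ Real.exp (-r) * ((Uw rel S (e ω).1).card : ℝ) ≤
          ((Av A H c rel S v (φ ω) (e ω).1).card : ℝ) then P ω * ((t : ℝ) * r) else 0 := by
    intro ω
    by_cases hω : P ω = 0
    · simp [hω]
    · have hP0 := hG.nonneg ω
      obtain ⟨v0⟩ := (inferInstance : Nonempty ι)
      have hrel := hG.adj ω hω
      have hev' : ev (φ ω) (e ω) := by
        refine ⟨(hrel v0).1, fun i => ?_⟩
        refine (mem_Av _ _ _ _ _ _ _ _ _).mpr ⟨((hrel v0).2.2 (c, i)).1, fun u _ => ?_⟩
        exact hsymm _ _ _ ((hrel u).2.2 (c, i)).2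
      have hApos := hevpos _ _ hev'
      have hUpos := lt_of_lt_of_le hApos (hAU (φ ω) (e ω).1)
      have hfe : Real.log (f (φ ω) (e ω)) = (t : ℝ) * Real.log (q (φ ω) (e ω).1) := by
        simp only [hf]
        rw [if_pos hev', Real.log_pow]
      have hq1 : 1 ≤ q (φ ω) (e ω).1 := by
        simp only [hq]
        rw [one_le_div hApos]
        exact hAU _ _
      have hqlog : 0 ≤ Real.log (q (φ ω) (e ω).1) := Real.log_nonneg hq1
      rw [hfe]
      by_cases h : Real.exp (-r) * ((Uw rel S (e ω).1).card : ℝ) ≤
          ((Av A H c rel S v (φ ω) (e ω).1).card : ℝ)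
      · rw [if_neg (not_not.mpr h)]
        exact mul_nonneg hP0 (mul_nonneg htpos.le hqlog)
      · rw [if_pos h]
        push Not at h
        refine mul_le_mul_of_nonneg_left ?_ hP0
        refine mul_le_mul_of_nonneg_left ?_ htpos.le
        rw [Real.le_log_iff_exp_le (lt_of_lt_of_le one_pos hq1)]
        simp only [hq]
        rw [le_div_iff₀ hApos]
        have h2 : Real.exp r * Real.exp (-r) = 1 := by rw [← Real.exp_add]; simp
        have h3 := mul_le_mul_of_nonneg_left h.le (Real.exp_pos r).le
        calc Real.exp r * ((Av A H c rel S v (φ ω) (e ω).1).card : ℝ)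
            ≤ Real.exp r * (Real.exp (-r) * ((Uw rel S (e ω).1).card : ℝ)) := h3
          _ = (Real.exp r * Real.exp (-r)) * ((Uw rel S (e ω).1).card : ℝ) := by ring
          _ = _ := by rw [h2, one_mul]
  have hfin : (∑ ω ∈ Finset.univ.filter (fun ω : Ω =>
        ¬ Real.exp (-r) * ((Uw rel S (e ω).1).card : ℝ) ≤
          ((Av A H c rel S v (φ ω) (e ω).1).card : ℝ)), P ω) * ((t : ℝ) * r) ≤
      ∑ ω, P ω * Real.log (f (φ ω) (e ω)) := by
    rw [Finset.sum_mul, Finset.sum_filter]
    exact Finset.sum_le_sum fun ω _ => hlow ω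
  rw [le_div_iff₀ (by positivity)]
  linarith

end

end Pool.Agent.Helper691.RM
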