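import Mathlib
import Pool.Agent.Helper691.RM.Defs

set_option autoImplicit false

namespace Pool.Agent.Helper691.RM

open Finset Real Classical

noncomputable section

theorem dg_nonneg {V : Type} (A : Bool → V → V → Prop) (c : Bool) (x : V) (Y : Finset V) :
    0 ≤ dg A c x Y := Nat.cast_nonneg _

theorem dg_eq {V : Type} (A : Bool → V → V → Prop) (c : Bool) (x : V) (Y : Finset V) :
    dg A c x Y = ∑ y ∈ Y, if A c x y then (1 : ℝ) else 0 := by
  rw [dg, Finset.card_filter]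
  push_cast
  rfl

theorem e_symm {V : Type} (A : Bool → V → V → Prop) (hsymm : ∀ c x y, A c x y → A c y x)
    (c : Bool) (X Y : Finset V) : ∑ x ∈ X, dg A c x Y = ∑ y ∈ Y, dg A c y X := by
  simp only [dg_eq]
  rw [Finset.sum_comm]
  refine Finset.sum_congr rfl fun y _ => Finset.sum_congr rfl fun x _ => ?_
  by_cases h : A c x y
  · rw [if_pos h, if_pos (hsymm _ _ _ h)]
  · rw [if_neg h, if_neg (fun h' => h (hsymm _ _ _ h'))]

theorem dich_markov {V : Type} (X : Finset V) (f : V → ℝ) (hf : ∀ x, 0 ≤ f x) (t : ℝ) :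
    t * ((X.filter (fun x => t < f x)).card : ℝ) ≤ ∑ x ∈ X, f x := by
  have h1 : ∑ x ∈ X.filter (fun x => t < f x), t ≤ ∑ x ∈ X.filter (fun x => t < f x), f x :=
    Finset.sum_le_sum fun x hx => (Finset.mem_filter.1 hx).2.le
  have h2 : ∑ x ∈ X.filter (fun x => t < f x), f x ≤ ∑ x ∈ X, f x :=
    Finset.sum_le_sum_of_subset_of_nonneg (Finset.filter_subset _ _) fun x _ _ => hf x
  rw [Finset.sum_const, nsmul_eq_mul] at h1
  linarith

theorem dich_aux {V : Type} (A : Bool → V → V → Prop)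
    (hsymm : ∀ c x y, A c x y → A c y x) (c : Bool) (ρ δ : ℝ) (hρ0 : 0 < ρ) (hρ1 : ρ ≤ 1)
    (hδ : 0 < δ) (h : ℕ) : ∀ U : Finset V, U.Nonempty →
    (∀ S ⊆ U, (ρ / 2) ^ h * (U.card : ℝ) ≤ (S.card : ℝ) → ¬ Bid A c ρ δ S) →
    ∃ (J : Type) (_ : Fintype J) (Z : J → Finset V), Fintype.card J = 2 ^ h ∧
      (∀ i, Z i ⊆ U) ∧ (∀ i, (ρ / 2) ^ h * (U.card : ℝ) ≤ ((Z i).card : ℝ)) ∧
      ∀ i j, i ≠ j → ∑ x ∈ Z i, dg A c x (Z j) ≤
        (2 ^ (h + 1) * δ) * ((Z i).card : ℝ) * ((Z j).card : ℝ) := by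
  induction h with
  | zero =>
    intro U hU _
    refine ⟨Unit, inferInstance, fun _ => U, by simp, fun _ => Finset.Subset.refl _, ?_, ?_⟩
    · intro _; simp
    · intro i j hij; exact absurd rfl hij
  | succ h ih =>
    intro U hU hno
    have hUc : (0 : ℝ) < (U.card : ℝ) := by exact_mod_cast hU.card_pos
    have hρ2 : 0 < ρ / 2 := by positivity
    have hρ2' : ρ / 2 ≤ 1 := by linarith
    have hpow1 : (ρ / 2) ^ (h + 1) ≤ 1 := pow_le_one₀ hρ2.le hρ2'
    have hU' := hno U (Finset.Subset.refl _) (mul_le_of_le_one_left hUc.le hpow1)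
    unfold Bid at hU'
    push Not at hU'
    obtain ⟨X, hX, Y, hY, hXc, hYc, he⟩ := hU'
    have hXp : (0 : ℝ) < (X.card : ℝ) := lt_of_lt_of_le (by positivity) hXc
    have hYp : (0 : ℝ) < (Y.card : ℝ) := lt_of_lt_of_le (by positivity) hYc
    -- X'
    set X' := X.filter (fun x => ¬ (2 * δ * (Y.card : ℝ) < dg A c x Y)) with hX'
    have hXsplit : ((X.filter (fun x => 2 * δ * (Y.card : ℝ) < dg A c x Y)).card : ℝ)
        + (X'.card : ℝ) = (X.card : ℝ) := by
      have := Finset.card_filter_add_card_filter_not (s := X) (fun x => 2 * δ * (Y.card : ℝ) < dg A c x Y)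
      exact_mod_cast this
    have hm := dich_markov X (fun x => dg A c x Y) (fun x => dg_nonneg A c x Y) (2 * δ * (Y.card : ℝ))
    have hX'c : (ρ / 2) * (U.card : ℝ) ≤ (X'.card : ℝ) := by
      have h1 : 2 * δ * (Y.card : ℝ) *
          ((X.filter (fun x => 2 * δ * (Y.card : ℝ) < dg A c x Y)).card : ℝ) <
          δ * (X.card : ℝ) * (Y.card : ℝ) := lt_of_le_of_lt hm he
      have h2 : (δ * (Y.card : ℝ)) *
          (2 * ((X.filter (fun x => 2 * δ * (Y.card : ℝ) < dg A c x Y)).card : ℝ)) <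
          (δ * (Y.card : ℝ)) * (X.card : ℝ) := by nlinarith
      have h3 := lt_of_mul_lt_mul_left h2 (by positivity)
      linarith
    have hX'p : (0 : ℝ) < (X'.card : ℝ) := lt_of_lt_of_le (by positivity) hX'c
    have hX'ne : X'.Nonempty := Finset.card_pos.1 (by exact_mod_cast hX'p)
    have hX'U : X' ⊆ U := (Finset.filter_subset _ _).trans hX
    have hstep : ∀ W : Finset V, (ρ / 2) * (U.card : ℝ) ≤ (W.card : ℝ) →
        (ρ / 2) ^ (h + 1) * (U.card : ℝ) ≤ (ρ / 2) ^ h * (W.card : ℝ) := by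
      intro W hW
      rw [pow_succ, mul_assoc]
      exact mul_le_mul_of_nonneg_left hW (by positivity)
    obtain ⟨J1, inst1, Z1, hJ1, hZ1U, hZ1c, hZ1e⟩ := ih X' hX'ne (by
      intro S hS hSc
      exact hno S (hS.trans hX'U) ((hstep X' hX'c).trans hSc))
    have hZ1p : ∀ i, (0 : ℝ) < ((Z1 i).card : ℝ) := fun i =>
      lt_of_lt_of_le (by positivity) (hZ1c i)
    have hZ1Y : ∀ i, ∑ y ∈ Y, dg A c y (Z1 i) ≤ 2 * δ * (Y.card : ℝ) * ((Z1 i).card : ℝ) := by
      intro i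
      rw [e_symm A hsymm c Y (Z1 i)]
      have h1 : ∑ x ∈ Z1 i, dg A c x Y ≤ ∑ x ∈ Z1 i, 2 * δ * (Y.card : ℝ) := by
        apply Finset.sum_le_sum
        intro x hx
        have := (Finset.mem_filter.1 (hZ1U i hx)).2
        exact not_lt.1 this
      rw [Finset.sum_const, nsmul_eq_mul] at h1
      linarith
    -- Y'
    set bad : J1 → Finset V := fun i =>
      Y.filter (fun y => 2 ^ (h + 2) * δ * ((Z1 i).card : ℝ) < dg A c y (Z1 i)) with hbad
    have hbadc : ∀ i, 2 ^ (h + 1) * ((bad i).card : ℝ) ≤ (Y.card : ℝ) := by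
      intro i
      have h1 := dich_markov Y (fun y => dg A c y (Z1 i)) (fun y => dg_nonneg A c y (Z1 i))
        (2 ^ (h + 2) * δ * ((Z1 i).card : ℝ))
      have h2 := h1.trans (hZ1Y i)
      have h3 : (2 * δ * ((Z1 i).card : ℝ)) * (2 ^ (h + 1) * ((bad i).card : ℝ)) ≤
          (2 * δ * ((Z1 i).card : ℝ)) * (Y.card : ℝ) := by
        calc (2 * δ * ((Z1 i).card : ℝ)) * (2 ^ (h + 1) * ((bad i).card : ℝ))
            = 2 ^ (h + 2) * δ * ((Z1 i).card : ℝ) * ((bad i).card : ℝ) := by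
              rw [pow_succ _ (h + 1)]; ring
          _ ≤ 2 * δ * (Y.card : ℝ) * ((Z1 i).card : ℝ) := h2
          _ = (2 * δ * ((Z1 i).card : ℝ)) * (Y.card : ℝ) := by ring
      have h4 : 0 < 2 * δ * ((Z1 i).card : ℝ) := by
        have := hZ1p i
        positivity
      exact le_of_mul_le_mul_left h3 h4
    set Y' := Y \ (Finset.univ.biUnion bad) with hY'
    have hbadU : ((Finset.univ.biUnion bad).card : ℝ) ≤ (Y.card : ℝ) / 2 := by
      have h1 : ((Finset.univ.biUnion bad).card : ℝ) ≤ ∑ i, ((bad i).card : ℝ) := by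
        exact_mod_cast Finset.card_biUnion_le
      have h2 : ∑ i, (2 ^ (h + 1) * ((bad i).card : ℝ)) ≤ ∑ i : J1, (Y.card : ℝ) :=
        Finset.sum_le_sum fun i _ => hbadc i
      rw [← Finset.mul_sum, Finset.sum_const, Finset.card_univ, hJ1, nsmul_eq_mul] at h2
      push_cast at h2
      have h3 : (2 : ℝ) ^ h * (2 * ∑ i, ((bad i).card : ℝ)) ≤ 2 ^ h * (Y.card : ℝ) := by
        rw [pow_succ] at h2
        linarith
      have h4 := le_of_mul_le_mul_left h3 (by positivity)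
      linarith
    have hY'c : (ρ / 2) * (U.card : ℝ) ≤ (Y'.card : ℝ) := by
      have h1 : (Y.card : ℝ) ≤ (Y'.card : ℝ) + ((Finset.univ.biUnion bad).card : ℝ) := by
        have := Finset.card_le_card_sdiff_add_card (t := Finset.univ.biUnion bad) (s := Y)
        exact_mod_cast this
      linarith
    have hY'p : (0 : ℝ) < (Y'.card : ℝ) := lt_of_lt_of_le (by positivity) hY'c
    have hY'ne : Y'.Nonempty := Finset.card_pos.1 (by exact_mod_cast hY'p)
    have hY'U : Y' ⊆ U := Finset.sdiff_subset.trans hY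
    obtain ⟨J2, inst2, Z2, hJ2, hZ2U, hZ2c, hZ2e⟩ := ih Y' hY'ne (by
      intro S hS hSc
      exact hno S (hS.trans hY'U) ((hstep Y' hY'c).trans hSc))
    have hcross : ∀ i j, ∑ y ∈ Z2 j, dg A c y (Z1 i) ≤
        (2 ^ (h + 2) * δ) * ((Z2 j).card : ℝ) * ((Z1 i).card : ℝ) := by
      intro i j
      have h1 : ∑ y ∈ Z2 j, dg A c y (Z1 i) ≤ ∑ y ∈ Z2 j, 2 ^ (h + 2) * δ * ((Z1 i).card : ℝ) := by
        apply Finset.sum_le_sum
        intro y hy
        have hy' := hZ2U j hy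
        rw [hY', Finset.mem_sdiff] at hy'
        by_contra hcon
        rw [not_le] at hcon
        apply hy'.2
        rw [Finset.mem_biUnion]
        exact ⟨i, Finset.mem_univ _, Finset.mem_filter.2 ⟨hy'.1, hcon⟩⟩
      rw [Finset.sum_const, nsmul_eq_mul] at h1
      linarith
    refine ⟨J1 ⊕ J2, inferInstance, Sum.elim Z1 Z2, ?_, ?_, ?_, ?_⟩
    · rw [Fintype.card_sum, hJ1, hJ2]; ring
    · rintro (i | i)
      · exact (hZ1U i).trans hX'U
      · exact (hZ2U i).trans hY'U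
    · rintro (i | i)
      · exact (hstep X' hX'c).trans (hZ1c i)
      · exact (hstep Y' hY'c).trans (hZ2c i)
    · have hup : ∀ a b : ℝ, 0 ≤ a → 0 ≤ b →
          (2 ^ (h + 1) * δ) * a * b ≤ (2 ^ (h + 1 + 1) * δ) * a * b := by
        intro a b ha hb
        have h1 : (2 : ℝ) ^ (h + 1) ≤ 2 ^ (h + 1 + 1) := pow_le_pow_right₀ (by norm_num) (by omega)
        gcongr
      rintro (i | i) (j | j) hij
      · refine (hZ1e i j (fun h' => hij (by rw [h']))).trans ?_
        exact hup _ _ (Nat.cast_nonneg _) (Nat.cast_nonneg _)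
      · simp only [Sum.elim_inl, Sum.elim_inr]
        rw [e_symm A hsymm c (Z1 i) (Z2 j)]
        refine (hcross i j).trans (le_of_eq ?_)
        ring
      · simp only [Sum.elim_inl, Sum.elim_inr]
        exact hcross j i
      · refine (hZ2e i j (fun h' => hij (by rw [h']))).trans ?_
        exact hup _ _ (Nat.cast_nonneg _) (Nat.cast_nonneg _)

/-- either a family of `2 ^ h` large sets, pairwise sparse in one colour, or a large subset
which is bidense in both colours -/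
theorem dichotomy {V : Type} [Fintype V] (A : Bool → V → V → Prop)
    (hsymm : ∀ c x y, A c x y → A c y x) (h : ℕ) (ρ δ : ℝ) (hρ0 : 0 < ρ) (hρ1 : ρ ≤ 1)
    (hδ : 0 < δ) (U : Finset V) (hU : U.Nonempty) :
    (∃ (c : Bool) (J : Type) (_ : Fintype J) (Z : J → Finset V), Fintype.card J = 2 ^ h ∧
      (∀ i, Z i ⊆ U) ∧
      (∀ i, (ρ / 2) ^ h * (ρ * (ρ / 2) ^ h / 2) ^ h * (U.card : ℝ) ≤ ((Z i).card : ℝ)) ∧
      ∀ i j, i ≠ j → ∑ x ∈ Z i, dg A c x (Z j) ≤
        (2 ^ (h + 1) * δ) * ((Z i).card : ℝ) * ((Z j).card : ℝ)) ∨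
    (∃ S ⊆ U, S.Nonempty ∧
      (ρ / 2) ^ h * (ρ * (ρ / 2) ^ h / 2) ^ h * (U.card : ℝ) ≤ (S.card : ℝ) ∧
      ∀ c, Bid A c ρ δ S) := by
  have hUc : (0 : ℝ) < (U.card : ℝ) := by exact_mod_cast hU.card_pos
  have hρ2 : 0 < ρ / 2 := by positivity
  have hρ2' : ρ / 2 ≤ 1 := by linarith
  have hpow1 : (ρ / 2) ^ h ≤ 1 := pow_le_one₀ hρ2.le hρ2'
  have hpow0 : 0 < (ρ / 2) ^ h := by positivity
  set ρ1 := ρ * (ρ / 2) ^ h with hρ1def
  have hρ1p : 0 < ρ1 := by positivity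
  have hρ1le : ρ1 ≤ 1 := by
    calc ρ1 ≤ 1 * 1 := mul_le_mul hρ1 hpow1 hpow0.le zero_le_one
      _ = 1 := one_mul 1
  have hq0 : 0 < (ρ1 / 2) ^ h := by positivity
  by_cases hA : ∀ S ⊆ U, (ρ1 / 2) ^ h * (U.card : ℝ) ≤ (S.card : ℝ) → ¬ Bid A true ρ1 δ S
  · left
    obtain ⟨J, inst, Z, h1, h2, h3, h4⟩ := dich_aux A hsymm true ρ1 δ hρ1p hρ1le hδ h U hU hA
    refine ⟨true, J, inst, Z, h1, h2, ?_, h4⟩
    intro i
    refine le_trans ?_ (h3 i)
    rw [mul_assoc]
    exact mul_le_of_le_one_left (by positivity) hpow1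
  · push Not at hA
    obtain ⟨S1, hS1U, hS1c, hS1⟩ := hA
    have hS1p : (0 : ℝ) < (S1.card : ℝ) := lt_of_lt_of_le (by positivity) hS1c
    have hS1ne : S1.Nonempty := Finset.card_pos.1 (by exact_mod_cast hS1p)
    have hsz : (ρ / 2) ^ h * (ρ1 / 2) ^ h * (U.card : ℝ) ≤ (ρ / 2) ^ h * (S1.card : ℝ) := by
      rw [mul_assoc]
      exact mul_le_mul_of_nonneg_left hS1c hpow0.le
    by_cases hB : ∀ S ⊆ S1, (ρ / 2) ^ h * (S1.card : ℝ) ≤ (S.card : ℝ) → ¬ Bid A false ρ δ S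
    · left
      obtain ⟨J, inst, Z, h1, h2, h3, h4⟩ := dich_aux A hsymm false ρ δ hρ0 hρ1 hδ h S1 hS1ne hB
      exact ⟨false, J, inst, Z, h1, fun i => (h2 i).trans hS1U, fun i => hsz.trans (h3 i), h4⟩
    · push Not at hB
      obtain ⟨S2, hS2U, hS2c, hS2⟩ := hB
      have hS2p : (0 : ℝ) < (S2.card : ℝ) := lt_of_lt_of_le (by positivity) hS2c
      have hS2ne : S2.Nonempty := Finset.card_pos.1 (by exact_mod_cast hS2p)
      right
      refine ⟨S2, hS2U.trans hS1U, hS2ne, hsz.trans hS2c, ?_⟩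
      intro c
      cases c
      · exact hS2
      · intro X hX Y hY hXc hYc
        have hcmp : ρ1 * (S1.card : ℝ) ≤ ρ * (S2.card : ℝ) := by
          rw [hρ1def, mul_assoc]
          exact mul_le_mul_of_nonneg_left hS2c hρ0.le
        exact hS1 X (hX.trans hS2U) Y (hY.trans hS2U) (hcmp.trans hXc) (hcmp.trans hYc)

end

end Pool.Agent.Helper691.RM
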