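import Mathlib
import Pool.Agent.Helper691.RM.Env

set_option autoImplicit false

namespace Pool.Agent.Helper691.RM

open Finset Real Classical

noncomputable section

/-- the direct case: every large subset carries a spread distribution on homomorphisms -/
theorem direct {V ι : Type} [Fintype V] [Fintype ι]
    (A : Bool → V → V → Prop) (H : SimpleGraph ι)
    (j K : ℕ) (hjK : j ≤ K) (β : ℝ) (B : ℕ → ℝ) (D : ℕ → ℕ) (p : ℕ → ι → ℝ) (κ : ℝ)
    (hp : ∀ l v, 0 ≤ p l v)
    (s : ℕ) (hs : 0 < s) (a b : ℝ) (hb : 0 ≤ b)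
    (hB0 : a + b ≤ B j)
    (hκ1 : (s : ℝ) * β + Real.log 4 ≤ (s : ℝ) * κ)
    (hκ2 : Real.log 2 + b ≤ (s : ℝ) * κ)
    (W : Finset V) (E : Type) [Fintype E] (ν : E → ℝ) (rel : E → V → Prop)
    (hν0 : ∀ e, 0 ≤ ν e) (hν1 : ∑ e, ν e = 1)
    (S : Finset V) (hS : S.Nonempty) (hSW : S ⊆ W)
    (hSa : Real.exp (-a) * (W.card : ℝ) ≤ (S.card : ℝ))
    (hdeg : ∀ x ∈ S, Real.exp (-β) ≤
      ∑ e ∈ Finset.univ.filter (fun e : E => rel e x), ν e)
    (hdist : ∀ U ⊆ S, 1 / 2 * Real.exp (-((s : ℝ) * β)) * (S.card : ℝ) ≤ (U.card : ℝ) →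
      ∃ c g, HomDist A H c U (Real.exp b / (S.card : ℝ)) g) :
    ∃ (c : Bool) (Ω : Type) (_ : Fintype Ω) (P : Ω → ℝ) (φ : Ω → ι → V) (e : Ω → E)
      (ℓ : Ω → ι → ℕ), Good A H W ν rel j K B D p κ c P φ e ℓ := by
  have hspos : (0 : ℝ) < (s : ℝ) := by exact_mod_cast hs
  have hSpos : (0 : ℝ) < (S.card : ℝ) := by exact_mod_cast hS.card_pos
  have hWpos : (0 : ℝ) < (W.card : ℝ) := by exact_mod_cast (hS.mono hSW).card_pos
  have hd : ∀ w : Fin s → E, ∃ (c : Bool) (g : (ι → V) → ℝ), goodw rel S β w →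
      HomDist A H c (Uw rel S w) (Real.exp b / (S.card : ℝ)) g := by
    intro w
    by_cases hg : goodw rel S β w
    · obtain ⟨c, g, h⟩ := hdist (Uw rel S w) (Finset.filter_subset _ _) hg
      exact ⟨c, g, fun _ => h⟩
    · exact ⟨true, fun _ => 0, fun h => absurd h hg⟩
  choose col G hG using hd
  -- weights of the two colours
  set Zc : Bool → ℝ := fun c =>
    ∑ w : Fin s → E, wt ν w * ind (goodw rel S β w ∧ col w = c) with hZc
  have hZsum : Zw ν rel S β s = Zc true + Zc false := by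
    simp only [hZc, Zw]
    rw [← Finset.sum_add_distrib]
    refine Finset.sum_congr rfl fun w _ => ?_
    rw [← mul_add]
    congr 1
    by_cases hg : goodw rel S β w
    · rw [ind_pos hg]
      cases hc : col w
      · rw [ind_neg (by simp), ind_pos ⟨hg, rfl⟩]; norm_num
      · rw [ind_pos ⟨hg, rfl⟩, ind_neg (by simp)]; norm_num
    · rw [ind_neg hg, ind_neg (fun h => hg h.1), ind_neg (fun h => hg h.1)]; norm_num
  have hZw := Zw_ge ν hν0 hν1 rel S hS β hdeg s
  obtain ⟨c, hc⟩ : ∃ c, 1 / 4 * Real.exp (-((s : ℝ) * β)) ≤ Zc c := by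
    by_contra hcon
    push Not at hcon
    have h1 := hcon true
    have h2 := hcon false
    linarith
  have hZpos : 0 < Zc c := lt_of_lt_of_le (by positivity) hc
  set P : (Fin s → E) → ℝ := fun w => wt ν w * ind (goodw rel S β w ∧ col w = c) / Zc c with hP
  have hP0 : ∀ w, 0 ≤ P w := fun w =>
    div_nonneg (mul_nonneg (wt_nonneg hν0 w) (ind_nonneg _)) hZpos.le
  have hP1 : ∑ w, P w = 1 := by
    simp only [hP]
    rw [← Finset.sum_div]
    exact div_self hZpos.ne'
  have hPne : ∀ w, P w ≠ 0 → goodw rel S β w ∧ col w = c := by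
    intro w hw
    by_contra hcon
    apply hw
    simp only [hP]
    rw [ind_neg hcon]
    simp
  obtain ⟨x0, hx0⟩ := hS
  have hS' : S.Nonempty := ⟨x0, hx0⟩
  refine ⟨c, ?_⟩
  refine assembly A H W ν rel hν0 hν1 j K hjK B D p κ c s hs S hS' hSW
    (Real.exp b / (S.card : ℝ)) ?_ ?_ P hP0 hP1 (fun w => w) (fun _ _ => x0) (fun _ _ => K)
    (fun _ => Finset.univ) G (fun w hw => (hG w (hPne w hw).1).nonneg)
    (fun w hw => (hG w (hPne w hw).1).sum_one) ?_ ?_ ?_ ?_ ?_ ?_ ?_ ?_
    (fun _ => (s : ℝ) * β + Real.log 4) ?_ ?_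
  · rw [div_mul_cancel₀ _ hSpos.ne']
    exact Real.one_le_exp hb
  · rw [div_le_div_iff₀ hSpos hWpos]
    have h1 : Real.exp b ≤ Real.exp (B j) * Real.exp (-a) := by
      rw [← Real.exp_add]
      exact Real.exp_le_exp.mpr (by linarith)
    have h2 := mul_le_mul_of_nonneg_right h1 hWpos.le
    have h3 := mul_le_mul_of_nonneg_left hSa (Real.exp_pos (B j)).le
    linarith
  · intro w hw ψ hψ
    refine ⟨fun v _ => ?_, fun v hv => absurd (Finset.mem_univ v) hv⟩
    exact Finset.filter_subset _ _ ((hG w (hPne w hw).1).mem ψ hψ v)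
  · intro w _ v hv
    exact absurd (Finset.mem_univ v) hv
  · intro w hw ψ hψ v I
    have h1 := (hG w (hPne w hw).1).mem ψ hψ v
    exact (Finset.mem_filter.mp h1).2 I
  · intro w hw ψ hψ u v huv
    have h1 := (hG w (hPne w hw).1).hom ψ hψ u v huv
    rw [(hPne w hw).2] at h1
    exact h1
  · intro w hw T _ τ
    exact (hG w (hPne w hw).1).cyl T τ
  · intro w v hv
    exact absurd (Finset.mem_univ v) hv
  · intro T τ lam
    by_cases hT : T = ∅
    · subst hT
      simp [hP1]
    · obtain ⟨v, hv⟩ := Finset.nonempty_iff_ne_empty.mpr hT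
      have h1 : Finset.univ.filter (fun _ : Fin s → E => ∀ v ∈ T, v ∉ (Finset.univ : Finset ι) ∧
          x0 = τ v ∧ K = lam v) = ∅ := by
        rw [Finset.filter_eq_empty_iff]
        intro w _ hw
        exact (hw v hv).1 (Finset.mem_univ v)
      rw [h1, Finset.sum_empty]
      exact Finset.prod_nonneg fun _ _ => by positivity
  · intro v l _ _
    have h1 : Finset.univ.filter (fun _ : Fin s → E => v ∉ (Finset.univ : Finset ι) ∧
        l < K) = ∅ := by
      rw [Finset.filter_eq_empty_iff]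
      intro w _ hw
      exact hw.1 (Finset.mem_univ v)
    rw [h1, Finset.sum_empty]
    exact hp l v
  · intro T
    rw [div_mul_cancel₀ _ hSpos.ne', Real.log_exp, one_div, inv_mul_le_iff₀ hspos]
    have hT0 : (0 : ℝ) ≤ (T.card : ℝ) := Nat.cast_nonneg _
    nlinarith [mul_le_mul_of_nonneg_left hκ2 hT0]
  · intro T g C hg _ hC hgC
    set x : ι → V := fun _ => x0 with hx
    -- Jensen against the constant `Y`
    set Y : ℝ := C / Zc c with hY
    have hYpos : 0 < Y := div_pos hC hZpos
    have h1 : ∀ w, P w * Real.log (g x w) ≤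
        wt ν w * g x w / C + P w * (Real.log Y - 1) := by
      intro w
      have h2 : Real.log (g x w) ≤ g x w / Y + (Real.log Y - 1) := by
        have h3 := Real.log_le_sub_one_of_pos (div_pos (hg x w) hYpos)
        rw [Real.log_div (hg _ _).ne' hYpos.ne'] at h3
        linarith
      have h4 : P w ≤ wt ν w / Zc c := by
        simp only [hP]
        refine div_le_div_of_nonneg_right ?_ hZpos.le
        have := mul_le_mul_of_nonneg_left (ind_le_one (goodw rel S β w ∧ col w = c))
          (wt_nonneg hν0 w)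
        linarith
      have h5 : P w * (g x w / Y) ≤ wt ν w * g x w / C := by
        calc P w * (g x w / Y) ≤ wt ν w / Zc c * (g x w / Y) :=
              mul_le_mul_of_nonneg_right h4 (div_pos (hg x w) hYpos).le
          _ = wt ν w * g x w / C := by
              rw [hY]; field_simp
      have h6 := mul_le_mul_of_nonneg_left h2 (hP0 w)
      linarith
    have h7 : ∑ w, P w * Real.log (g x w) ≤ 1 + (Real.log Y - 1) := by
      calc ∑ w, P w * Real.log (g x w)
          ≤ ∑ w, (wt ν w * g x w / C + P w * (Real.log Y - 1)) :=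
            Finset.sum_le_sum fun w _ => h1 w
        _ = (∑ w, wt ν w * g x w) / C + (Real.log Y - 1) := by
            rw [Finset.sum_add_distrib, ← Finset.sum_div, ← Finset.sum_mul, hP1, one_mul]
        _ ≤ 1 + (Real.log Y - 1) := by
            have := (div_le_one hC).mpr (hgC x)
            linarith
    have h8 : Real.log Y ≤ (s : ℝ) * β + Real.log 4 + Real.log C := by
      rw [hY, Real.log_div hC.ne' hZpos.ne']
      have h9 : -((s : ℝ) * β) - Real.log 4 ≤ Real.log (Zc c) := by
        rw [Real.le_log_iff_exp_le hZpos, Real.exp_sub, Real.exp_log (by norm_num : (0 : ℝ) < 4)]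
        linarith
      linarith
    linarith

end

end Pool.Agent.Helper691.RM
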