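import Mathlib
import Pool.Agent.Helper691.RM.Defs

set_option autoImplicit false

namespace Pool.Agent.Helper691.RM

open Finset Real Classical

noncomputable section

/-- cylinder count in a box -/
theorem cyl_card {V ι : Type} [Fintype V] [Fintype ι] (Z : ι → Finset V) (T : Finset ι)
    (τ : ι → V) :
    ((Fintype.piFinset Z).filter (fun ψ => ∀ v ∈ T, ψ v = τ v)).card * ∏ v ∈ T, (Z v).card ≤
      (Fintype.piFinset Z).card := by
  have h1 : ((Fintype.piFinset Z).filter (fun ψ => ∀ v ∈ T, ψ v = τ v)) ⊆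
      Fintype.piFinset (fun v => if v ∈ T then {τ v} else Z v) := by
    intro ψ hψ
    rw [Finset.mem_filter, Fintype.mem_piFinset] at hψ
    rw [Fintype.mem_piFinset]
    intro v
    split_ifs with hv
    · simp [hψ.2 v hv]
    · exact hψ.1 v
  have h2 := Finset.card_le_card h1
  rw [Fintype.card_piFinset (fun v => if v ∈ T then {τ v} else Z v)] at h2
  rw [Fintype.card_piFinset Z]
  have h3 : ∏ v ∈ T, (Z v).card = ∏ v, (if v ∈ T then (Z v).card else 1) := by
    rw [Finset.prod_ite_mem, Finset.univ_inter]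
  calc _ ≤ (∏ v, (if v ∈ T then ({τ v} : Finset V) else Z v).card) * ∏ v ∈ T, (Z v).card := by
        gcongr
    _ = ∏ v, (Z v).card := by
        rw [h3, ← Finset.prod_mul_distrib]
        apply Finset.prod_congr rfl
        intro v _
        split_ifs <;> simp

/-- the proportion of box maps with a colour `c` edge at a fixed pair of coordinates -/
theorem edge_card {V ι : Type} [Fintype V] [Fintype ι] (A : Bool → V → V → Prop) (c : Bool)
    (Z : ι → Finset V) (u v : ι) (huv : u ≠ v) (σ : ℝ) (hσ : 0 < σ)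
    (hZ : ∀ i, σ ≤ ((Z i).card : ℝ)) (η : ℝ)
    (h : ∑ x ∈ Z u, dg A c x (Z v) ≤ η * ((Z u).card : ℝ) * ((Z v).card : ℝ)) :
    (((Fintype.piFinset Z).filter (fun ψ => A c (ψ u) (ψ v))).card : ℝ) ≤
      η * ((Fintype.piFinset Z).card : ℝ) := by
  have hu : (0 : ℝ) < (Z u).card := lt_of_lt_of_le hσ (hZ u)
  have hv : (0 : ℝ) < (Z v).card := lt_of_lt_of_le hσ (hZ v)
  have h1 : ((Fintype.piFinset Z).filter (fun ψ => A c (ψ u) (ψ v))) ⊆
      (Z u).biUnion (fun x => ((Z v).filter (fun y => A c x y)).biUnion (fun y =>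
        (Fintype.piFinset Z).filter (fun ψ => ∀ w ∈ ({u, v} : Finset ι),
          ψ w = (fun w => if w = u then x else y) w))) := by
    intro ψ hψ
    rw [Finset.mem_filter] at hψ
    have hm := Fintype.mem_piFinset.mp hψ.1
    rw [Finset.mem_biUnion]
    refine ⟨ψ u, hm u, ?_⟩
    rw [Finset.mem_biUnion]
    refine ⟨ψ v, by rw [Finset.mem_filter]; exact ⟨hm v, hψ.2⟩, ?_⟩
    rw [Finset.mem_filter]
    refine ⟨hψ.1, ?_⟩
    intro w hw
    rw [Finset.mem_insert, Finset.mem_singleton] at hw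
    rcases hw with rfl | rfl
    · simp
    · simp [huv.symm]
  have h2 : ∀ x y, ((((Fintype.piFinset Z).filter (fun ψ => ∀ w ∈ ({u, v} : Finset ι),
      ψ w = (fun w => if w = u then x else y) w))).card : ℝ) ≤
      (Fintype.piFinset Z).card / ((Z u).card * (Z v).card) := by
    intro x y
    have := cyl_card Z {u, v} (fun w => if w = u then x else y)
    rw [Finset.prod_pair huv] at this
    rw [le_div_iff₀ (by positivity)]
    exact_mod_cast this
  have h3 : (((Fintype.piFinset Z).filter (fun ψ => A c (ψ u) (ψ v))).card : ℝ) ≤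
      ∑ x ∈ Z u, ∑ y ∈ (Z v).filter (fun y => A c x y),
        ((Fintype.piFinset Z).card / ((Z u).card * (Z v).card) : ℝ) := by
    have k1 := (Finset.card_le_card h1).trans Finset.card_biUnion_le
    have k2 : (((Fintype.piFinset Z).filter (fun ψ => A c (ψ u) (ψ v))).card : ℝ) ≤
      ((∑ x ∈ Z u, (((Z v).filter (fun y => A c x y)).biUnion (fun y =>
        (Fintype.piFinset Z).filter (fun ψ => ∀ w ∈ ({u, v} : Finset ι),
          ψ w = (fun w => if w = u then x else y) w))).card : ℕ) : ℝ) := by exact_mod_cast k1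
    refine k2.trans ?_
    push_cast
    apply Finset.sum_le_sum
    intro x _
    have k3 : ((((Z v).filter (fun y => A c x y)).biUnion (fun y =>
        (Fintype.piFinset Z).filter (fun ψ => ∀ w ∈ ({u, v} : Finset ι),
          ψ w = (fun w => if w = u then x else y) w))).card : ℝ) ≤
        ((∑ y ∈ (Z v).filter (fun y => A c x y),
        ((Fintype.piFinset Z).filter (fun ψ => ∀ w ∈ ({u, v} : Finset ι),
          ψ w = (fun w => if w = u then x else y) w)).card : ℕ) : ℝ) := by
      exact_mod_cast Finset.card_biUnion_le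
    refine k3.trans ?_
    push_cast
    apply Finset.sum_le_sum
    intro y _
    exact h2 x y
  refine h3.trans ?_
  simp only [Finset.sum_const, nsmul_eq_mul]
  rw [← Finset.sum_mul]
  have h4 : (∑ x ∈ Z u, (((Z v).filter (fun y => A c x y)).card : ℝ)) =
      ∑ x ∈ Z u, dg A c x (Z v) := rfl
  rw [h4]
  calc (∑ x ∈ Z u, dg A c x (Z v)) * ((Fintype.piFinset Z).card / ((Z u).card * (Z v).card) : ℝ)
      ≤ (η * ((Z u).card : ℝ) * ((Z v).card : ℝ)) *
        ((Fintype.piFinset Z).card / ((Z u).card * (Z v).card) : ℝ) := by gcongr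
    _ = η * ((Fintype.piFinset Z).card : ℝ) := by field_simp

/-- a family of sets which is pairwise sparse in colour `c` carries a spread distribution on
homomorphisms of the other colour -/
theorem nearcomplete {V ι J : Type} [Fintype V] [Fintype ι] [Fintype J]
    (A : Bool → V → V → Prop) (hsymm : ∀ c x y, A c x y → A c y x)
    (hcov : ∀ c x y, ¬ A c x y → A (!c) x y) (H : SimpleGraph ι) (c : Bool)
    (hJ : Fintype.card ι ≤ Fintype.card J) (Z : J → Finset V) (U : Finset V)
    (hZU : ∀ i, Z i ⊆ U) (σ : ℝ) (hσ : 0 < σ) (hZ : ∀ i, σ ≤ ((Z i).card : ℝ)) (η : ℝ)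
    (hZZ : ∀ i j, i ≠ j →
      ∑ x ∈ Z i, dg A c x (Z j) ≤ η * ((Z i).card : ℝ) * ((Z j).card : ℝ))
    (hη : η * (H.edgeFinset.card : ℝ) ≤ 1 / 2) :
    ∃ g, HomDist A H (!c) U (2 / σ) g := by
  obtain ⟨s, hs⟩ : ∃ s : ι → J, Function.Injective s := by
    obtain ⟨e⟩ := Function.Embedding.nonempty_of_card_le hJ
    exact ⟨e, e.injective⟩
  obtain ⟨Y, hY⟩ : ∃ Y : ι → Finset V, Y = fun v => Z (s v) := ⟨_, rfl⟩
  have hYZ : ∀ i, σ ≤ ((Y i).card : ℝ) := fun i => by rw [hY]; exact hZ (s i)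
  have hYpos : ∀ i, (0 : ℝ) < ((Y i).card : ℝ) := fun i => lt_of_lt_of_le hσ (hYZ i)
  obtain ⟨P, hP⟩ : ∃ P : Finset (ι → V), P = Fintype.piFinset Y := ⟨_, rfl⟩
  have hPc : (P.card : ℝ) = ∏ v, ((Y v).card : ℝ) := by
    rw [hP, Fintype.card_piFinset]; push_cast; rfl
  have hPpos : (0 : ℝ) < P.card := by
    rw [hPc]; exact Finset.prod_pos (fun i _ => hYpos i)
  obtain ⟨G, hG⟩ : ∃ G : Finset (ι → V),
    G = P.filter (fun ψ => ∀ u v, H.Adj u v → ¬ A c (ψ u) (ψ v)) := ⟨_, rfl⟩
  obtain ⟨Bd, hBd⟩ : ∃ Bd : Finset (ι → V),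
    Bd = P.filter (fun ψ => ¬ ∀ u v, H.Adj u v → ¬ A c (ψ u) (ψ v)) := ⟨_, rfl⟩
  have hGB : G.card + Bd.card = P.card := by
    rw [hG, hBd]; exact Finset.card_filter_add_card_filter_not _
  have hBle : (Bd.card : ℝ) ≤ P.card / 2 := by
    have k1 : Bd ⊆ H.edgeFinset.biUnion (fun e => P.filter (fun ψ =>
        ∃ u v, e = s(u, v) ∧ A c (ψ u) (ψ v))) := by
      intro ψ hψ
      rw [hBd, Finset.mem_filter] at hψ
      obtain ⟨h1, h2⟩ := hψ
      push Not at h2
      obtain ⟨u, v, huv, hA⟩ := h2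
      rw [Finset.mem_biUnion]
      refine ⟨s(u, v), by rw [SimpleGraph.mem_edgeFinset]; exact huv, ?_⟩
      rw [Finset.mem_filter]
      exact ⟨h1, u, v, rfl, hA⟩
    have k2 : (Bd.card : ℝ) ≤ ∑ e ∈ H.edgeFinset, ((P.filter (fun ψ =>
        ∃ u v, e = s(u, v) ∧ A c (ψ u) (ψ v))).card : ℝ) := by
      exact_mod_cast (Finset.card_le_card k1).trans Finset.card_biUnion_le
    have k3 : ∀ e ∈ H.edgeFinset, ((P.filter (fun ψ =>
        ∃ u v, e = s(u, v) ∧ A c (ψ u) (ψ v))).card : ℝ) ≤ η * P.card := by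
      intro e he
      induction e using Sym2.ind with
      | _ u v =>
        rw [SimpleGraph.mem_edgeFinset, SimpleGraph.mem_edgeSet] at he
        have hne : u ≠ v := he.ne
        have m1 : P.filter (fun ψ => ∃ u' v', s(u, v) = s(u', v') ∧ A c (ψ u') (ψ v')) ⊆
            P.filter (fun ψ => A c (ψ u) (ψ v)) := by
          intro ψ hψ
          rw [Finset.mem_filter] at hψ ⊢
          obtain ⟨h1, u', v', h2, h3⟩ := hψ
          refine ⟨h1, ?_⟩
          rw [Sym2.eq_iff] at h2
          rcases h2 with ⟨rfl, rfl⟩ | ⟨rfl, rfl⟩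
          · exact h3
          · exact hsymm _ _ _ h3
        have m2 := edge_card A c Y u v hne σ hσ hYZ η (by
          rw [hY]; exact hZZ (s u) (s v) (fun h => hne (hs h)))
        rw [← hP] at m2
        refine le_trans ?_ m2
        exact_mod_cast Finset.card_le_card m1
    have k4 := k2.trans (Finset.sum_le_sum k3)
    rw [Finset.sum_const, nsmul_eq_mul] at k4
    calc (Bd.card : ℝ) ≤ H.edgeFinset.card * (η * P.card) := k4
      _ = (η * (H.edgeFinset.card : ℝ)) * P.card := by ring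
      _ ≤ 1 / 2 * P.card := by gcongr
      _ = P.card / 2 := by ring
  have hGge : (P.card : ℝ) / 2 ≤ G.card := by
    have : (G.card : ℝ) + Bd.card = P.card := by exact_mod_cast hGB
    linarith
  have hGpos : (0 : ℝ) < G.card := by linarith
  have hne0 : ∀ ψ : ι → V, (if ψ ∈ G then (1 : ℝ) / G.card else 0) ≠ 0 → ψ ∈ G := by
    intro ψ h
    by_contra h2
    rw [if_neg h2] at h
    exact h rfl
  refine ⟨fun ψ => if ψ ∈ G then 1 / (G.card : ℝ) else 0, ?_, ?_, ?_, ?_, ?_⟩
  · intro ψ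
    split_ifs
    · positivity
    · exact le_rfl
  · rw [Finset.sum_ite_mem, Finset.univ_inter, Finset.sum_const, nsmul_eq_mul]
    field_simp
  · intro ψ hψ v
    have h1 := hne0 ψ hψ
    rw [hG, Finset.mem_filter, hP, Fintype.mem_piFinset] at h1
    have h2 := h1.1 v
    rw [hY] at h2
    exact hZU _ h2
  · intro ψ hψ u v huv
    have h1 := hne0 ψ hψ
    rw [hG, Finset.mem_filter] at h1
    exact hcov _ _ _ (h1.2 u v huv)
  · intro T τ
    have h1 : ∑ ψ ∈ Finset.univ.filter (fun ψ : ι → V => ∀ v ∈ T, ψ v = τ v),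
        (if ψ ∈ G then 1 / (G.card : ℝ) else 0) =
        ((G.filter (fun ψ => ∀ v ∈ T, ψ v = τ v)).card : ℝ) / G.card := by
      rw [Finset.sum_ite_mem, Finset.sum_const, nsmul_eq_mul]
      have : Finset.univ.filter (fun ψ : ι → V => ∀ v ∈ T, ψ v = τ v) ∩ G =
          G.filter (fun ψ => ∀ v ∈ T, ψ v = τ v) := by
        ext ψ; simp [and_comm]
      rw [this]
      ring
    rw [h1]
    rcases T.eq_empty_or_nonempty with rfl | hT
    · simp
      rw [div_self hGpos.ne']
    · have h2 : ((G.filter (fun ψ => ∀ v ∈ T, ψ v = τ v)).card : ℝ) * σ ^ T.card ≤ P.card := by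
        have k1 := cyl_card Y T τ
        rw [← hP] at k1
        have k2 : ((P.filter (fun ψ => ∀ v ∈ T, ψ v = τ v)).card : ℝ) *
            ∏ v ∈ T, ((Y v).card : ℝ) ≤ P.card := by exact_mod_cast k1
        have k3 : σ ^ T.card ≤ ∏ v ∈ T, ((Y v).card : ℝ) := by
          rw [← Finset.prod_const]
          exact Finset.prod_le_prod (fun _ _ => hσ.le) (fun i _ => hYZ i)
        have k4 : ((G.filter (fun ψ => ∀ v ∈ T, ψ v = τ v)).card : ℝ) ≤
            ((P.filter (fun ψ => ∀ v ∈ T, ψ v = τ v)).card : ℝ) := by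
          have : G ⊆ P := by rw [hG]; exact Finset.filter_subset _ _
          exact_mod_cast Finset.card_le_card (Finset.filter_subset_filter _ this)
        calc _ ≤ ((P.filter (fun ψ => ∀ v ∈ T, ψ v = τ v)).card : ℝ) *
            ∏ v ∈ T, ((Y v).card : ℝ) := by gcongr
          _ ≤ _ := k2
      have h3 : (2 : ℝ) ≤ 2 ^ T.card := by
        calc (2 : ℝ) = 2 ^ 1 := by norm_num
          _ ≤ 2 ^ T.card := pow_le_pow_right₀ (by norm_num) (Finset.card_pos.mpr hT)
      rw [div_pow, div_le_div_iff₀ hGpos (by positivity)]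
      calc _ ≤ (P.card : ℝ) := h2
        _ ≤ 2 * G.card := by linarith
        _ ≤ 2 ^ T.card * G.card := by gcongr

end

end Pool.Agent.Helper691.RM
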