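import Mathlib

set_option autoImplicit false

namespace Pool.Agent.Helper691.RM

open Finset Real Classical

noncomputable section

/-- density exponent of the environment at level `j` -/
def bet (M : ℕ) (δ : ℝ) (j : ℕ) : ℝ := (j : ℝ) * (2 * Real.log (1 / δ) + 3) * (M : ℝ) ^ j

/-- candidate density at level `j` -/
def tht (M : ℕ) (δ : ℝ) (j : ℕ) : ℝ :=
  1 / 2 * Real.exp (-((M : ℝ) * bet M δ j)) * Real.exp (-((M : ℝ) ^ (j + 1))) *
    δ ^ (M ^ (j + 1))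

/-- bidensity threshold at level `j` -/
def rho (n M : ℕ) (δ : ℝ) (j : ℕ) : ℝ := tht M δ j / (2 * (n : ℝ))

/-- relative size lost in the dichotomy at level `j` -/
def sig (h n M : ℕ) (δ : ℝ) (j : ℕ) : ℝ :=
  (rho n M δ j / 2) ^ h * (rho n M δ j * (rho n M δ j / 2) ^ h / 2) ^ h

/-- size of the dichotomy loss -/
def ell (n K : ℕ) (δ : ℝ) : ℝ :=
  Real.log (8 * (n : ℝ)) + ((K : ℝ) + 1) * (2 * Real.log (1 / δ) + 3)

theorem log2_le : Real.log 2 ≤ 1 := by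
  have := Real.log_two_lt_d9
  linarith

theorem log4_le : Real.log 4 ≤ 2 := by
  have h : (4 : ℝ) = 2 ^ 2 := by norm_num
  rw [h, Real.log_pow]
  push_cast
  linarith [log2_le]

theorem log8_le : Real.log 8 ≤ 3 := by
  have h : (8 : ℝ) = 2 ^ 3 := by norm_num
  rw [h, Real.log_pow]
  push_cast
  linarith [log2_le]

theorem tht_pos (M : ℕ) (δ : ℝ) (hδ0 : 0 < δ) (j : ℕ) : 0 < tht M δ j := by
  unfold tht; positivity

theorem bet_nonneg (M : ℕ) (δ : ℝ) (hδ0 : 0 < δ) (hδ1 : δ ≤ 1) (j : ℕ) : 0 ≤ bet M δ j := by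
  have h1 : 0 ≤ Real.log (1 / δ) := Real.log_nonneg (by rw [one_le_div hδ0]; exact hδ1)
  unfold bet; positivity

theorem tht_le (M : ℕ) (δ : ℝ) (hδ0 : 0 < δ) (hδ1 : δ ≤ 1) (j : ℕ) : tht M δ j ≤ 1 / 2 := by
  unfold tht
  have h1 : Real.exp (-((M : ℝ) * bet M δ j)) ≤ 1 := by
    rw [Real.exp_le_one_iff]
    have := bet_nonneg M δ hδ0 hδ1 j
    have h2 : 0 ≤ (M : ℝ) * bet M δ j := by positivity
    linarith
  have h2 : Real.exp (-((M : ℝ) ^ (j + 1))) ≤ 1 := by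
    rw [Real.exp_le_one_iff]
    have : (0 : ℝ) ≤ (M : ℝ) ^ (j + 1) := by positivity
    linarith
  have h3 : δ ^ (M ^ (j + 1)) ≤ 1 := pow_le_one₀ hδ0.le hδ1
  have h4 : 0 < Real.exp (-((M : ℝ) * bet M δ j)) := Real.exp_pos _
  have h5 : 0 < Real.exp (-((M : ℝ) ^ (j + 1))) := Real.exp_pos _
  have h6 : 0 < δ ^ (M ^ (j + 1)) := pow_pos hδ0 _
  have h7 : Real.exp (-((M : ℝ) * bet M δ j)) * Real.exp (-((M : ℝ) ^ (j + 1))) ≤ 1 :=
    mul_le_one₀ h1 h5.le h2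
  have h8 : Real.exp (-((M : ℝ) * bet M δ j)) * Real.exp (-((M : ℝ) ^ (j + 1))) *
      δ ^ (M ^ (j + 1)) ≤ 1 := mul_le_one₀ h7 h6.le h3
  linarith

theorem log_tht (M : ℕ) (δ : ℝ) (hδ0 : 0 < δ) (j : ℕ) :
    Real.log (2 / tht M δ j) = Real.log 4 +
      ((j : ℝ) * (2 * Real.log (1 / δ) + 3) + 1 + Real.log (1 / δ)) * (M : ℝ) ^ (j + 1) := by
  have h1 : Real.log (2 / tht M δ j) = Real.log 2 - Real.log (tht M δ j) :=
    Real.log_div (by norm_num) (tht_pos M δ hδ0 j).ne'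
  have h2 : Real.log (tht M δ j) = Real.log (1 / 2) + (-((M : ℝ) * bet M δ j)) +
      (-((M : ℝ) ^ (j + 1))) + (M : ℝ) ^ (j + 1) * Real.log δ := by
    unfold tht
    rw [Real.log_mul (by positivity) (by positivity), Real.log_mul (by positivity)
      (by positivity), Real.log_mul (by norm_num) (by positivity), Real.log_exp, Real.log_exp,
      Real.log_pow]
    push_cast
    ring
  have h3 : Real.log (1 / 2 : ℝ) = - Real.log 2 := by
    rw [one_div, Real.log_inv]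
  have h4 : Real.log 4 = 2 * Real.log 2 := by
    have h : (4 : ℝ) = 2 ^ 2 := by norm_num
    rw [h, Real.log_pow]; push_cast; ring
  have h5 : Real.log (1 / δ) = - Real.log δ := by
    rw [one_div, Real.log_inv]
  rw [h1, h2, h3, h4]
  unfold bet
  rw [h5]
  ring

theorem rho_pos (n M : ℕ) (hn : 1 ≤ n) (δ : ℝ) (hδ0 : 0 < δ) (j : ℕ) : 0 < rho n M δ j := by
  have h1 := tht_pos M δ hδ0 j
  have h2 : (0 : ℝ) < (n : ℝ) := by exact_mod_cast hn
  unfold rho; positivity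

theorem rho_le_tht (n M : ℕ) (hn : 1 ≤ n) (δ : ℝ) (hδ0 : 0 < δ) (j : ℕ) :
    2 * (n : ℝ) * rho n M δ j ≤ tht M δ j := by
  have h2 : (0 : ℝ) < (n : ℝ) := by exact_mod_cast hn
  unfold rho
  rw [mul_div_cancel₀ _ (by positivity)]

theorem rho_le (n M : ℕ) (hn : 1 ≤ n) (δ : ℝ) (hδ0 : 0 < δ) (j : ℕ) :
    2 * rho n M δ j ≤ tht M δ j := by
  have h1 := rho_le_tht n M hn δ hδ0 j
  have h2 : (1 : ℝ) ≤ (n : ℝ) := by exact_mod_cast hn
  have h3 := rho_pos n M hn δ hδ0 j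
  nlinarith

theorem eight_rho (n M : ℕ) (hn : 1 ≤ n) (hM : 1 ≤ M) (δ : ℝ) (hδ0 : 0 < δ) (hδ1 : δ ≤ 1)
    (j : ℕ) : 8 * rho n M δ j ≤ Real.exp (-((M : ℝ) * bet M δ j)) := by
  have h1 := rho_le n M hn δ hδ0 j
  have h3 : δ ^ (M ^ (j + 1)) ≤ 1 := pow_le_one₀ hδ0.le hδ1
  have h4 : 0 < Real.exp (-((M : ℝ) * bet M δ j)) := Real.exp_pos _
  have h5 : 0 < Real.exp (-((M : ℝ) ^ (j + 1))) := Real.exp_pos _
  have h6 : 0 < δ ^ (M ^ (j + 1)) := pow_pos hδ0 _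
  have h7 : Real.exp (-((M : ℝ) ^ (j + 1))) ≤ 1 / 2 := by
    have hx : (1 : ℝ) ≤ (M : ℝ) ^ (j + 1) := one_le_pow₀ (by exact_mod_cast hM)
    have h8 : Real.exp (-((M : ℝ) ^ (j + 1))) ≤ Real.exp (-1) :=
      Real.exp_le_exp.mpr (by linarith)
    have h9 := Real.exp_neg_one_lt_d9
    linarith
  have h10 : Real.exp (-((M : ℝ) ^ (j + 1))) * δ ^ (M ^ (j + 1)) ≤ 1 / 2 := by
    calc Real.exp (-((M : ℝ) ^ (j + 1))) * δ ^ (M ^ (j + 1)) ≤ 1 / 2 * 1 :=
          mul_le_mul h7 h3 h6.le (by norm_num)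
      _ = 1 / 2 := by norm_num
  have h11 : tht M δ j ≤ 1 / 4 * Real.exp (-((M : ℝ) * bet M δ j)) := by
    unfold tht
    have := mul_le_mul_of_nonneg_left h10 h4.le
    nlinarith
  linarith

theorem sig_pos (h n M : ℕ) (hn : 1 ≤ n) (δ : ℝ) (hδ0 : 0 < δ) (j : ℕ) :
    0 < sig h n M δ j := by
  have := rho_pos n M hn δ hδ0 j
  unfold sig; positivity

theorem log_sig (h n M : ℕ) (hn : 1 ≤ n) (δ : ℝ) (hδ0 : 0 < δ) (j : ℕ) :
    Real.log (1 / sig h n M δ j) =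
      ((h : ℝ) ^ 2 + 2 * h) * (Real.log (2 * (n : ℝ)) + Real.log (2 / tht M δ j)) := by
  have hr := rho_pos n M hn δ hδ0 j
  have ht := tht_pos M δ hδ0 j
  have hn' : (0 : ℝ) < (n : ℝ) := by exact_mod_cast hn
  have h1 : Real.log (2 * (n : ℝ)) + Real.log (2 / tht M δ j) = - Real.log (rho n M δ j / 2) := by
    rw [← Real.log_mul (by positivity) (by positivity), ← Real.log_inv]
    congr 1
    unfold rho
    field_simp
  have h2 : rho n M δ j * (rho n M δ j / 2) ^ h / 2 =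
      (rho n M δ j / 2) * (rho n M δ j / 2) ^ h := by ring
  rw [h1, one_div, Real.log_inv]
  unfold sig
  rw [h2, Real.log_mul (by positivity) (by positivity), Real.log_pow, Real.log_pow,
    Real.log_mul (by positivity) (by positivity), Real.log_pow]
  ring

theorem ell_ge (n K : ℕ) (hn : 1 ≤ n) (δ : ℝ) (hδ0 : 0 < δ) (hδ1 : δ ≤ 1) : 3 ≤ ell n K δ := by
  have h1 : 0 ≤ Real.log (1 / δ) := Real.log_nonneg (by rw [one_le_div hδ0]; exact hδ1)
  have h2 : (1 : ℝ) ≤ (n : ℝ) := by exact_mod_cast hn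
  have h3 : 0 ≤ Real.log (8 * (n : ℝ)) := Real.log_nonneg (by linarith)
  have h4 : (0 : ℝ) ≤ (K : ℝ) := Nat.cast_nonneg _
  unfold ell
  nlinarith

/-- all numerical facts about the parameters at level `j` -/
theorem param (h n M K j : ℕ) (hn : 1 ≤ n) (hM : 1 ≤ M) (hj : j ≤ K) (δ : ℝ) (hδ0 : 0 < δ)
    (hδ1 : δ ≤ 1) (L : ℝ) (hL : ((h : ℝ) + 1) ^ 2 * ell n K δ ≤ L) :
    Real.log (2 / tht M δ j) ≤ (L - 1) * (M : ℝ) ^ (j + 1) ∧
    Real.log (1 / sig h n M δ j) + (M : ℝ) * bet M δ j + Real.log 2 ≤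
      L * (M : ℝ) ^ (j + 1) ∧
    Real.log 4 + (M : ℝ) * bet M δ j + Real.log (1 / sig h n M δ j) ≤
      L * (M : ℝ) ^ (j + 1) ∧
    (M : ℝ) * bet M δ j + Real.log 4 ≤ L * (M : ℝ) ^ (j + 1) ∧
    0 ≤ Real.log (1 / sig h n M δ j) ∧
    (j < K → bet M δ (j + 1) ≤ L * (M : ℝ) ^ (j + 1)) ∧
    (M : ℝ) * bet M δ j + 2 * (M : ℝ) ^ (j + 1) * Real.log (1 / δ) + Real.log 8 ≤
      bet M δ (j + 1) := by
  have hla : 0 ≤ Real.log (1 / δ) := Real.log_nonneg (by rw [one_le_div hδ0]; exact hδ1)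
  set la := Real.log (1 / δ) with hla_def
  set x : ℝ := (M : ℝ) ^ (j + 1) with hx_def
  have hx : (1 : ℝ) ≤ x := one_le_pow₀ (by exact_mod_cast hM)
  have hMb : (M : ℝ) * bet M δ j = (j : ℝ) * (2 * la + 3) * x := by
    rw [hx_def]; unfold bet; ring
  have hb1 : bet M δ (j + 1) = ((j : ℝ) + 1) * (2 * la + 3) * x := by
    rw [hx_def]; unfold bet; push_cast; ring
  have hjK : (j : ℝ) ≤ (K : ℝ) := by exact_mod_cast hj
  have hj0 : (0 : ℝ) ≤ (j : ℝ) := Nat.cast_nonneg _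
  have hn1 : (1 : ℝ) ≤ (n : ℝ) := by exact_mod_cast hn
  have hl2 := log2_le
  have hl4 := log4_le
  have hl8 := log8_le
  have hl2' : 0 ≤ Real.log 2 := Real.log_nonneg (by norm_num)
  have hl4' : 0 ≤ Real.log 4 := Real.log_nonneg (by norm_num)
  have hl8n : 0 ≤ Real.log (8 * (n : ℝ)) := Real.log_nonneg (by linarith)
  have hell : (j : ℝ) * (2 * la + 3) * x + 3 * x + 2 * la * x + Real.log (8 * (n : ℝ)) * x ≤
      ell n K δ * x := by
    unfold ell
    rw [← hla_def]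
    have h1 : (j : ℝ) * (2 * la + 3) ≤ (K : ℝ) * (2 * la + 3) :=
      mul_le_mul_of_nonneg_right hjK (by linarith)
    have h2 : (j : ℝ) * (2 * la + 3) + 3 + 2 * la + Real.log (8 * (n : ℝ)) ≤
        Real.log (8 * (n : ℝ)) + ((K : ℝ) + 1) * (2 * la + 3) := by linarith
    have h3 := mul_le_mul_of_nonneg_right h2 (by linarith : (0 : ℝ) ≤ x)
    linarith
  have hell3 := ell_ge n K hn δ hδ0 hδ1
  have hxl : Real.log (8 * (n : ℝ)) ≤ Real.log (8 * (n : ℝ)) * x := by nlinarith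
  have hjx : 0 ≤ (j : ℝ) * (2 * la + 3) * x := by positivity
  have hlax : 0 ≤ la * x := by positivity
  have hth : Real.log (2 / tht M δ j) = Real.log 4 + ((j : ℝ) * (2 * la + 3) + 1 + la) * x :=
    log_tht M δ hδ0 j
  have hth' : Real.log (2 * (n : ℝ)) + Real.log (2 / tht M δ j) ≤ ell n K δ * x := by
    have h1 : Real.log (2 * (n : ℝ)) + Real.log 4 = Real.log (8 * (n : ℝ)) := by
      rw [← Real.log_mul (by positivity) (by norm_num)]
      congr 1; ring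
    rw [hth]
    have h2 : ((j : ℝ) * (2 * la + 3) + 1 + la) * x =
        (j : ℝ) * (2 * la + 3) * x + x + la * x := by ring
    linarith
  have hth0 : 0 ≤ Real.log (2 * (n : ℝ)) + Real.log (2 / tht M δ j) := by
    have h1 : 0 ≤ Real.log (2 * (n : ℝ)) := Real.log_nonneg (by linarith)
    have h2 : 0 ≤ ((j : ℝ) * (2 * la + 3) + 1 + la) * x := by positivity
    rw [hth]; linarith
  have hh0 : (0 : ℝ) ≤ (h : ℝ) := Nat.cast_nonneg _
  have hsig := log_sig h n M hn δ hδ0 j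
  have hsig0 : 0 ≤ Real.log (1 / sig h n M δ j) := by
    rw [hsig]; positivity
  have hsig1 : Real.log (1 / sig h n M δ j) ≤ ((h : ℝ) ^ 2 + 2 * h) * (ell n K δ * x) := by
    rw [hsig]
    exact mul_le_mul_of_nonneg_left hth' (by positivity)
  have hLx : ((h : ℝ) ^ 2 + 2 * h) * (ell n K δ * x) + ell n K δ * x ≤ L * x := by
    have := mul_le_mul_of_nonneg_right hL (by linarith : (0 : ℝ) ≤ x)
    nlinarith
  have hex : 0 ≤ ell n K δ * x := by positivity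
  have hhex : 0 ≤ ((h : ℝ) ^ 2 + 2 * h) * (ell n K δ * x) := by positivity
  refine ⟨?_, ?_, ?_, ?_, hsig0, ?_, ?_⟩
  · rw [hth]
    have h2 : ((j : ℝ) * (2 * la + 3) + 1 + la) * x =
        (j : ℝ) * (2 * la + 3) * x + x + la * x := by ring
    have h3 : Real.log 8 ≤ Real.log (8 * (n : ℝ)) :=
      Real.log_le_log (by norm_num) (by linarith)
    have h4 : Real.log 8 = 3 * Real.log 2 := by
      have h : (8 : ℝ) = 2 ^ 3 := by norm_num
      rw [h, Real.log_pow]; push_cast; ring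
    have h5 : Real.log 4 = 2 * Real.log 2 := by
      have h : (4 : ℝ) = 2 ^ 2 := by norm_num
      rw [h, Real.log_pow]; push_cast; ring
    rw [h2, sub_mul, one_mul]
    linarith
  · rw [hMb]; linarith
  · rw [hMb]; linarith
  · rw [hMb]; linarith
  · intro _
    rw [hb1]
    have : ((j : ℝ) + 1) * (2 * la + 3) * x =
        (j : ℝ) * (2 * la + 3) * x + 3 * x + 2 * la * x := by ring
    rw [this]
    have h1 : 0 ≤ Real.log (8 * (n : ℝ)) * x := by positivity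
    linarith
  · rw [hMb, hb1]
    have : ((j : ℝ) + 1) * (2 * la + 3) * x =
        (j : ℝ) * (2 * la + 3) * x + 3 * x + 2 * la * x := by ring
    rw [this]
    nlinarith

end

end Pool.Agent.Helper691.RM
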