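import Mathlib
import Pool.Agent.Helper691.RM.Defs

set_option autoImplicit false

namespace Pool.Agent.Helper691.RM

open Finset Real Classical

noncomputable section

set_option maxHeartbeats 4000000 in
/-- random greedy embedding into a bidense set -/
theorem greedy {V ι : Type} [Fintype V] [Fintype ι] (A : Bool → V → V → Prop)
    (hsymm : ∀ c x y, A c x y → A c y x) (H : SimpleGraph ι) (c : Bool) (ρ δ θ : ℝ)
    (S : Finset V) (hS : S.Nonempty) (hB : Bid A c ρ δ S) (hρ : 0 < ρ) (hδ0 : 0 < δ)
    (hδ1 : δ ≤ 1) (hθ : ρ ≤ θ) (hn : 2 * (Fintype.card ι : ℝ) * ρ ≤ θ)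
    (R : Finset ι) (C : ι → Finset V) (ψ0 : ι → V) (hCS : ∀ v ∈ R, C v ⊆ S)
    (hC : ∀ v ∈ R, θ * (S.card : ℝ) ≤
      ((C v).card : ℝ) * δ ^ (R.filter (fun u => H.Adj v u)).card) :
    ∃ g : (ι → V) → ℝ, (∀ ψ, 0 ≤ g ψ) ∧ ∑ ψ, g ψ = 1 ∧
      (∀ ψ, g ψ ≠ 0 → (∀ v ∈ R, ψ v ∈ C v) ∧ (∀ v, v ∉ R → ψ v = ψ0 v) ∧
        (∀ u ∈ R, ∀ v ∈ R, H.Adj u v → A c (ψ u) (ψ v))) ∧
      (∀ T ⊆ R, ∀ τ : ι → V,
        ∑ ψ ∈ Finset.univ.filter (fun ψ : ι → V => ∀ v ∈ T, ψ v = τ v), g ψ ≤
          (2 / (θ * (S.card : ℝ))) ^ T.card) := by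
  have hs : 0 < (S.card : ℝ) := by exact_mod_cast hS.card_pos
  have hθ0 : 0 < θ := lt_of_lt_of_le hρ hθ
  have hθs : 0 < θ * (S.card : ℝ) := by positivity
  set kap := 2 / (θ * (S.card : ℝ)) with hkap
  have hkap0 : 0 ≤ kap := by positivity
  induction R using Finset.induction_on generalizing C ψ0 with
  | empty =>
    refine ⟨fun ψ => if ψ = ψ0 then 1 else 0, ?_, ?_, ?_, ?_⟩
    · intro ψ
      dsimp only
      split_ifs <;> norm_num
    · simp
    · intro ψ hψ
      have : ψ = ψ0 := by
        by_contra h
        simp [h] at hψ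
      subst this
      simp
    · intro T hT τ
      have hT0 : T = ∅ := Finset.subset_empty.1 hT
      subst hT0
      simp
  | insert u R' hu ih =>
    have hCu : θ * (S.card : ℝ) ≤ ((C u).card : ℝ) := by
      refine (hC u (Finset.mem_insert_self u R')).trans ?_
      have : δ ^ ((insert u R').filter (fun w => H.Adj u w)).card ≤ 1 := pow_le_one₀ hδ0.le hδ1
      have h0 : (0 : ℝ) ≤ ((C u).card : ℝ) := by positivity
      nlinarith
    let bad : ι → Finset V := fun v => (C u).filter
      (fun x => (((C v).filter (fun y => A c x y)).card : ℝ) < δ * ((C v).card : ℝ))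
    have hbad : ∀ v ∈ R', ((bad v).card : ℝ) ≤ ρ * (S.card : ℝ) := by
      intro v hv
      by_contra hcon
      push Not at hcon
      have hCv : θ * (S.card : ℝ) ≤ ((C v).card : ℝ) := by
        refine (hC v (Finset.mem_insert_of_mem hv)).trans ?_
        have : δ ^ ((insert u R').filter (fun w => H.Adj v w)).card ≤ 1 := pow_le_one₀ hδ0.le hδ1
        have h0 : (0 : ℝ) ≤ ((C v).card : ℝ) := by positivity
        nlinarith
      have h1 : ρ * (S.card : ℝ) ≤ ((C v).card : ℝ) :=
        (mul_le_mul_of_nonneg_right hθ hs.le).trans hCv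
      have h2 := hB (bad v) ((Finset.filter_subset _ _).trans (hCS u (Finset.mem_insert_self u R')))
        (C v) (hCS v (Finset.mem_insert_of_mem hv)) hcon.le h1
      have hne : (bad v).Nonempty := by
        rw [← Finset.card_pos]
        have : 0 < ρ * (S.card : ℝ) := by positivity
        have h3 : (0 : ℝ) < ((bad v).card : ℝ) := this.trans hcon
        exact_mod_cast h3
      have h3 : ∑ x ∈ bad v, dg A c x (C v) < ∑ x ∈ bad v, δ * ((C v).card : ℝ) := by
        apply Finset.sum_lt_sum_of_nonempty hne
        intro x hx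
        exact (Finset.mem_filter.1 hx).2
      rw [Finset.sum_const, nsmul_eq_mul] at h3
      nlinarith
    let G : Finset V := (C u).filter (fun x => ∀ v ∈ R', H.Adj u v → x ∉ bad v)
    have hGC : G ⊆ C u := Finset.filter_subset _ _
    have hGcard : θ * (S.card : ℝ) / 2 ≤ (G.card : ℝ) := by
      have hsub : C u ⊆ G ∪ (R'.biUnion bad) := by
        intro x hx
        rw [Finset.mem_union]
        by_cases h : ∀ v ∈ R', H.Adj u v → x ∉ bad v
        · left; exact Finset.mem_filter.2 ⟨hx, h⟩
        · right
          push Not at h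
          obtain ⟨v, hv, _, hxv⟩ := h
          exact Finset.mem_biUnion.2 ⟨v, hv, hxv⟩
      have h1 : (C u).card ≤ G.card + (R'.biUnion bad).card :=
        (Finset.card_le_card hsub).trans (Finset.card_union_le _ _)
      have h2 : ((R'.biUnion bad).card : ℝ) ≤ ∑ v ∈ R', ((bad v).card : ℝ) := by
        rw [← Nat.cast_sum]
        exact Nat.cast_le.2 Finset.card_biUnion_le
      have h3 : ∑ v ∈ R', ((bad v).card : ℝ) ≤ (Fintype.card ι : ℝ) * (ρ * (S.card : ℝ)) := by
        refine (Finset.sum_le_sum hbad).trans ?_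
        rw [Finset.sum_const, nsmul_eq_mul]
        apply mul_le_mul_of_nonneg_right _ (by positivity)
        exact_mod_cast Finset.card_le_univ R'
      have h4 : ((C u).card : ℝ) ≤ (G.card : ℝ) + ((R'.biUnion bad).card : ℝ) := by
        exact_mod_cast h1
      nlinarith
    have hG0 : 0 < (G.card : ℝ) := lt_of_lt_of_le (by positivity) hGcard
    have hGkap : (G.card : ℝ)⁻¹ ≤ kap := by
      rw [hkap, inv_eq_one_div, div_le_div_iff₀ hG0 hθs]
      linarith
    let C' : V → ι → Finset V := fun x v => if H.Adj u v then (C v).filter (fun y => A c x y) else C v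
    have hC'sub : ∀ x v, C' x v ⊆ C v := by
      intro x v
      simp only [C']
      split_ifs
      · exact Finset.filter_subset _ _
      · exact subset_rfl
    have key : ∀ x, x ∈ G → ∃ g : (ι → V) → ℝ, (∀ ψ, 0 ≤ g ψ) ∧ ∑ ψ, g ψ = 1 ∧
      (∀ ψ, g ψ ≠ 0 → (∀ v ∈ R', ψ v ∈ C' x v) ∧ (∀ v, v ∉ R' → ψ v = Function.update ψ0 u x v) ∧
        (∀ u ∈ R', ∀ v ∈ R', H.Adj u v → A c (ψ u) (ψ v))) ∧
      (∀ T ⊆ R', ∀ τ : ι → V,
        ∑ ψ ∈ Finset.univ.filter (fun ψ : ι → V => ∀ v ∈ T, ψ v = τ v), g ψ ≤ kap ^ T.card) := by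
      intro x hx
      have hx' := Finset.mem_filter.1 hx
      apply ih (C' x) (Function.update ψ0 u x)
      · intro v hv
        exact (hC'sub x v).trans (hCS v (Finset.mem_insert_of_mem hv))
      · intro v hv
        have h1 := hC v (Finset.mem_insert_of_mem hv)
        by_cases huv : H.Adj u v
        · have h2 : ((insert u R').filter (fun w => H.Adj v w)).card =
              (R'.filter (fun w => H.Adj v w)).card + 1 := by
            rw [Finset.filter_insert, if_pos huv.symm, Finset.card_insert_of_notMem]
            intro h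
            exact hu (Finset.mem_filter.1 h).1
          rw [h2, pow_succ] at h1
          have h3 : δ * ((C v).card : ℝ) ≤ ((C' x v).card : ℝ) := by
            have h4 := hx'.2 v hv huv
            simp only [bad, Finset.mem_filter, not_and, not_lt] at h4
            have h5 := h4 hx'.1
            simp only [C', if_pos huv]
            exact h5
          have h4 : 0 ≤ δ ^ (R'.filter (fun w => H.Adj v w)).card := by positivity
          calc θ * (S.card : ℝ) ≤ _ := h1
            _ = (δ * ((C v).card : ℝ)) * δ ^ (R'.filter (fun w => H.Adj v w)).card := by ring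
            _ ≤ _ := mul_le_mul_of_nonneg_right h3 h4
        · have h2 : (insert u R').filter (fun w => H.Adj v w) = R'.filter (fun w => H.Adj v w) := by
            rw [Finset.filter_insert, if_neg (fun h => huv h.symm)]
          rw [h2] at h1
          simp only [C', if_neg huv]
          exact h1
    choose! g g1 g2 g3 g4 using key
    have hsum1 : ∑ _x ∈ G, (G.card : ℝ)⁻¹ = 1 := by
      rw [Finset.sum_const, nsmul_eq_mul, mul_inv_cancel₀ hG0.ne']
    refine ⟨fun ψ => ∑ x ∈ G, (G.card : ℝ)⁻¹ * g x ψ, ?_, ?_, ?_, ?_⟩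
    · intro ψ
      apply Finset.sum_nonneg
      intro x hx
      have := g1 x hx ψ
      positivity
    · rw [Finset.sum_comm]
      calc ∑ x ∈ G, ∑ ψ, (G.card : ℝ)⁻¹ * g x ψ = ∑ x ∈ G, (G.card : ℝ)⁻¹ := by
            apply Finset.sum_congr rfl
            intro x hx
            rw [← Finset.mul_sum, g2 x hx, mul_one]
        _ = 1 := hsum1
    · intro ψ hψ
      obtain ⟨x, hx, hne⟩ := Finset.exists_ne_zero_of_sum_ne_zero hψ
      have hgne : g x ψ ≠ 0 := right_ne_zero_of_mul hne
      obtain ⟨a1, a2, a3⟩ := g3 x hx ψ hgne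
      have hψu : ψ u = x := by
        rw [a2 u hu, Function.update_self]
      refine ⟨?_, ?_, ?_⟩
      · intro v hv
        rcases Finset.mem_insert.1 hv with h | h
        · rw [h, hψu]; exact hGC hx
        · exact hC'sub x v (a1 v h)
      · intro v hv
        rw [Finset.mem_insert, not_or] at hv
        rw [a2 v hv.2, Function.update_of_ne hv.1]
      · intro w hw v hv hadj
        rcases Finset.mem_insert.1 hw with h | h
        · rcases Finset.mem_insert.1 hv with h' | h'
          · rw [h, h'] at hadj
            exact absurd hadj (H.loopless.irrefl u)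
          · rw [h] at hadj ⊢
            have h5 := a1 v h'
            simp only [C', if_pos hadj, Finset.mem_filter] at h5
            rw [hψu]
            exact h5.2
        · rcases Finset.mem_insert.1 hv with h' | h'
          · rw [h'] at hadj ⊢
            have h5 := a1 w h
            simp only [C', if_pos hadj.symm, Finset.mem_filter] at h5
            rw [hψu]
            exact hsymm _ _ _ h5.2
          · exact a3 w h v h' hadj
    · intro T hT τ
      rw [Finset.sum_comm]
      have e0 : ∀ x ∈ G, ∑ ψ ∈ Finset.univ.filter (fun ψ : ι → V => ∀ v ∈ T, ψ v = τ v),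
          (G.card : ℝ)⁻¹ * g x ψ = (G.card : ℝ)⁻¹ *
          ∑ ψ ∈ Finset.univ.filter (fun ψ : ι → V => ∀ v ∈ T, ψ v = τ v), g x ψ :=
        fun x _ => (Finset.mul_sum _ _ _).symm
      rw [Finset.sum_congr rfl e0]
      by_cases huT : u ∈ T
      · have hTe : T.erase u ⊆ R' := by
          intro v hv
          rw [Finset.mem_erase] at hv
          exact (Finset.mem_insert.1 (hT hv.2)).resolve_left hv.1
        have hcard : T.card = (T.erase u).card + 1 := (Finset.card_erase_add_one huT).symm
        have hx : ∀ x ∈ G, (G.card : ℝ)⁻¹ *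
            ∑ ψ ∈ Finset.univ.filter (fun ψ : ι → V => ∀ v ∈ T, ψ v = τ v), g x ψ ≤
            if x = τ u then (G.card : ℝ)⁻¹ * kap ^ (T.erase u).card else 0 := by
          intro x hx
          split_ifs with h
          · apply mul_le_mul_of_nonneg_left _ (by positivity)
            refine le_trans ?_ (g4 x hx (T.erase u) hTe τ)
            apply Finset.sum_le_sum_of_subset_of_nonneg
            · intro ψ hψ
              rw [Finset.mem_filter] at hψ ⊢
              exact ⟨hψ.1, fun v hv => hψ.2 v (Finset.mem_of_mem_erase hv)⟩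
            · intro ψ _ _
              exact g1 x hx ψ
          · have : ∑ ψ ∈ Finset.univ.filter (fun ψ : ι → V => ∀ v ∈ T, ψ v = τ v), g x ψ = 0 := by
              apply Finset.sum_eq_zero
              intro ψ hψ
              by_contra hne
              have h1 := (g3 x hx ψ hne).2.1 u hu
              rw [Function.update_self] at h1
              have h2 := (Finset.mem_filter.1 hψ).2 u huT
              exact h (h1.symm.trans h2)
            rw [this, mul_zero]
        refine (Finset.sum_le_sum hx).trans ?_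
        rw [Finset.sum_ite_eq']
        split_ifs
        · rw [hcard, pow_succ, mul_comm]
          exact mul_le_mul_of_nonneg_left hGkap (by positivity)
        · positivity
      · have hTR : T ⊆ R' := by
          intro v hv
          rcases Finset.mem_insert.1 (hT hv) with h | h
          · exact absurd (h ▸ hv) huT
          · exact h
        calc ∑ x ∈ G, (G.card : ℝ)⁻¹ *
            ∑ ψ ∈ Finset.univ.filter (fun ψ : ι → V => ∀ v ∈ T, ψ v = τ v), g x ψ ≤
            ∑ x ∈ G, (G.card : ℝ)⁻¹ * kap ^ T.card := by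
              apply Finset.sum_le_sum
              intro x hx
              exact mul_le_mul_of_nonneg_left (g4 x hx T hTR τ) (inv_nonneg.2 hG0.le)
          _ = kap ^ T.card := by rw [← Finset.sum_mul, hsum1, one_mul]

end

end Pool.Agent.Helper691.RM
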