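import Mathlib
import Pool.Agent.Helper691.RM.BadProb
import Pool.Agent.Helper691.RM.Greedy

set_option autoImplicit false

namespace Pool.Agent.Helper691.RM

open Finset Real Classical

noncomputable section

/-- the vertices that are re-embedded -/
def Rset {V ι E : Type} [Fintype V] [Fintype ι] (A : Bool → V → V → Prop) (H : SimpleGraph ι)
    (c : Bool) (rel : E → V → Prop) (S : Finset V) {s : ℕ} (Dj : ℕ) (r : ℝ) (x : ι → V)
    (w : Fin s → E) : Finset ι :=
  Finset.univ.filter (fun v => H.degree v < Dj ∧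
    Real.exp (-r) * ((Uw rel S w).card : ℝ) ≤ ((Av A H c rel S v x w).card : ℝ))

/-- one step of the downward induction -/
theorem step {V ι : Type} [Fintype V] [Fintype ι] [Nonempty ι]
    (A : Bool → V → V → Prop) (hsymm : ∀ c x y, A c x y → A c y x) (H : SimpleGraph ι)
    (j K : ℕ) (hjK : j < K) (β β' : ℝ) (B B' : ℕ → ℝ) (D : ℕ → ℕ) (p : ℕ → ι → ℝ) (κ κ' : ℝ)
    (hQ : Q A H (j + 1) K β' B' D p κ')
    (s t : ℕ) (hs : 0 < s) (ht : 0 < t) (r : ℝ) (hr : 0 < r) (ρ δ θ a : ℝ)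
    (hρ : 0 < ρ) (hδ0 : 0 < δ) (hδ1 : δ ≤ 1) (hρθ : ρ ≤ θ)
    (hnρ : 2 * (Fintype.card ι : ℝ) * ρ ≤ θ)
    (hθ : θ ≤ 1 / 2 * Real.exp (-((s : ℝ) * β)) * Real.exp (-r) * δ ^ D (j + 1))
    (h8 : 8 * ρ ≤ Real.exp (-((s : ℝ) * β)))
    (hβ' : (s : ℝ) * β + 2 * (t : ℝ) * Real.log (1 / δ) + Real.log 8 ≤ β')
    (hB0 : a + Real.log (2 / θ) ≤ B j)
    (hB1 : ∀ l, j < l → l ≤ K → B' l + a + β' ≤ B l)
    (hp : ∀ v, H.degree v < D (j + 1) →
      (κ' * (1 + (H.degree v : ℝ)) + Real.log 2) / ((t : ℝ) * r) ≤ p j v)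
    (hκ1 : κ' + (s : ℝ) * β + Real.log 2 ≤ (s : ℝ) * κ)
    (hκ2 : κ' + Real.log 2 + Real.log (2 / θ) ≤ (s : ℝ) * κ)
    (hθ2 : θ ≤ 2)
    (W : Finset V) (E : Type) [Fintype E] (ν : E → ℝ) (rel : E → V → Prop)
    (hν0 : ∀ e, 0 ≤ ν e) (hν1 : ∑ e, ν e = 1)
    (S : Finset V) (hS : S.Nonempty) (hSW : S ⊆ W)
    (hSa : Real.exp (-a) * (W.card : ℝ) ≤ (S.card : ℝ))
    (hdeg : ∀ x ∈ S, Real.exp (-β) ≤
      ∑ e ∈ Finset.univ.filter (fun e : E => rel e x), ν e)
    (hBid : ∀ c, Bid A c ρ δ S) :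
    ∃ (c : Bool) (Ω : Type) (_ : Fintype Ω) (P : Ω → ℝ) (φ : Ω → ι → V) (e : Ω → E)
      (ℓ : Ω → ι → ℕ), Good A H W ν rel j K B D p κ c P φ e ℓ := by
  have hθ0 : 0 < θ := lt_of_lt_of_le hρ hρθ
  have hspos : (0 : ℝ) < (s : ℝ) := by exact_mod_cast hs
  have htpos : (0 : ℝ) < (t : ℝ) := by exact_mod_cast ht
  have hSpos : (0 : ℝ) < (S.card : ℝ) := by exact_mod_cast hS.card_pos
  have hWpos : (0 : ℝ) < (W.card : ℝ) := by exact_mod_cast (hS.mono hSW).card_pos
  -- the new vertex set and the new environment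
  set W' : Finset V := S.filter (fun x => Real.exp (-β') ≤
      ∑ e ∈ Finset.univ.filter (fun e : (Fin s → E) × (Bool × Fin t → V) =>
        relE A rel S β e x), nuE ν rel S β e) with hW'
  have hW'c : Real.exp (-β') * (S.card : ℝ) ≤ (W'.card : ℝ) :=
    Wp_card A hsymm ν hν0 hν1 rel S hS β hdeg s t ρ δ hρ hδ0 hBid h8 β' hβ'
  have hW'pos : (0 : ℝ) < (W'.card : ℝ) := lt_of_lt_of_le (by positivity) hW'c
  have hW'ne : W'.Nonempty := by
    rw [← Finset.card_pos]; exact_mod_cast hW'pos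
  have hW'S : W' ⊆ S := Finset.filter_subset _ _
  obtain ⟨c, Ω, instΩ, P, φ, e, ℓ, hG⟩ := hQ W' hW'ne ((Fin s → E) × (Bool × Fin t → V))
    (nuE ν rel S β) (relE A rel S β) (fun e => nuE_nonneg ν hν0 rel S β e)
    (nuE_sum_one ν hν0 hν1 rel S hS β hdeg s t)
    (fun x hx => (Finset.mem_filter.mp hx).2)
  refine ⟨c, ?_⟩
  set w : Ω → Fin s → E := fun ω => (e ω).1 with hw
  set R : Ω → Finset ι := fun ω => Rset A H c rel S (D (j + 1)) r (φ ω) (w ω) with hR
  have hmemR : ∀ ω v, v ∈ R ω ↔ H.degree v < D (j + 1) ∧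
      Real.exp (-r) * ((Uw rel S (w ω)).card : ℝ) ≤
        ((Av A H c rel S v (φ ω) (w ω)).card : ℝ) := by
    intro ω v
    simp [hR, Rset]
  set C : Ω → ι → Finset V := fun ω v => (Uw rel S (w ω)).filter
    (fun y => ∀ u, u ∉ R ω → H.Adj v u → A c (φ ω u) y) with hC
  have hmemC : ∀ ω v y, y ∈ C ω v ↔ y ∈ Uw rel S (w ω) ∧
      ∀ u, u ∉ R ω → H.Adj v u → A c (φ ω u) y := by
    intro ω v y
    simp [hC]
  have hAC : ∀ ω v, Av A H c rel S v (φ ω) (w ω) ⊆ C ω v := by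
    intro ω v y hy
    rw [mem_Av] at hy
    rw [hmemC]
    exact ⟨hy.1, fun u _ hu => hy.2 u hu⟩
  have hUS : ∀ w : Fin s → E, Uw rel S w ⊆ S := fun w => Finset.filter_subset _ _
  have hgood : ∀ ω, P ω ≠ 0 → goodw rel S β (w ω) := by
    intro ω hω
    obtain ⟨v0⟩ := (inferInstance : Nonempty ι)
    exact (hG.adj ω hω v0).1
  -- greedy embedding for each outcome
  have hgr : ∀ ω, ∃ g : (ι → V) → ℝ, P ω ≠ 0 → ((∀ ψ, 0 ≤ g ψ) ∧ ∑ ψ, g ψ = 1 ∧
      (∀ ψ, g ψ ≠ 0 → (∀ v ∈ R ω, ψ v ∈ C ω v) ∧ (∀ v, v ∉ R ω → ψ v = φ ω v) ∧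
        (∀ u ∈ R ω, ∀ v ∈ R ω, H.Adj u v → A c (ψ u) (ψ v))) ∧
      (∀ T ⊆ R ω, ∀ τ : ι → V,
        ∑ ψ ∈ Finset.univ.filter (fun ψ : ι → V => ∀ v ∈ T, ψ v = τ v), g ψ ≤
          (2 / (θ * (S.card : ℝ))) ^ T.card)) := by
    intro ω
    by_cases hω : P ω = 0
    · exact ⟨fun _ => 0, fun h => absurd hω h⟩
    · obtain ⟨g, hg⟩ := greedy A hsymm H c ρ δ θ S hS (hBid c) hρ hδ0 hδ1 hρθ hnρ (R ω) (C ω)
        (φ ω) (fun v _ => (Finset.filter_subset _ _).trans (hUS _)) (by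
          intro v hv
          obtain ⟨hv1, hv2⟩ := (hmemR ω v).mp hv
          have h1 : ((Av A H c rel S v (φ ω) (w ω)).card : ℝ) ≤ ((C ω v).card : ℝ) := by
            exact_mod_cast Finset.card_le_card (hAC ω v)
          have h2 : 1 / 2 * Real.exp (-((s : ℝ) * β)) * (S.card : ℝ) ≤
              ((Uw rel S (w ω)).card : ℝ) := hgood ω hω
          have h3 : Real.exp (-r) * (1 / 2 * Real.exp (-((s : ℝ) * β)) * (S.card : ℝ)) ≤
              ((C ω v).card : ℝ) :=
            (mul_le_mul_of_nonneg_left h2 (Real.exp_pos _).le).trans (hv2.trans h1)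
          have h4 : δ ^ D (j + 1) ≤ δ ^ ((R ω).filter (fun u => H.Adj v u)).card := by
            refine pow_le_pow_of_le_one hδ0.le hδ1 ?_
            refine le_trans ?_ hv1.le
            rw [← SimpleGraph.card_neighborFinset_eq_degree]
            refine Finset.card_le_card fun u hu => ?_
            rw [SimpleGraph.mem_neighborFinset]
            exact (Finset.mem_filter.mp hu).2
          have h5 : 0 < δ ^ D (j + 1) := pow_pos hδ0 _
          have h6 : 0 ≤ Real.exp (-r) *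
              (1 / 2 * Real.exp (-((s : ℝ) * β)) * (S.card : ℝ)) := by positivity
          calc θ * (S.card : ℝ) ≤
              (1 / 2 * Real.exp (-((s : ℝ) * β)) * Real.exp (-r) * δ ^ D (j + 1)) *
                (S.card : ℝ) := mul_le_mul_of_nonneg_right hθ hSpos.le
            _ = (Real.exp (-r) * (1 / 2 * Real.exp (-((s : ℝ) * β)) * (S.card : ℝ))) *
                δ ^ D (j + 1) := by ring
            _ ≤ _ := mul_le_mul h3 h4 h5.le (le_trans h6 h3))
      exact ⟨g, fun _ => hg⟩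
  choose G hGprop using hgr
  have hlogθ : 0 ≤ Real.log (2 / θ) := Real.log_nonneg (by rw [one_le_div hθ0]; exact hθ2)
  refine assembly A H W ν rel hν0 hν1 j K hjK.le B D p κ c s hs S hS hSW
    (2 / (θ * (S.card : ℝ))) ?_ ?_ P hG.nonneg hG.sum_one w φ ℓ R G
    (fun ω hω => (hGprop ω hω).1) (fun ω hω => (hGprop ω hω).2.1) ?_ ?_ ?_ ?_
    (fun ω hω => (hGprop ω hω).2.2.2) ?_ ?_ ?_
    (fun T => κ' * (1 + (T.card : ℝ)) + (s : ℝ) * β + Real.log 2) ?_ ?_
  · -- 1 ≤ kap * |S|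
    rw [div_mul_eq_mul_div, le_div_iff₀ (by positivity), one_mul]
    exact mul_le_mul_of_nonneg_right hθ2 hSpos.le
  · -- kap ≤ exp (B j) / |W|
    rw [div_le_div_iff₀ (by positivity) hWpos]
    have h1 : 2 / θ ≤ Real.exp (B j - a) := by
      rw [← Real.log_le_iff_le_exp (by positivity)]
      linarith
    have h2 : Real.exp (B j - a) = Real.exp (B j) * Real.exp (-a) := by
      rw [← Real.exp_add]; congr 1
    rw [h2, div_le_iff₀ hθ0] at h1
    have h3 := mul_le_mul_of_nonneg_left hSa (mul_pos (Real.exp_pos (B j)) hθ0).le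
    have h4 := mul_le_mul_of_nonneg_right h1 hWpos.le
    linarith
  · -- support
    intro ω hω ψ hψ
    obtain ⟨h1, h2, -⟩ := (hGprop ω hω).2.2.1 ψ hψ
    refine ⟨fun v hv => ?_, h2⟩
    exact hUS _ ((hmemC ω v _).mp (h1 v hv)).1
  · -- images of the remaining vertices
    intro ω hω v _
    exact hSW (hW'S (hG.mem ω hω v))
  · -- adjacency with the environment
    intro ω hω ψ hψ v I
    obtain ⟨h1, h2, -⟩ := (hGprop ω hω).2.2.1 ψ hψ
    by_cases hv : v ∈ R ω
    · have h3 := ((hmemC ω v _).mp (h1 v hv)).1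
      exact (Finset.mem_filter.mp h3).2 I
    · rw [h2 v hv]
      exact (hG.adj ω hω v).2.1 I
  · -- homomorphism
    intro ω hω ψ hψ u v huv
    obtain ⟨h1, h2, h3⟩ := (hGprop ω hω).2.2.1 ψ hψ
    by_cases hu : u ∈ R ω
    · by_cases hv : v ∈ R ω
      · exact h3 u hu v hv huv
      · rw [h2 v hv]
        exact hsymm _ _ _ (((hmemC ω u _).mp (h1 u hu)).2 v hv huv)
    · by_cases hv : v ∈ R ω
      · rw [h2 u hu]
        exact ((hmemC ω v _).mp (h1 v hv)).2 u hu huv.symm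
      · rw [h2 u hu, h2 v hv]
        exact hG.hom ω hω u v huv
  · -- levels
    intro ω v _
    have := hG.lev ω v
    omega
  · -- densities
    intro T τ lam
    by_cases hT : ∀ v ∈ T, j < lam v ∧ lam v ≤ K
    · have h1 : ∑ ω ∈ Finset.univ.filter
          (fun ω : Ω => ∀ v ∈ T, v ∉ R ω ∧ φ ω v = τ v ∧ ℓ ω v = lam v), P ω ≤
          ∑ ω ∈ Finset.univ.filter
          (fun ω : Ω => ∀ v ∈ T, φ ω v = τ v ∧ ℓ ω v = lam v), P ω := by
        refine Finset.sum_le_sum_of_subset_of_nonneg ?_ fun ω _ _ => hG.nonneg ω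
        intro ω hω
        rw [Finset.mem_filter] at hω ⊢
        exact ⟨hω.1, fun v hv => (hω.2 v hv).2⟩
      refine h1.trans ((hG.dens T τ lam).trans ?_)
      refine Finset.prod_le_prod (fun _ _ => by positivity) fun v hv => ?_
      obtain ⟨hv1, hv2⟩ := hT v hv
      rw [div_le_div_iff₀ hW'pos hWpos]
      have h2 := hB1 (lam v) hv1 hv2
      have h3 : Real.exp (B' (lam v)) ≤ Real.exp (B (lam v)) * Real.exp (-a) *
          Real.exp (-β') := by
        rw [← Real.exp_add, ← Real.exp_add]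
        exact Real.exp_le_exp.mpr (by linarith)
      calc Real.exp (B' (lam v)) * (W.card : ℝ)
          ≤ Real.exp (B (lam v)) * Real.exp (-a) * Real.exp (-β') * (W.card : ℝ) :=
            mul_le_mul_of_nonneg_right h3 hWpos.le
        _ = Real.exp (B (lam v)) * Real.exp (-β') * (Real.exp (-a) * (W.card : ℝ)) := by ring
        _ ≤ Real.exp (B (lam v)) * Real.exp (-β') * (S.card : ℝ) :=
            mul_le_mul_of_nonneg_left hSa (by positivity)
        _ = Real.exp (B (lam v)) * (Real.exp (-β') * (S.card : ℝ)) := by ring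
        _ ≤ Real.exp (B (lam v)) * (W'.card : ℝ) :=
            mul_le_mul_of_nonneg_left hW'c (Real.exp_pos _).le
    · have h1 : Finset.univ.filter
          (fun ω : Ω => ∀ v ∈ T, v ∉ R ω ∧ φ ω v = τ v ∧ ℓ ω v = lam v) = ∅ := by
        rw [Finset.filter_eq_empty_iff]
        intro ω _ hω
        apply hT
        intro v hv
        have h2 := hG.lev ω v
        have h3 := (hω v hv).2.2
        omega
      rw [h1, Finset.sum_empty]
      exact Finset.prod_nonneg fun _ _ => by positivity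
  · -- level probabilities
    intro v l hjl hdv
    rcases Nat.eq_or_lt_of_le hjl with hjl' | hjl'
    · subst hjl'
      have h1 := badprob A hsymm H ν hν0 hν1 rel S hS β hdeg s t ht W' (j + 1) K B' D p κ' c
        P φ e ℓ hG r hr v
      refine le_trans ?_ (h1.trans (hp v hdv))
      refine Finset.sum_le_sum_of_subset_of_nonneg ?_ fun ω _ _ => hG.nonneg ω
      intro ω hω
      rw [Finset.mem_filter] at hω ⊢
      refine ⟨hω.1, fun hcon => hω.2.1 ?_⟩
      exact (hmemR ω v).mpr ⟨hdv, hcon⟩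
    · refine le_trans ?_ (hG.level v l hjl' hdv)
      refine Finset.sum_le_sum_of_subset_of_nonneg ?_ fun ω _ _ => hG.nonneg ω
      intro ω hω
      rw [Finset.mem_filter] at hω ⊢
      exact ⟨hω.1, hω.2.2⟩
  · -- the entropy constant
    intro T
    have h1 : Real.log (2 / (θ * (S.card : ℝ)) * (S.card : ℝ)) = Real.log (2 / θ) := by
      congr 1
      field_simp
    rw [h1, one_div, inv_mul_le_iff₀ hspos]
    have hT0 : (0 : ℝ) ≤ (T.card : ℝ) := Nat.cast_nonneg _
    nlinarith [mul_le_mul_of_nonneg_left hκ2 hT0]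
  · -- the entropy inequality
    intro T g C' hg hgd hC' hgC
    have h1 := hG.ent T (fun x e => g x e.1) (fun x e => hg x e.1)
      (fun x y e hxy => hgd x y e.1 hxy)
    have h2 : ∀ ω, P ω * Real.log
        (∑ e' : (Fin s → E) × (Bool × Fin t → V), nuE ν rel S β e' * g (φ ω) e'.1) ≤
        P ω * ((s : ℝ) * β + Real.log 2 + Real.log C') := by
      intro ω
      refine mul_le_mul_of_nonneg_left ?_ (hG.nonneg ω)
      have h3 := nuE_ref ν hν0 hν1 rel S hS β hdeg s t (g (φ ω)) (fun w' => (hg _ w').le)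
      have h4 : ∑ e' : (Fin s → E) × (Bool × Fin t → V), nuE ν rel S β e' * g (φ ω) e'.1 ≤
          2 * Real.exp ((s : ℝ) * β) * C' :=
        h3.trans (mul_le_mul_of_nonneg_left (hgC _) (by positivity))
      have h5 : 0 < ∑ e' : (Fin s → E) × (Bool × Fin t → V),
          nuE ν rel S β e' * g (φ ω) e'.1 := by
        obtain ⟨e', he'⟩ : ∃ e' : (Fin s → E) × (Bool × Fin t → V), nuE ν rel S β e' ≠ 0 := by
          by_contra hcon
          push Not at hcon
          have := nuE_sum_one ν hν0 hν1 rel S hS β hdeg s t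
          simp [hcon] at this
        refine Finset.sum_pos' (fun e' _ => mul_nonneg (nuE_nonneg ν hν0 rel S β e')
          (hg _ _).le) ⟨e', Finset.mem_univ _, ?_⟩
        exact mul_pos (lt_of_le_of_ne (nuE_nonneg ν hν0 rel S β e') (Ne.symm he')) (hg _ _)
      refine (Real.log_le_log h5 h4).trans ?_
      rw [Real.log_mul (by positivity) hC'.ne', Real.log_mul (by norm_num) (Real.exp_pos _).ne',
        Real.log_exp]
      linarith
    have h3 : ∑ ω, P ω * Real.log
        (∑ e' : (Fin s → E) × (Bool × Fin t → V), nuE ν rel S β e' * g (φ ω) e'.1) ≤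
        (s : ℝ) * β + Real.log 2 + Real.log C' := by
      refine (Finset.sum_le_sum fun ω _ => h2 ω).trans ?_
      rw [← Finset.sum_mul, hG.sum_one, one_mul]
    linarith

end

end Pool.Agent.Helper691.RM
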