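import Mathlib
import Pool.Agent.Helper691.RM.Step
import Pool.Agent.Helper691.RM.Direct
import Pool.Agent.Helper691.RM.Near
import Pool.Agent.Helper691.RM.Dich
import Pool.Agent.Helper691.RM.Param

set_option autoImplicit false

namespace Pool.Agent.Helper691.RM

open Finset Real Classical

noncomputable section

theorem HomDist.mono {V ι : Type} [Fintype V] [Fintype ι] {A : Bool → V → V → Prop}
    {H : SimpleGraph ι} {c : Bool} {U : Finset V} {k1 k2 : ℝ} {g : (ι → V) → ℝ}
    (h : HomDist A H c U k1 g) (h0 : 0 ≤ k1) (h12 : k1 ≤ k2) : HomDist A H c U k2 g :=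
  ⟨h.nonneg, h.sum_one, h.mem, h.hom, fun T τ => (h.cyl T τ).trans (pow_le_pow_left₀ h0 h12 _)⟩

/-- density exponents -/
def Bp (L : ℝ) (M j l : ℕ) : ℝ := 2 * L * ((l : ℝ) + 1 - j) * (M : ℝ) ^ (l + 1)

/-- entropy constants -/
def kp (L : ℝ) (M K j : ℕ) : ℝ := 2 * L * ((K : ℝ) + 1 - j) * (M : ℝ) ^ j

/-- level probabilities -/
def pp {ι : Type} [Fintype ι] (H : SimpleGraph ι) (L : ℝ) (M K : ℕ) (l : ℕ) (v : ι) : ℝ :=
  2 * L * ((K : ℝ) + 1) * (1 + (H.degree v : ℝ)) / (M : ℝ) ^ (l + 1)

theorem levelQ {V ι : Type} [Fintype V] [Fintype ι] [Nonempty ι]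
    (A : Bool → V → V → Prop) (hsymm : ∀ c x y, A c x y → A c y x)
    (hcov : ∀ c x y, ¬ A c x y → A (!c) x y) (H : SimpleGraph ι)
    (M K h : ℕ) (hM : 1 ≤ M) (hh : Fintype.card ι ≤ 2 ^ h) (δ : ℝ) (hδ0 : 0 < δ) (hδ1 : δ ≤ 1)
    (hη : (2 ^ (h + 1) * δ) * (H.edgeFinset.card : ℝ) ≤ 1 / 2)
    (hdK : ∀ v, H.degree v < M ^ (K + 1)) (L : ℝ)
    (hL : ((h : ℝ) + 1) ^ 2 * ell (Fintype.card ι) K δ ≤ L) (j : ℕ) (hjK : j ≤ K)
    (hnext : j < K → Q A H (j + 1) K (bet M δ (j + 1)) (Bp L M (j + 1)) (fun i => M ^ i)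
      (pp H L M K) (kp L M K (j + 1))) :
    Q A H j K (bet M δ j) (Bp L M j) (fun i => M ^ i) (pp H L M K) (kp L M K j) := by
  intro W hW E _ ν rel hν0 hν1 hdeg
  have hn1 : 1 ≤ Fintype.card ι := Fintype.card_pos
  set n := Fintype.card ι with hn
  obtain ⟨f1, f2, f3, f4, f5, f6, f7⟩ := param h n M K j hn1 hM hjK δ hδ0 hδ1 L hL
  have hth0 := tht_pos M δ hδ0 j
  have hth1 := tht_le M δ hδ0 hδ1 j
  have hr0 := rho_pos n M hn1 δ hδ0 j
  have hr1 := rho_le n M hn1 δ hδ0 j
  have hr2 := rho_le_tht n M hn1 δ hδ0 j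
  have hr3 := eight_rho n M hn1 hM δ hδ0 hδ1 j
  have hs0 := sig_pos h n M hn1 δ hδ0 j
  have hb0 := bet_nonneg M δ hδ0 hδ1 j
  have hMpos : (0 : ℝ) < (M : ℝ) := by exact_mod_cast hM
  set x : ℝ := (M : ℝ) ^ (j + 1) with hx_def
  have hx : (1 : ℝ) ≤ x := one_le_pow₀ (by exact_mod_cast hM)
  have hell3 := ell_ge n K hn1 δ hδ0 hδ1
  have hL3 : 3 ≤ L := by
    have : (1 : ℝ) ≤ ((h : ℝ) + 1) ^ 2 := one_le_pow₀ (by
      have : (0 : ℝ) ≤ (h : ℝ) := Nat.cast_nonneg _
      linarith)
    nlinarith
  have hLx : 3 ≤ L * x := by nlinarith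
  have hWpos : (0 : ℝ) < (W.card : ℝ) := by exact_mod_cast hW.card_pos
  have hjK' : (j : ℝ) ≤ (K : ℝ) := by exact_mod_cast hjK
  have hBj : Bp L M j j = 2 * (L * x) := by
    unfold Bp; rw [← hx_def]; ring
  have hkj : (M : ℝ) * kp L M K j = 2 * ((K : ℝ) + 1 - j) * (L * x) := by
    rw [hx_def]; unfold kp; ring
  have hkj' : 2 * (L * x) ≤ (M : ℝ) * kp L M K j := by
    rw [hkj]
    have : (1 : ℝ) ≤ (K : ℝ) + 1 - j := by linarith
    nlinarith
  have hpp : ∀ l v, 0 ≤ pp H L M K l v := by
    intro l v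
    unfold pp; positivity
  have hl2 := log2_le
  have hl4 := log4_le
  by_cases hall : ∀ U ⊆ W, 1 / 2 * Real.exp (-((M : ℝ) * bet M δ j)) * (W.card : ℝ) ≤
      (U.card : ℝ) → ∃ c g, HomDist A H c U
        (Real.exp (Real.log 4 + (M : ℝ) * bet M δ j + Real.log (1 / sig h n M δ j)) /
          (W.card : ℝ)) g
  · -- every large subset carries a distribution
    refine direct A H j K hjK (bet M δ j) (Bp L M j) (fun i => M ^ i) (pp H L M K)
      (kp L M K j) hpp M (by omega) 0
      (Real.log 4 + (M : ℝ) * bet M δ j + Real.log (1 / sig h n M δ j)) ?_ ?_ ?_ ?_ W E ν rel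
      hν0 hν1 W hW (Finset.Subset.refl _) ?_ hdeg hall
    · have : 0 ≤ Real.log 4 := Real.log_nonneg (by norm_num)
      positivity
    · rw [hBj]; linarith
    · linarith
    · linarith
    · simp
  · push Not at hall
    obtain ⟨U, hUW, hUc, hUno⟩ := hall
    have hUpos : (0 : ℝ) < (U.card : ℝ) := lt_of_lt_of_le (by positivity) hUc
    have hUne : U.Nonempty := by
      rw [← Finset.card_pos]; exact_mod_cast hUpos
    have hdich := dichotomy A hsymm h (rho n M δ j) δ hr0 (by linarith) hδ0 U hUne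
    -- the first alternative is impossible
    have hno : ¬ ∃ (c : Bool) (J : Type) (_ : Fintype J) (Z : J → Finset V),
        Fintype.card J = 2 ^ h ∧ (∀ i, Z i ⊆ U) ∧
        (∀ i, (rho n M δ j / 2) ^ h * (rho n M δ j * (rho n M δ j / 2) ^ h / 2) ^ h *
          (U.card : ℝ) ≤ ((Z i).card : ℝ)) ∧
        ∀ i j, i ≠ j → ∑ x ∈ Z i, dg A c x (Z j) ≤
          (2 ^ (h + 1) * δ) * ((Z i).card : ℝ) * ((Z j).card : ℝ) := by
      rintro ⟨c, J, instJ, Z, hJ, hZU, hZc, hZZ⟩
      have hsU : 0 < sig h n M δ j * (U.card : ℝ) := by positivity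
      obtain ⟨g, hg⟩ := nearcomplete A hsymm hcov H c (by rw [hJ]; exact hh) Z U hZU
        (sig h n M δ j * (U.card : ℝ)) hsU hZc (2 ^ (h + 1) * δ) hZZ hη
      refine hUno (!c) g (hg.mono (by positivity) ?_)
      rw [div_le_div_iff₀ hsU hWpos]
      have h1 : Real.exp (Real.log 4 + (M : ℝ) * bet M δ j +
          Real.log (1 / sig h n M δ j)) = 4 * Real.exp ((M : ℝ) * bet M δ j) *
            (1 / sig h n M δ j) := by
        rw [Real.exp_add, Real.exp_add, Real.exp_log (by norm_num : (0 : ℝ) < 4),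
          Real.exp_log (by positivity)]
      rw [h1]
      have h2 : 4 * Real.exp ((M : ℝ) * bet M δ j) * (1 / sig h n M δ j) *
          (sig h n M δ j * (U.card : ℝ)) =
          4 * Real.exp ((M : ℝ) * bet M δ j) * (U.card : ℝ) := by
        field_simp
      rw [h2]
      have h3 : Real.exp ((M : ℝ) * bet M δ j) * Real.exp (-((M : ℝ) * bet M δ j)) = 1 := by
        rw [← Real.exp_add]; simp
      have h4 := mul_le_mul_of_nonneg_left hUc
        (by positivity : (0 : ℝ) ≤ 4 * Real.exp ((M : ℝ) * bet M δ j))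
      calc 2 * (W.card : ℝ) = 2 * (Real.exp ((M : ℝ) * bet M δ j) *
            Real.exp (-((M : ℝ) * bet M δ j))) * (W.card : ℝ) := by rw [h3]; ring
        _ = 4 * Real.exp ((M : ℝ) * bet M δ j) *
            (1 / 2 * Real.exp (-((M : ℝ) * bet M δ j)) * (W.card : ℝ)) := by ring
        _ ≤ _ := h4
    rcases hdich with h1 | ⟨S, hSU, hSne, hSc, hSB⟩
    · exact absurd h1 hno
    · have hSc' : sig h n M δ j * (U.card : ℝ) ≤ (S.card : ℝ) := hSc
      have hSW : S ⊆ W := hSU.trans hUW
      have hSpos : (0 : ℝ) < (S.card : ℝ) := by exact_mod_cast hSne.card_pos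
      have hSa : Real.exp (-(Real.log (1 / sig h n M δ j) + (M : ℝ) * bet M δ j +
          Real.log 2)) * (W.card : ℝ) ≤ (S.card : ℝ) := by
        have h1 : Real.exp (-(Real.log (1 / sig h n M δ j) + (M : ℝ) * bet M δ j +
          Real.log 2)) = sig h n M δ j * (1 / 2 * Real.exp (-((M : ℝ) * bet M δ j))) := by
          rw [neg_add, neg_add, Real.exp_add, Real.exp_add, Real.exp_neg (Real.log 2),
            Real.exp_log (by norm_num : (0 : ℝ) < 2), one_div, Real.log_inv, neg_neg,
            Real.exp_log hs0]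
          ring
        rw [h1]
        have h2 := mul_le_mul_of_nonneg_left hUc hs0.le
        linarith
      have hdegS : ∀ y ∈ S, Real.exp (-bet M δ j) ≤
          ∑ e ∈ Finset.univ.filter (fun e : E => rel e y), ν e := fun y hy => hdeg y (hSW hy)
      rcases Nat.eq_or_lt_of_le hjK with hjK1 | hjK1
      · -- bottom level
        refine direct A H j K hjK (bet M δ j) (Bp L M j) (fun i => M ^ i) (pp H L M K)
          (kp L M K j) hpp M (by omega)
          (Real.log (1 / sig h n M δ j) + (M : ℝ) * bet M δ j + Real.log 2)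
          (Real.log (2 / tht M δ j)) ?_ ?_ ?_ ?_ W E ν rel
          hν0 hν1 S hSne hSW hSa hdegS ?_
        · exact Real.log_nonneg (by rw [one_le_div hth0]; linarith)
        · rw [hBj]; linarith
        · linarith
        · linarith
        · intro U' hU'S hU'c
          obtain ⟨v0⟩ := (inferInstance : Nonempty ι)
          have hU'pos : (0 : ℝ) < (U'.card : ℝ) := lt_of_lt_of_le (by positivity) hU'c
          obtain ⟨y0, hy0⟩ : U'.Nonempty := by
            rw [← Finset.card_pos]; exact_mod_cast hU'pos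
          obtain ⟨g, hg0, hg1, hg2, hg3⟩ := greedy A hsymm H true (rho n M δ j) δ (tht M δ j) S
            hSne (hSB true) hr0 hδ0 hδ1 (by linarith) hr2 Finset.univ (fun _ => U')
            (fun _ => y0) (fun _ _ => hU'S) (by
              intro v _
              have h4 : δ ^ M ^ (j + 1) ≤
                  δ ^ (Finset.univ.filter (fun u => H.Adj v u)).card := by
                refine pow_le_pow_of_le_one hδ0.le hδ1 ?_
                have h5 := hdK v
                rw [← hjK1] at h5
                refine le_trans ?_ h5.le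
                rw [← SimpleGraph.card_neighborFinset_eq_degree]
                refine Finset.card_le_card fun u hu => ?_
                rw [SimpleGraph.mem_neighborFinset]
                exact (Finset.mem_filter.mp hu).2
              have h5 : 0 < δ ^ M ^ (j + 1) := pow_pos hδ0 _
              have h6 : Real.exp (-((M : ℝ) ^ (j + 1))) ≤ 1 := by
                rw [Real.exp_le_one_iff]; linarith
              have h7 : tht M δ j ≤ 1 / 2 * Real.exp (-((M : ℝ) * bet M δ j)) *
                  δ ^ M ^ (j + 1) := by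
                unfold tht
                refine mul_le_mul_of_nonneg_right ?_ h5.le
                have h8 : 0 ≤ 1 / 2 * Real.exp (-((M : ℝ) * bet M δ j)) := by positivity
                nlinarith [mul_le_mul_of_nonneg_left h6 h8]
              calc tht M δ j * (S.card : ℝ) ≤ 1 / 2 * Real.exp (-((M : ℝ) * bet M δ j)) *
                  δ ^ M ^ (j + 1) * (S.card : ℝ) := mul_le_mul_of_nonneg_right h7 hSpos.le
                _ = (1 / 2 * Real.exp (-((M : ℝ) * bet M δ j)) * (S.card : ℝ)) *
                  δ ^ M ^ (j + 1) := by ring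
                _ ≤ _ := mul_le_mul hU'c h4 h5.le hU'pos.le)
          refine ⟨true, g, ?_⟩
          have hk : 2 / (tht M δ j * (S.card : ℝ)) =
              Real.exp (Real.log (2 / tht M δ j)) / (S.card : ℝ) := by
            rw [Real.exp_log (by positivity)]
            field_simp
          refine ⟨hg0, hg1, ?_, ?_, ?_⟩
          · intro ψ hψ v
            exact (hg2 ψ hψ).1 v (Finset.mem_univ v)
          · intro ψ hψ u v huv
            exact (hg2 ψ hψ).2.2 u (Finset.mem_univ u) v (Finset.mem_univ v) huv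
          · intro T τ
            rw [← hk]
            exact hg3 T (Finset.subset_univ T) τ
      · -- the inductive step
        have hjK2 : (j : ℝ) + 1 ≤ (K : ℝ) := by exact_mod_cast hjK1
        have hcast : (((M ^ (j + 1) : ℕ) : ℕ) : ℝ) = x := by rw [hx_def]; push_cast; ring
        have hk1 : kp L M K (j + 1) = 2 * ((K : ℝ) - j) * (L * x) := by
          rw [hx_def]; unfold kp; push_cast; ring
        have hkd : (M : ℝ) * kp L M K j = kp L M K (j + 1) + 2 * (L * x) := by
          rw [hkj, hk1]; ring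
        refine step A hsymm H j K hjK1 (bet M δ j) (bet M δ (j + 1)) (Bp L M j)
          (Bp L M (j + 1)) (fun i => M ^ i) (pp H L M K) (kp L M K j) (kp L M K (j + 1))
          (hnext hjK1) M (M ^ (j + 1)) (by omega) (by positivity) x (by linarith)
          (rho n M δ j) δ (tht M δ j)
          (Real.log (1 / sig h n M δ j) + (M : ℝ) * bet M δ j + Real.log 2)
          hr0 hδ0 hδ1 (by linarith) hr2 (le_refl _) hr3 ?_ ?_ ?_ ?_ ?_ ?_ (by linarith)
          W E ν rel hν0 hν1 S hSne hSW hSa hdegS hSB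
        · rw [hcast]; exact f7
        · rw [hBj]; linarith
        · intro l hjl _
          have h1 : x ≤ (M : ℝ) ^ (l + 1) :=
            pow_le_pow_right₀ (by exact_mod_cast hM) (by omega)
          have h2 : Bp L M j l = Bp L M (j + 1) l + 2 * (L * (M : ℝ) ^ (l + 1)) := by
            unfold Bp; push_cast; ring
          have h3 : L * x ≤ L * (M : ℝ) ^ (l + 1) := mul_le_mul_of_nonneg_left h1 (by linarith)
          have h4 := f6 hjK1
          linarith
        · intro v _
          rw [hcast]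
          have hd0 : (0 : ℝ) ≤ (H.degree v : ℝ) := Nat.cast_nonneg _
          unfold pp
          rw [← hx_def, hk1, div_le_div_iff₀ (by positivity) (by positivity)]
          have h1 : Real.log 2 ≤ 2 * (L * x) * (1 + (H.degree v : ℝ)) := by
            nlinarith
          have h2 : 2 * ((K : ℝ) - j) * (L * x) * (1 + (H.degree v : ℝ)) + Real.log 2 ≤
              2 * ((K : ℝ) + 1) * (L * x) * (1 + (H.degree v : ℝ)) := by
            have h3 : 0 ≤ (L * x) * (1 + (H.degree v : ℝ)) := by positivity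
            have h4 : 0 ≤ (j : ℝ) := Nat.cast_nonneg _
            nlinarith
          have h3 := mul_le_mul_of_nonneg_right h2 (by linarith : (0 : ℝ) ≤ x)
          calc _ ≤ _ := h3
            _ = _ := by ring
        · linarith
        · linarith

/-- the inductive statement holds at every level -/
theorem mainQ {V ι : Type} [Fintype V] [Fintype ι] [Nonempty ι]
    (A : Bool → V → V → Prop) (hsymm : ∀ c x y, A c x y → A c y x)
    (hcov : ∀ c x y, ¬ A c x y → A (!c) x y) (H : SimpleGraph ι)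
    (M K h : ℕ) (hM : 1 ≤ M) (hh : Fintype.card ι ≤ 2 ^ h) (δ : ℝ) (hδ0 : 0 < δ) (hδ1 : δ ≤ 1)
    (hη : (2 ^ (h + 1) * δ) * (H.edgeFinset.card : ℝ) ≤ 1 / 2)
    (hdK : ∀ v, H.degree v < M ^ (K + 1)) (L : ℝ)
    (hL : ((h : ℝ) + 1) ^ 2 * ell (Fintype.card ι) K δ ≤ L) (j : ℕ) (hjK : j ≤ K) :
    Q A H j K (bet M δ j) (Bp L M j) (fun i => M ^ i) (pp H L M K) (kp L M K j) := by
  induction hk : K - j generalizing j with
  | zero =>
    exact levelQ A hsymm hcov H M K h hM hh δ hδ0 hδ1 hη hdK L hL j hjK (fun hlt => by omega)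
  | succ k ih =>
    exact levelQ A hsymm hcov H M K h hM hh δ hδ0 hδ1 hη hdK L hL j hjK
      (fun hlt => ih (j + 1) (by omega) (by omega))

end

end Pool.Agent.Helper691.RM
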