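import Mathlib
import Pool.Agent.Helper691.RM.MainQ

set_option autoImplicit false

namespace Pool.Agent.Helper691.RM

open Finset Real Classical

noncomputable section

/-- from the random homomorphism to the number of homomorphisms -/
theorem count {V ι E Ω : Type} [Fintype V] [Fintype ι] [Fintype E] [Fintype Ω]
    (A : Bool → V → V → Prop) (H : SimpleGraph ι) (W : Finset V) (hW : W.Nonempty)
    (ν : E → ℝ) (rel : E → V → Prop) (K : ℕ) (B : ℕ → ℝ) (D : ℕ → ℕ) (p : ℕ → ι → ℝ) (κ : ℝ)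
    (c : Bool) (P : Ω → ℝ) (φ : Ω → ι → V) (e : Ω → E) (ℓ : Ω → ι → ℕ)
    (hG : Good A H W ν rel 0 K B D p κ c P φ e ℓ) (t : ℝ) (ht : 0 < t)
    (hB : ∀ l, 0 ≤ B l) (hcost : ∑ ω, P ω * ∑ v, B (ℓ ω v) ≤ t) :
    (W.card : ℝ) ^ Fintype.card ι ≤ 2 * Real.exp (2 * t) * ((K : ℝ) + 1) ^ Fintype.card ι *
      ((Finset.univ.filter (fun ψ : ι → V =>
        ∀ u v, H.Adj u v → A c (ψ u) (ψ v))).card : ℝ) := by
  have hWpos : (0 : ℝ) < (W.card : ℝ) := by exact_mod_cast hW.card_pos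
  set hom : Finset (ι → V) := Finset.univ.filter (fun ψ : ι → V =>
        ∀ u v, H.Adj u v → A c (ψ u) (ψ v)) with hhom
  set Lam : Finset (ι → ℕ) := Fintype.piFinset (fun _ : ι => Finset.range (K + 1)) with hLam
  set F : Finset Ω := Finset.univ.filter (fun ω => P ω ≠ 0 ∧ ∑ v, B (ℓ ω v) ≤ 2 * t) with hF
  -- Markov
  have hmark : 1 / 2 ≤ ∑ ω ∈ F, P ω := by
    have h1 : ∀ ω, P ω ≤ (if ω ∈ F then P ω else 0) +
        P ω * (∑ v, B (ℓ ω v)) / (2 * t) := by
      intro ω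
      have hs0 : 0 ≤ ∑ v, B (ℓ ω v) := Finset.sum_nonneg fun v _ => hB _
      have hP0 := hG.nonneg ω
      split_ifs with h
      · have : 0 ≤ P ω * (∑ v, B (ℓ ω v)) / (2 * t) := by positivity
        linarith
      · rw [hF, Finset.mem_filter] at h
        by_cases hPω : P ω = 0
        · simp [hPω]
        · have h2 : 2 * t < ∑ v, B (ℓ ω v) := by
            by_contra hcon
            push Not at hcon
            exact h ⟨Finset.mem_univ _, hPω, hcon⟩
          rw [zero_add, le_div_iff₀ (by positivity)]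
          exact mul_le_mul_of_nonneg_left h2.le hP0
    have h2 := Finset.sum_le_sum fun ω (_ : ω ∈ Finset.univ) => h1 ω
    rw [Finset.sum_add_distrib, ← Finset.sum_filter, ← Finset.sum_div, hG.sum_one] at h2
    have h3 : Finset.univ.filter (fun ω => ω ∈ F) = F := by ext; simp
    rw [h3] at h2
    have h4 : (∑ ω, P ω * ∑ v, B (ℓ ω v)) / (2 * t) ≤ 1 / 2 := by
      rw [div_le_iff₀ (by positivity)]
      linarith
    linarith
  -- fibres
  have hfib : ∑ q ∈ hom ×ˢ Lam, ∑ ω ∈ F.filter (fun ω => (φ ω, ℓ ω) = q), P ω =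
      ∑ ω ∈ F, P ω := by
    apply Finset.sum_fiberwise_of_maps_to
    intro ω hω
    obtain ⟨-, h1, -⟩ := Finset.mem_filter.mp hω
    rw [Finset.mem_product]
    constructor
    · exact Finset.mem_filter.mpr ⟨Finset.mem_univ _, hG.hom ω h1⟩
    · rw [hLam, Fintype.mem_piFinset]
      intro v
      rw [Finset.mem_range]
      have := (hG.lev ω v).2
      show ℓ ω v < K + 1
      omega
  have hq : ∀ q ∈ hom ×ˢ Lam, ∑ ω ∈ F.filter (fun ω => (φ ω, ℓ ω) = q), P ω ≤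
      Real.exp (2 * t) / (W.card : ℝ) ^ Fintype.card ι := by
    intro q _
    by_cases hc : ∑ v, B (q.2 v) ≤ 2 * t
    · have h1 := hG.dens Finset.univ q.1 q.2
      have h2 : ∑ ω ∈ F.filter (fun ω => (φ ω, ℓ ω) = q), P ω ≤
          ∑ ω ∈ Finset.univ.filter (fun ω : Ω => ∀ v ∈ (Finset.univ : Finset ι),
            φ ω v = q.1 v ∧ ℓ ω v = q.2 v), P ω := by
        refine Finset.sum_le_sum_of_subset_of_nonneg ?_ fun ω _ _ => hG.nonneg ω
        intro ω hω
        have h3 := (Finset.mem_filter.mp hω).2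
        refine Finset.mem_filter.mpr ⟨Finset.mem_univ _, fun v _ => ?_⟩
        rw [← h3]
        exact ⟨rfl, rfl⟩
      refine h2.trans (h1.trans ?_)
      rw [Finset.prod_div_distrib, ← Real.exp_sum, Finset.prod_const, Finset.card_univ]
      exact div_le_div_of_nonneg_right (Real.exp_le_exp.mpr hc) (by positivity)
    · have h1 : F.filter (fun ω => (φ ω, ℓ ω) = q) = ∅ := by
        rw [Finset.filter_eq_empty_iff]
        intro ω hω hcon
        apply hc
        rw [← hcon]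
        exact (Finset.mem_filter.mp hω).2.2
      rw [h1, Finset.sum_empty]
      positivity
  have hsum : 1 / 2 ≤ ((hom.card : ℝ) * ((K : ℝ) + 1) ^ Fintype.card ι) *
      (Real.exp (2 * t) / (W.card : ℝ) ^ Fintype.card ι) := by
    calc (1 : ℝ) / 2 ≤ ∑ ω ∈ F, P ω := hmark
      _ = ∑ q ∈ hom ×ˢ Lam, ∑ ω ∈ F.filter (fun ω => (φ ω, ℓ ω) = q), P ω := hfib.symm
      _ ≤ ∑ _q ∈ hom ×ˢ Lam, Real.exp (2 * t) / (W.card : ℝ) ^ Fintype.card ι :=
          Finset.sum_le_sum hq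
      _ = _ := by
          rw [Finset.sum_const, nsmul_eq_mul, Finset.card_product]
          have : Lam.card = (K + 1) ^ Fintype.card ι := by
            rw [hLam, Fintype.card_piFinset]; simp
          rw [this]
          push_cast
          ring
  have hWp : (0 : ℝ) < (W.card : ℝ) ^ Fintype.card ι := pow_pos hWpos _
  rw [← mul_div_assoc, le_div_iff₀ hWp] at hsum
  linarith

/-- tail bound for the level cost -/
theorem tail_pow (M : ℕ) (hM : 1 ≤ M) (la K l : ℕ) (hlK : l ≤ K) :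
    (M : ℝ) ^ (l + 1) ≤ (M : ℝ) ^ (la + 1) +
      ∑ i ∈ Finset.Ico la K, (M : ℝ) ^ (i + 2) * ind (i < l) := by
  have hM' : (1 : ℝ) ≤ (M : ℝ) := by exact_mod_cast hM
  have hsum0 : 0 ≤ ∑ i ∈ Finset.Ico la K, (M : ℝ) ^ (i + 2) * ind (i < l) :=
    Finset.sum_nonneg fun i _ => mul_nonneg (by positivity) (ind_nonneg _)
  by_cases h : l ≤ la
  · have : (M : ℝ) ^ (l + 1) ≤ (M : ℝ) ^ (la + 1) := pow_le_pow_right₀ hM' (by omega)
    linarith
  · push Not at h
    have h1 : (M : ℝ) ^ (l + 1) ≤ ∑ i ∈ Finset.Ico la K, (M : ℝ) ^ (i + 2) * ind (i < l) := by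
      have h2 : (M : ℝ) ^ ((l - 1) + 2) * ind (l - 1 < l) ≤
          ∑ i ∈ Finset.Ico la K, (M : ℝ) ^ (i + 2) * ind (i < l) :=
        Finset.single_le_sum (f := fun i => (M : ℝ) ^ (i + 2) * ind (i < l))
          (fun i _ => mul_nonneg (by positivity) (ind_nonneg _))
          (Finset.mem_Ico.mpr ⟨by omega, by omega⟩)
      rw [ind_pos (by omega), mul_one] at h2
      have h3 : l - 1 + 2 = l + 1 := by omega
      rw [h3] at h2
      exact h2
    have : (0 : ℝ) ≤ (M : ℝ) ^ (la + 1) := by positivity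
    linarith

/-- the expected cost -/
theorem cost {V ι E Ω : Type} [Fintype V] [Fintype ι] [Fintype E] [Fintype Ω]
    (A : Bool → V → V → Prop) (H : SimpleGraph ι) (W : Finset V)
    (ν : E → ℝ) (rel : E → V → Prop) (M K : ℕ) (hM : 2 ≤ M) (L : ℝ) (hL : 1 ≤ L) (κ : ℝ)
    (c : Bool) (P : Ω → ℝ) (φ : Ω → ι → V) (e : Ω → E) (ℓ : Ω → ι → ℕ)
    (hG : Good A H W ν rel 0 K (Bp L M 0) (fun i => M ^ i) (pp H L M K) κ c P φ e ℓ)
    (hpos : ∀ v, 1 ≤ H.degree v) (m : ℕ) (hm : H.edgeFinset.card = m) :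
    ∑ ω, P ω * ∑ v, Bp L M 0 (ℓ ω v) ≤
      16 * L ^ 2 * ((K : ℝ) + 1) ^ 3 * (M : ℝ) * (m : ℝ) := by
  have hM1 : (1 : ℝ) ≤ (M : ℝ) := by exact_mod_cast (by omega : 1 ≤ M)
  have hMpos : (0 : ℝ) < (M : ℝ) := by linarith
  have hK0 : (0 : ℝ) ≤ (K : ℝ) := Nat.cast_nonneg _
  have hL0 : 0 < L := by linarith
  -- per vertex
  have hv : ∀ v, ∑ ω, P ω * (M : ℝ) ^ (ℓ ω v + 1) ≤
      4 * L * ((K : ℝ) + 1) ^ 2 * (M : ℝ) * (H.degree v : ℝ) := by
    intro v
    have hd1 : (1 : ℝ) ≤ (H.degree v : ℝ) := by exact_mod_cast hpos v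
    set la := Nat.log M (H.degree v) with hla
    have hla1 : M ^ la ≤ H.degree v := Nat.pow_log_le_self M (by have := hpos v; omega)
    have hla2 : H.degree v < M ^ (la + 1) := Nat.lt_pow_succ_log_self (by omega) _
    have h1 : ∑ ω, P ω * (M : ℝ) ^ (ℓ ω v + 1) ≤ ∑ ω, (P ω * (M : ℝ) ^ (la + 1) +
        ∑ i ∈ Finset.Ico la K, (M : ℝ) ^ (i + 2) * (if i < ℓ ω v then P ω else 0)) := by
      refine Finset.sum_le_sum fun ω _ => ?_
      have h2 := mul_le_mul_of_nonneg_left (tail_pow M (by omega) la K (ℓ ω v)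
        (hG.lev ω v).2) (hG.nonneg ω)
      refine h2.trans (le_of_eq ?_)
      rw [mul_add, Finset.mul_sum]
      congr 1
      refine Finset.sum_congr rfl fun i _ => ?_
      unfold ind
      split_ifs <;> ring
    rw [Finset.sum_add_distrib, ← Finset.sum_mul, hG.sum_one, one_mul, Finset.sum_comm] at h1
    have h3 : ∀ i ∈ Finset.Ico la K, ∑ ω, (M : ℝ) ^ (i + 2) * (if i < ℓ ω v then P ω else 0) ≤
        2 * L * ((K : ℝ) + 1) * (1 + (H.degree v : ℝ)) * (M : ℝ) := by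
      intro i hi
      rw [Finset.mem_Ico] at hi
      have hdi : H.degree v < M ^ (i + 1) :=
        lt_of_lt_of_le hla2 (Nat.pow_le_pow_right (by omega) (by omega))
      have h4 := hG.level v i (Nat.zero_le _) hdi
      rw [← Finset.mul_sum, ← Finset.sum_filter]
      have h5 := mul_le_mul_of_nonneg_left h4 (by positivity : (0 : ℝ) ≤ (M : ℝ) ^ (i + 2))
      refine h5.trans (le_of_eq ?_)
      unfold pp
      have h6 : (M : ℝ) ^ (i + 2) = (M : ℝ) ^ (i + 1) * M := by ring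
      rw [h6]
      field_simp
    have h4 := Finset.sum_le_sum h3
    rw [Finset.sum_const, nsmul_eq_mul, Nat.card_Ico] at h4
    have h5 : ((K - la : ℕ) : ℝ) ≤ (K : ℝ) := by exact_mod_cast Nat.sub_le _ _
    have h6 : (M : ℝ) ^ (la + 1) ≤ (M : ℝ) * (H.degree v : ℝ) := by
      have : (M : ℝ) ^ la ≤ (H.degree v : ℝ) := by exact_mod_cast hla1
      rw [pow_succ]
      nlinarith
    have h7 : 2 * L * ((K : ℝ) + 1) * (1 + (H.degree v : ℝ)) * (M : ℝ) ≤
        4 * L * ((K : ℝ) + 1) * (H.degree v : ℝ) * (M : ℝ) := by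
      have h8 : 0 ≤ 2 * L * ((K : ℝ) + 1) * (M : ℝ) := by positivity
      nlinarith
    have h8 : ((K - la : ℕ) : ℝ) * (2 * L * ((K : ℝ) + 1) * (1 + (H.degree v : ℝ)) * (M : ℝ)) ≤
        (K : ℝ) * (4 * L * ((K : ℝ) + 1) * (H.degree v : ℝ) * (M : ℝ)) :=
      mul_le_mul h5 h7 (by positivity) hK0
    have h9 : (M : ℝ) * (H.degree v : ℝ) +
        (K : ℝ) * (4 * L * ((K : ℝ) + 1) * (H.degree v : ℝ) * (M : ℝ)) ≤
        4 * L * ((K : ℝ) + 1) ^ 2 * (M : ℝ) * (H.degree v : ℝ) := by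
      have h10 : 0 ≤ (M : ℝ) * (H.degree v : ℝ) := by positivity
      have h11 : 1 ≤ 4 * L * ((K : ℝ) + 1) := by nlinarith
      nlinarith [mul_le_mul_of_nonneg_right h11 h10]
    linarith
  -- sum over the vertices
  have hB : ∀ ω v, Bp L M 0 (ℓ ω v) ≤ 2 * L * ((K : ℝ) + 1) * (M : ℝ) ^ (ℓ ω v + 1) := by
    intro ω v
    unfold Bp
    have h1 : ((ℓ ω v : ℕ) : ℝ) ≤ (K : ℝ) := by exact_mod_cast (hG.lev ω v).2
    refine mul_le_mul_of_nonneg_right ?_ (by positivity)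
    refine mul_le_mul_of_nonneg_left ?_ (by positivity)
    push_cast
    linarith
  have hsumdeg : ∑ v, (H.degree v : ℝ) = 2 * (m : ℝ) := by
    have h1 := H.sum_degrees_eq_twice_card_edges
    rw [hm] at h1
    exact_mod_cast h1
  calc ∑ ω, P ω * ∑ v, Bp L M 0 (ℓ ω v)
      ≤ ∑ ω, P ω * ∑ v, (2 * L * ((K : ℝ) + 1) * (M : ℝ) ^ (ℓ ω v + 1)) := by
        refine Finset.sum_le_sum fun ω _ => ?_
        exact mul_le_mul_of_nonneg_left (Finset.sum_le_sum fun v _ => hB ω v) (hG.nonneg ω)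
    _ = 2 * L * ((K : ℝ) + 1) * ∑ v, ∑ ω, P ω * (M : ℝ) ^ (ℓ ω v + 1) := by
        rw [Finset.sum_comm, Finset.mul_sum]
        refine Finset.sum_congr rfl fun ω _ => ?_
        rw [Finset.mul_sum, Finset.mul_sum]
        refine Finset.sum_congr rfl fun v _ => ?_
        ring
    _ ≤ 2 * L * ((K : ℝ) + 1) * ∑ v,
          4 * L * ((K : ℝ) + 1) ^ 2 * (M : ℝ) * (H.degree v : ℝ) :=
        mul_le_mul_of_nonneg_left (Finset.sum_le_sum fun v _ => hv v) (by positivity)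
    _ = _ := by
        rw [← Finset.mul_sum, hsumdeg]
        ring

end

end Pool.Agent.Helper691.RM
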