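import Mathlib

set_option autoImplicit false

namespace Pool.Agent.Helper691.RM

open Finset Real Classical

theorem edge_comap {k : ℕ} (H : SimpleGraph (Fin k)) :
    (H.comap (Subtype.val : {v : Fin k // ∃ u, H.Adj v u} → Fin k)).edgeSet.ncard =
      H.edgeSet.ncard := by
  have h1 : Sym2.map (Subtype.val : {v : Fin k // ∃ u, H.Adj v u} → Fin k) ''
      (H.comap (Subtype.val : {v : Fin k // ∃ u, H.Adj v u} → Fin k)).edgeSet = H.edgeSet := by
    ext e
    constructor
    · rintro ⟨e', he', rfl⟩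
      induction e' with
      | _ u v => exact he'
    · induction e with
      | _ u v =>
        intro h
        have h' : H.Adj u v := h
        exact ⟨s(⟨u, v, h'⟩, ⟨v, u, h'.symm⟩), h', rfl⟩
  rw [← h1]
  exact (Set.ncard_image_of_injective _ (Sym2.map.injective Subtype.val_injective)).symm

theorem card_homs {k n : ℕ} (H : SimpleGraph (Fin k)) (A : Fin n → Fin n → Prop) :
    Nat.card {ψ : {v : Fin k // ∃ u, H.Adj v u} → Fin n //
      ∀ u v, (H.comap (Subtype.val : {v : Fin k // ∃ u, H.Adj v u} → Fin k)).Adj u v →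
        A (ψ u) (ψ v)} * n ^ Fintype.card {v : Fin k // ¬ ∃ u, H.Adj v u} ≤
    Nat.card {F : Fin k → Fin n // ∀ u v, H.Adj u v → A (F u) (F v)} := by
  have h1 : n ^ Fintype.card {v : Fin k // ¬ ∃ u, H.Adj v u} =
      Nat.card ({v : Fin k // ¬ ∃ u, H.Adj v u} → Fin n) := by
    simp [Nat.card_eq_fintype_card]
  rw [h1, ← Nat.card_prod]
  apply Nat.card_le_card_of_injective (fun q => (⟨fun v => if h : ∃ u, H.Adj v u then q.1.1 ⟨v, h⟩
    else q.2 ⟨v, h⟩, by
      intro u v huv
      have hu : ∃ w, H.Adj u w := ⟨v, huv⟩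
      have hv : ∃ w, H.Adj v w := ⟨u, huv.symm⟩
      simp only [dif_pos hu, dif_pos hv]
      exact q.1.2 ⟨u, hu⟩ ⟨v, hv⟩ huv⟩ : {F : Fin k → Fin n // ∀ u v, H.Adj u v → A (F u) (F v)}))
  rintro ⟨⟨ψ, hψ⟩, g⟩ ⟨⟨ψ', hψ'⟩, g'⟩ h
  have h2 := congrArg Subtype.val h
  simp only at h2
  have h3 : ψ = ψ' := by
    funext v
    have := congrFun h2 v.1
    simpa only [dif_pos v.2] using this
  have h4 : g = g' := by
    funext v
    have := congrFun h2 v.1
    simpa only [dif_neg v.2] using this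
  subst h3 h4
  rfl

theorem card_eq_le {k n : ℕ} (i j : Fin k) (hij : i ≠ j) :
    (univ.filter (fun F : Fin k → Fin n => F i = F j)).card ≤ n ^ (k - 1) := by
  have h1 : n ^ (k - 1) = Fintype.card ({v : Fin k // v ≠ j} → Fin n) := by
    simp [Fintype.card_subtype_compl]
  rw [h1, ← Finset.card_univ]
  apply Finset.card_le_card_of_injOn (fun F => fun v : {v : Fin k // v ≠ j} => F v.1)
  · intro F _
    exact Finset.mem_coe.2 (Finset.mem_univ _)
  · intro F hF F' hF' h
    simp only [Finset.coe_filter, Finset.mem_univ, true_and, Set.mem_ofPred_eq] at hF hF'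
    funext v
    by_cases hv : v = j
    · subst hv
      rw [← hF, ← hF']
      exact congrFun h ⟨i, hij⟩
    · exact congrFun h ⟨v, hv⟩

theorem card_nonInj {k n : ℕ} :
    (univ.filter (fun F : Fin k → Fin n => ¬ Function.Injective F)).card ≤ k ^ 2 * n ^ (k - 1) := by
  have hsub : (univ.filter (fun F : Fin k → Fin n => ¬ Function.Injective F)) ⊆
      (univ : Finset (Fin k)).offDiag.biUnion
        (fun q => univ.filter (fun F : Fin k → Fin n => F q.1 = F q.2)) := by
    intro F hF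
    simp only [Finset.mem_filter, Finset.mem_univ, true_and, Function.Injective, not_forall] at hF
    obtain ⟨a, b, h, hne⟩ := hF
    simp only [Finset.mem_biUnion, Finset.mem_offDiag, Finset.mem_univ, true_and,
      Finset.mem_filter]
    exact ⟨(a, b), hne, h⟩
  refine (Finset.card_le_card hsub).trans ?_
  refine Finset.card_biUnion_le.trans ?_
  refine (Finset.sum_le_card_nsmul _ _ (n ^ (k - 1)) ?_).trans ?_
  · intro q hq
    simp only [Finset.mem_offDiag, Finset.mem_univ, true_and] at hq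
    exact card_eq_le q.1 q.2 hq
  · rw [smul_eq_mul]
    apply Nat.mul_le_mul_right
    rw [Finset.offDiag_card]
    simp only [Finset.card_univ, Fintype.card_fin]
    rw [sq]
    exact Nat.sub_le _ _

theorem card_split {k n : ℕ} (P : (Fin k → Fin n) → Prop) :
    Nat.card {F : Fin k → Fin n // P F} ≤
      Nat.card {F : Fin k → Fin n // Function.Injective F ∧ P F} + k ^ 2 * n ^ (k - 1) := by
  rw [Nat.card_eq_fintype_card, Nat.card_eq_fintype_card, Fintype.card_subtype,
    Fintype.card_subtype]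
  refine le_trans ?_ (Nat.add_le_add_left card_nonInj _)
  refine le_trans (Finset.card_le_card ?_) (Finset.card_union_le _ _)
  intro F hF
  simp only [Finset.mem_filter, Finset.mem_univ, true_and, Finset.mem_union] at hF ⊢
  by_cases h : Function.Injective F
  · exact Or.inl ⟨h, hF⟩
  · exact Or.inr h

/-- From a lower bound on the number of (not necessarily injective) homomorphisms of graphs
without isolated vertices to the frozen statement. -/
theorem frozen_of_main
    (hmain : ∀ ε : ℝ, 0 < ε → ∃ m₀ : ℕ, ∀ (ι : Type) [Fintype ι] (H : SimpleGraph ι),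
      (∀ v, ∃ u, H.Adj v u) → m₀ ≤ H.edgeSet.ncard → ∀ (n : ℕ), 0 < n →
      ∀ (A : Bool → Fin n → Fin n → Prop), (∀ c x y, A c x y → A c y x) →
      (∀ c x y, ¬ A c x y → A (!c) x y) →
      ∃ c : Bool, (2 : ℝ) ^ (-((H.edgeSet.ncard : ℝ) ^ (1 + ε))) *
          (n : ℝ) ^ (Fintype.card ι) ≤
        (Nat.card {ψ : ι → Fin n // ∀ u v, H.Adj u v → A c (ψ u) (ψ v)} : ℝ)) :
    ∀ ε : ℝ, 0 < ε → ∃ m₀ : ℕ, ∀ k : ℕ, ∀ H : SimpleGraph (Fin k),
      m₀ ≤ H.edgeSet.ncard →
      ∀ δ : ℝ, δ < (2 : ℝ) ^ (-((H.edgeSet.ncard : ℝ) ^ (1 + ε))) →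
        ∃ N : ℕ, ∀ n : ℕ, N ≤ n → ∀ G : SimpleGraph (Fin n),
          δ * (n.descFactorial k : ℝ) ≤
            (Nat.card {f : Fin k ↪ Fin n //
              (∀ i j, H.Adj i j → G.Adj (f i) (f j)) ∨
              (∀ i j, H.Adj i j → Gᶜ.Adj (f i) (f j))} : ℝ) := by

  intro ε hε
  obtain ⟨m₀, hm⟩ := hmain ε hε
  refine ⟨m₀, fun k H hH δ hδ => ?_⟩
  set X : ℝ := (2 : ℝ) ^ (-((H.edgeSet.ncard : ℝ) ^ (1 + ε))) with hX
  by_cases hδ0 : δ ≤ 0
  · refine ⟨0, fun n _ G => ?_⟩
    refine le_trans (mul_nonpos_of_nonpos_of_nonneg hδ0 (Nat.cast_nonneg _)) (Nat.cast_nonneg _)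
  push Not at hδ0
  obtain ⟨N₀, hN₀⟩ := exists_nat_ge ((k : ℝ) ^ 2 / (X - δ))
  refine ⟨max 1 N₀, fun n hn G => ?_⟩
  have hn1 : 0 < n := lt_of_lt_of_le Nat.one_pos (le_trans (le_max_left _ _) hn)
  have hn2 : (k : ℝ) ^ 2 ≤ (X - δ) * n := by
    have h1 : (k : ℝ) ^ 2 / (X - δ) ≤ n := hN₀.trans (by exact_mod_cast le_trans (le_max_right _ _) hn)
    rw [div_le_iff₀ (by linarith)] at h1
    linarith
  let A : Bool → Fin n → Fin n → Prop := fun c x y => if c then G.Adj x y else ¬ G.Adj x y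
  have hsym : ∀ c x y, A c x y → A c y x := by
    intro c x y
    cases c
    · simp only [A]
      intro h h'
      exact h h'.symm
    · simp only [A]
      intro h
      exact h.symm
  have hcov : ∀ c x y, ¬ A c x y → A (!c) x y := by
    intro c x y
    cases c
    · simp only [A]
      intro h
      simpa using h
    · simp only [A]
      intro h
      simpa using h
  have hno : ∀ v, ∃ u, (H.comap (Subtype.val : {v : Fin k // ∃ u, H.Adj v u} → Fin k)).Adj v u := by
    rintro ⟨v, u, huv⟩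
    exact ⟨⟨u, v, huv.symm⟩, huv⟩
  obtain ⟨c, hc⟩ := hm {v : Fin k // ∃ u, H.Adj v u}
    (H.comap (Subtype.val : {v : Fin k // ∃ u, H.Adj v u} → Fin k)) hno
    (by rw [edge_comap]; exact hH) n hn1 A hsym hcov
  rw [edge_comap, ← hX] at hc
  have h1 := card_homs H (A c)
  have h2 := card_split (fun F : Fin k → Fin n => ∀ u v, H.Adj u v → A c (F u) (F v))
  have hcard : Fintype.card {v : Fin k // ∃ u, H.Adj v u} +
      Fintype.card {v : Fin k // ¬ ∃ u, H.Adj v u} = k := by
    rw [← Fintype.card_sum, Fintype.card_congr (Equiv.sumCompl _), Fintype.card_fin]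
  have h3 : X * (n : ℝ) ^ k ≤
      (Nat.card {F : Fin k → Fin n // ∀ u v, H.Adj u v → A c (F u) (F v)} : ℝ) := by
    calc X * (n : ℝ) ^ k = (X * (n : ℝ) ^ Fintype.card {v : Fin k // ∃ u, H.Adj v u}) *
        (n : ℝ) ^ Fintype.card {v : Fin k // ¬ ∃ u, H.Adj v u} := by
          rw [mul_assoc, ← pow_add, hcard]
      _ ≤ _ := mul_le_mul_of_nonneg_right hc (by positivity)
      _ ≤ _ := by exact_mod_cast h1
  have h4 : (Nat.card {F : Fin k → Fin n // ∀ u v, H.Adj u v → A c (F u) (F v)} : ℝ) ≤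
      (Nat.card {F : Fin k → Fin n // Function.Injective F ∧
        ∀ u v, H.Adj u v → A c (F u) (F v)} : ℝ) + (k : ℝ) ^ 2 * (n : ℝ) ^ (k - 1) := by
    exact_mod_cast h2
  have h5 : (k : ℝ) ^ 2 * (n : ℝ) ^ (k - 1) ≤ (X - δ) * (n : ℝ) ^ k := by
    rcases Nat.eq_zero_or_pos k with hk | hk
    · subst hk
      simp only [Nat.cast_zero]
      have : 0 ≤ X - δ := by linarith
      simpa using this
    · have h6 : (n : ℝ) ^ k = n * (n : ℝ) ^ (k - 1) := by
        rw [← pow_succ']
        congr 1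
        omega
      rw [h6, ← mul_assoc]
      exact mul_le_mul_of_nonneg_right hn2 (by positivity)
  have h6 : δ * (n : ℝ) ^ k ≤ (Nat.card {F : Fin k → Fin n // Function.Injective F ∧
        ∀ u v, H.Adj u v → A c (F u) (F v)} : ℝ) := by nlinarith
  have h7 : δ * (n.descFactorial k : ℝ) ≤ δ * (n : ℝ) ^ k := by
    apply mul_le_mul_of_nonneg_left _ hδ0.le
    exact_mod_cast Nat.descFactorial_le_pow n k
  refine (h7.trans h6).trans ?_
  have h8 : Nat.card {F : Fin k → Fin n // Function.Injective F ∧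
        ∀ u v, H.Adj u v → A c (F u) (F v)} ≤
      Nat.card {f : Fin k ↪ Fin n //
              (∀ i j, H.Adj i j → G.Adj (f i) (f j)) ∨
              (∀ i j, H.Adj i j → Gᶜ.Adj (f i) (f j))} := by
    apply Nat.card_le_card_of_injective (fun F => (⟨⟨F.1, F.2.1⟩, by
      have hF := F.2.2
      have hinj := F.2.1
      cases c
      · right
        intro i j hij
        rw [SimpleGraph.compl_adj]
        refine ⟨fun h => hij.ne (hinj h), ?_⟩
        have := hF i j hij
        simpa [A] using this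
      · left
        intro i j hij
        have := hF i j hij
        simpa [A] using this⟩ : {f : Fin k ↪ Fin n //
              (∀ i j, H.Adj i j → G.Adj (f i) (f j)) ∨
              (∀ i j, H.Adj i j → Gᶜ.Adj (f i) (f j))}))
    intro F F' h
    have h9 := congrArg (fun q => (q.1 : Fin k → Fin n)) h
    exact Subtype.ext h9
  exact_mod_cast h8

end Pool.Agent.Helper691.RM
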