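import Mathlib
import Pool.Agent.Helper691.RM.Count
import Pool.Agent.Helper691.RM.Frozen

set_option autoImplicit false

namespace Pool.Agent.Helper691.RM

open Finset Real Classical

noncomputable section

theorem main_count {V ι : Type} [Fintype V] [Nonempty V] [Fintype ι] [Nonempty ι]
    (A : Bool → V → V → Prop) (hsymm : ∀ c x y, A c x y → A c y x)
    (hcov : ∀ c x y, ¬ A c x y → A (!c) x y) (H : SimpleGraph ι)
    (hpos : ∀ v, 1 ≤ H.degree v)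
    (M K h : ℕ) (hM : 2 ≤ M) (hh : Fintype.card ι ≤ 2 ^ h) (δ : ℝ) (hδ0 : 0 < δ) (hδ1 : δ ≤ 1)
    (hη : (2 ^ (h + 1) * δ) * (H.edgeFinset.card : ℝ) ≤ 1 / 2)
    (hdK : ∀ v, H.degree v < M ^ (K + 1)) (L : ℝ)
    (hL : ((h : ℝ) + 1) ^ 2 * ell (Fintype.card ι) K δ ≤ L) (m : ℕ)
    (hm : H.edgeFinset.card = m) (hm1 : 1 ≤ m) :
    ∃ c, (Fintype.card V : ℝ) ^ Fintype.card ι ≤
      2 * Real.exp (2 * (16 * L ^ 2 * ((K : ℝ) + 1) ^ 3 * (M : ℝ) * (m : ℝ))) *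
        ((K : ℝ) + 1) ^ Fintype.card ι *
      ((Finset.univ.filter (fun ψ : ι → V =>
        ∀ u v, H.Adj u v → A c (ψ u) (ψ v))).card : ℝ) := by
  have hQ := mainQ A hsymm hcov H M K h (by omega) hh δ hδ0 hδ1 hη hdK L hL 0 (Nat.zero_le _)
  obtain ⟨c, Ω, instΩ, P, φ, e, ℓ, hG⟩ := hQ Finset.univ Finset.univ_nonempty Unit
    (fun _ => 1) (fun _ _ => True) (fun _ => zero_le_one) (by simp) (by
      intro x _
      simp [bet])
  have hn1 : 1 ≤ Fintype.card ι := Fintype.card_pos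
  have hell3 := ell_ge (Fintype.card ι) K hn1 δ hδ0 hδ1
  have hL3 : 3 ≤ L := by
    have : (1 : ℝ) ≤ ((h : ℝ) + 1) ^ 2 := one_le_pow₀ (by
      have : (0 : ℝ) ≤ (h : ℝ) := Nat.cast_nonneg _
      linarith)
    have h2 : 1 * ell (Fintype.card ι) K δ ≤
        ((h : ℝ) + 1) ^ 2 * ell (Fintype.card ι) K δ :=
      mul_le_mul_of_nonneg_right this (by linarith)
    linarith
  have hM' : (0 : ℝ) < (M : ℝ) := by exact_mod_cast (by omega : 0 < M)
  have hm' : (0 : ℝ) < (m : ℝ) := by exact_mod_cast hm1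
  have hcost := cost A H Finset.univ (fun _ : Unit => (1 : ℝ)) (fun _ _ => True) M K hM L
    (by linarith) (kp L M K 0) c P φ e ℓ hG hpos m hm
  have hcount := count A H Finset.univ Finset.univ_nonempty (fun _ : Unit => (1 : ℝ))
    (fun _ _ => True) K (Bp L M 0) (fun i => M ^ i) (pp H L M K) (kp L M K 0) c P φ e ℓ hG
    (16 * L ^ 2 * ((K : ℝ) + 1) ^ 3 * (M : ℝ) * (m : ℝ)) (by positivity) (by
      intro l
      unfold Bp
      push_cast
      have : (0 : ℝ) ≤ (l : ℝ) := Nat.cast_nonneg _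
      have h2 : (0 : ℝ) ≤ (l : ℝ) + 1 - 0 := by linarith
      positivity) hcost
  exact ⟨c, by simpa using hcount⟩

theorem hmain (ε : ℝ) (hε : 0 < ε) : ∃ m₀ : ℕ, ∀ (ι : Type) [Fintype ι] (H : SimpleGraph ι),
      (∀ v, ∃ u, H.Adj v u) → m₀ ≤ H.edgeSet.ncard → ∀ (n : ℕ), 0 < n →
      ∀ (A : Bool → Fin n → Fin n → Prop), (∀ c x y, A c x y → A c y x) →
      (∀ c x y, ¬ A c x y → A (!c) x y) →
      ∃ c : Bool, (2 : ℝ) ^ (-((H.edgeSet.ncard : ℝ) ^ (1 + ε))) *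
          (n : ℝ) ^ (Fintype.card ι) ≤
        (Nat.card {ψ : ι → Fin n // ∀ u v, H.Adj u v → A c (ψ u) (ψ v)} : ℝ) := by
  -- parameters depending on `ε` only
  set K : ℕ := ⌈2 / ε⌉₊ with hK
  set η : ℝ := ε / 24 with hη_def
  have hη : 0 < η := by positivity
  set C1 : ℝ := 225 * ((K : ℝ) + 2) * (1 + 1 / η) ^ 3 with hC1
  set C2 : ℝ := 1 + 64 * C1 ^ 2 * ((K : ℝ) + 1) ^ 3 + 2 * (K : ℝ) with hC2
  have hC1pos : 0 < C1 := by positivity
  have hC2pos : 0 < C2 := by positivity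
  have hl2 : 0 < Real.log 2 := Real.log_pos (by norm_num)
  refine ⟨⌈(C2 / Real.log 2) ^ (4 / ε)⌉₊ + 2, ?_⟩
  intro ι _ H hiso hm0 N hN A hsymm hcov
  set m : ℕ := H.edgeSet.ncard with hm
  have hm2 : 2 ≤ m := by omega
  have hm' : (2 : ℝ) ≤ (m : ℝ) := by exact_mod_cast hm2
  have hmpos : (0 : ℝ) < (m : ℝ) := by linarith
  have hm1 : (1 : ℝ) ≤ (m : ℝ) := by linarith
  have hmC : (C2 / Real.log 2) ^ (4 / ε) ≤ (m : ℝ) := by
    refine (Nat.le_ceil _).trans ?_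
    exact_mod_cast (by omega : ⌈(C2 / Real.log 2) ^ (4 / ε)⌉₊ ≤ m)
  have hedge : H.edgeFinset.card = m := by
    rw [hm, ← SimpleGraph.coe_edgeFinset, Set.ncard_coe_finset]
  -- the vertex set is nonempty
  have hne : Nonempty ι := by
    by_contra hcon
    rw [not_nonempty_iff] at hcon
    have : H.edgeFinset = ∅ := by
      rw [Finset.eq_empty_iff_forall_notMem]
      intro e
      induction e with
      | _ u v => exact fun _ => hcon.false u
    rw [this, Finset.card_empty] at hedge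
    omega
  have hpos : ∀ v, 1 ≤ H.degree v := by
    intro v
    obtain ⟨u, hu⟩ := hiso v
    rw [← SimpleGraph.card_neighborFinset_eq_degree, Nat.succ_le_iff, Finset.card_pos]
    exact ⟨u, by rw [SimpleGraph.mem_neighborFinset]; exact hu⟩
  have hsumdeg : ∑ v, H.degree v = 2 * m := by
    rw [H.sum_degrees_eq_twice_card_edges, hedge]
  have hn2 : Fintype.card ι ≤ 2 * m := by
    rw [← hsumdeg]
    calc Fintype.card ι = ∑ _v : ι, 1 := by simp
      _ ≤ ∑ v, H.degree v := Finset.sum_le_sum fun v _ => hpos v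
  have hn1 : 1 ≤ Fintype.card ι := Fintype.card_pos
  set n := Fintype.card ι with hn
  have hn1' : (1 : ℝ) ≤ (n : ℝ) := by exact_mod_cast hn1
  have hn2' : (n : ℝ) ≤ 2 * (m : ℝ) := by exact_mod_cast hn2
  -- the parameters
  set M : ℕ := ⌈(m : ℝ) ^ (ε / 2)⌉₊ with hM
  have hme : 1 < (m : ℝ) ^ (ε / 2) := Real.one_lt_rpow (by linarith) (by positivity)
  have hM2 : 2 ≤ M := by
    have : 1 < M := Nat.lt_ceil.mpr (by push_cast; exact hme)
    omega
  have hMle : (M : ℝ) ≤ 2 * (m : ℝ) ^ (ε / 2) := by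
    have := Nat.ceil_lt_add_one (a := (m : ℝ) ^ (ε / 2)) (by positivity)
    linarith
  have hMK : (m : ℝ) < (M : ℝ) ^ (K + 1) := by
    have h1 : (m : ℝ) ^ (ε / 2) ≤ (M : ℝ) := Nat.le_ceil _
    have h2 : ((m : ℝ) ^ (ε / 2)) ^ (K + 1) ≤ (M : ℝ) ^ (K + 1) :=
      pow_le_pow_left₀ (by positivity) h1 _
    refine lt_of_lt_of_le ?_ h2
    rw [← Real.rpow_natCast, ← Real.rpow_mul hmpos.le]
    have h3 : 1 < ε / 2 * ((K + 1 : ℕ) : ℝ) := by
      have h4 : 2 / ε ≤ (K : ℝ) := Nat.le_ceil _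
      rw [div_le_iff₀ hε] at h4
      have h5 : ε / 2 * ((K + 1 : ℕ) : ℝ) = ((K : ℝ) * ε + ε) / 2 := by push_cast; ring
      rw [h5]
      linarith
    calc (m : ℝ) = (m : ℝ) ^ (1 : ℝ) := (Real.rpow_one _).symm
      _ < _ := Real.rpow_lt_rpow_of_exponent_lt (by linarith) h3
  have hdK : ∀ v, H.degree v < M ^ (K + 1) := by
    intro v
    have h1 : H.degree v ≤ m := by
      rw [← hedge, ← SimpleGraph.card_incidenceFinset_eq_degree]
      exact Finset.card_le_card (H.incidenceFinset_subset v)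
    have h2 : m < M ^ (K + 1) := by exact_mod_cast hMK
    omega
  set h : ℕ := Nat.log 2 n + 1 with hh_def
  have hh : n ≤ 2 ^ h := (Nat.lt_pow_succ_log_self (by norm_num) n).le
  have hh2 : 2 ^ h ≤ 2 * n := by
    rw [hh_def, pow_succ]
    have := Nat.pow_log_le_self 2 (by omega : n ≠ 0)
    omega
  have hh2' : (2 : ℝ) ^ h ≤ 4 * (m : ℝ) := by
    have : (2 : ℝ) ^ h ≤ 2 * (n : ℝ) := by exact_mod_cast hh2
    linarith
  set δ : ℝ := 1 / (16 * (m : ℝ) ^ 2) with hδ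
  have hδ0 : 0 < δ := by positivity
  have hδ1 : δ ≤ 1 := by
    rw [hδ, div_le_one (by positivity)]
    have h1 : (1 : ℝ) ≤ (m : ℝ) ^ 2 := one_le_pow₀ hm1
    linarith
  have hηm : (2 ^ (h + 1) * δ) * (H.edgeFinset.card : ℝ) ≤ 1 / 2 := by
    rw [hedge, hδ]
    rw [pow_succ]
    have h1 : (2 : ℝ) ^ h * 2 * (1 / (16 * (m : ℝ) ^ 2)) * (m : ℝ) =
        (2 : ℝ) ^ h / (8 * (m : ℝ)) := by
      field_simp
      ring
    rw [h1, div_le_iff₀ (by positivity)]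
    linarith
  -- logarithms
  have hlm : 0 ≤ Real.log (m : ℝ) := Real.log_nonneg hm1
  set y : ℝ := (m : ℝ) ^ η with hy
  have hy1 : 1 ≤ y := Real.one_le_rpow hm1 hη.le
  have hly : 1 + Real.log (m : ℝ) ≤ (1 + 1 / η) * y := by
    have h1 := Real.log_le_rpow_div hmpos.le hη
    have h2 : (m : ℝ) ^ η / η = 1 / η * y := by rw [hy]; ring
    rw [h2] at h1
    linarith
  have hl2' := Real.log_two_gt_d9
  have hl2'' := Real.log_two_lt_d9
  have hl4 : Real.log 4 = 2 * Real.log 2 := by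
    have h : (4 : ℝ) = 2 ^ 2 := by norm_num
    rw [h, Real.log_pow]; push_cast; ring
  have hl16 : Real.log 16 = 4 * Real.log 2 := by
    have h : (16 : ℝ) = 2 ^ 4 := by norm_num
    rw [h, Real.log_pow]; push_cast; ring
  have hhl : (h : ℝ) * Real.log 2 ≤ Real.log 4 + Real.log (m : ℝ) := by
    rw [← Real.log_mul (by norm_num) hmpos.ne', ← Real.log_pow]
    exact Real.log_le_log (by positivity) hh2'
  have hh3 : (h : ℝ) + 1 ≤ 5 * (1 + Real.log (m : ℝ)) := by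
    have hh0 : (0 : ℝ) ≤ (h : ℝ) := Nat.cast_nonneg _
    have h1 : (h : ℝ) * (1 / 2) ≤ (h : ℝ) * Real.log 2 :=
      mul_le_mul_of_nonneg_left (by linarith) hh0
    rw [hl4] at hhl
    linarith
  have hla : Real.log (1 / δ) = Real.log 16 + 2 * Real.log (m : ℝ) := by
    rw [hδ, one_div_one_div, Real.log_mul (by norm_num) (by positivity), Real.log_pow]
    push_cast; ring
  have hell : ell n K δ ≤ 9 * ((K : ℝ) + 2) * (1 + Real.log (m : ℝ)) := by
    unfold ell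
    rw [hla]
    have h1 : Real.log (8 * (n : ℝ)) ≤ Real.log 16 + Real.log (m : ℝ) := by
      rw [← Real.log_mul (by norm_num) hmpos.ne']
      exact Real.log_le_log (by positivity) (by linarith)
    have h2 : 2 * (Real.log 16 + 2 * Real.log (m : ℝ)) + 3 ≤
        9 * (1 + Real.log (m : ℝ)) := by
      rw [hl16]; linarith
    have hK0 : (0 : ℝ) ≤ (K : ℝ) := Nat.cast_nonneg _
    have h3 := mul_le_mul_of_nonneg_left h2 (by positivity : (0 : ℝ) ≤ (K : ℝ) + 1)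
    rw [hl16] at h1
    linarith
  set L : ℝ := C1 * y ^ 3 with hL_def
  have hL : ((h : ℝ) + 1) ^ 2 * ell n K δ ≤ L := by
    have hell0 : 0 ≤ ell n K δ := by
      have := ell_ge n K hn1 δ hδ0 hδ1
      linarith
    have hh0 : (0 : ℝ) ≤ (h : ℝ) + 1 := by positivity
    have h1 : ((h : ℝ) + 1) ^ 2 ≤ (5 * (1 + Real.log (m : ℝ))) ^ 2 :=
      pow_le_pow_left₀ hh0 hh3 2
    have h2 : ((h : ℝ) + 1) ^ 2 * ell n K δ ≤ (5 * (1 + Real.log (m : ℝ))) ^ 2 *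
        (9 * ((K : ℝ) + 2) * (1 + Real.log (m : ℝ))) :=
      mul_le_mul h1 hell hell0 (by positivity)
    have h3 : (1 + Real.log (m : ℝ)) ^ 3 ≤ ((1 + 1 / η) * y) ^ 3 :=
      pow_le_pow_left₀ (by positivity) hly 3
    calc ((h : ℝ) + 1) ^ 2 * ell n K δ ≤ (5 * (1 + Real.log (m : ℝ))) ^ 2 *
        (9 * ((K : ℝ) + 2) * (1 + Real.log (m : ℝ))) := h2
      _ = 225 * ((K : ℝ) + 2) * (1 + Real.log (m : ℝ)) ^ 3 := by ring
      _ ≤ 225 * ((K : ℝ) + 2) * ((1 + 1 / η) * y) ^ 3 :=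
          mul_le_mul_of_nonneg_left h3 (by positivity)
      _ = L := by rw [hL_def, hC1]; ring
  have : Nonempty (Fin N) := ⟨⟨0, hN⟩⟩
  obtain ⟨c, hc⟩ := main_count A hsymm hcov H hpos M K h hM2 hh δ hδ0 hδ1 hηm hdK L hL m hedge
    (by omega)
  refine ⟨c, ?_⟩
  rw [Fintype.card_fin] at hc
  have hcard : (Nat.card {ψ : ι → Fin N // ∀ u v, H.Adj u v → A c (ψ u) (ψ v)} : ℝ) =
      ((Finset.univ.filter (fun ψ : ι → Fin N =>
        ∀ u v, H.Adj u v → A c (ψ u) (ψ v))).card : ℝ) := by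
    rw [Nat.card_eq_fintype_card, Fintype.card_subtype]
  rw [hcard]
  set hom : ℝ := ((Finset.univ.filter (fun ψ : ι → Fin N =>
        ∀ u v, H.Adj u v → A c (ψ u) (ψ v))).card : ℝ) with hhom
  have hhom0 : 0 ≤ hom := Nat.cast_nonneg _
  -- the exponent
  set T : ℝ := 2 * (16 * L ^ 2 * ((K : ℝ) + 1) ^ 3 * (M : ℝ) * (m : ℝ)) with hT
  have hK0 : (0 : ℝ) ≤ (K : ℝ) := Nat.cast_nonneg _
  set z : ℝ := (m : ℝ) ^ (1 + 3 * ε / 4) with hz
  have hmz : (m : ℝ) ≤ z := by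
    calc (m : ℝ) = (m : ℝ) ^ (1 : ℝ) := (Real.rpow_one _).symm
      _ ≤ z := Real.rpow_le_rpow_of_exponent_le hm1 (by linarith)
  have hyz : y ^ 6 * (m : ℝ) ^ (ε / 2) * (m : ℝ) = z := by
    rw [hy, hz, ← Real.rpow_natCast, ← Real.rpow_mul hmpos.le, ← Real.rpow_add hmpos]
    nth_rewrite 2 [← Real.rpow_one (m : ℝ)]
    rw [← Real.rpow_add hmpos]
    congr 1
    rw [hη_def]
    push_cast
    ring
  have hTz : T ≤ 64 * C1 ^ 2 * ((K : ℝ) + 1) ^ 3 * z := by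
    have h1 : L ^ 2 = C1 ^ 2 * y ^ 6 := by rw [hL_def]; ring
    rw [hT, h1]
    calc 2 * (16 * (C1 ^ 2 * y ^ 6) * ((K : ℝ) + 1) ^ 3 * (M : ℝ) * (m : ℝ))
        = 32 * C1 ^ 2 * ((K : ℝ) + 1) ^ 3 * y ^ 6 * (m : ℝ) * (M : ℝ) := by ring
      _ ≤ 32 * C1 ^ 2 * ((K : ℝ) + 1) ^ 3 * y ^ 6 * (m : ℝ) * (2 * (m : ℝ) ^ (ε / 2)) :=
          mul_le_mul_of_nonneg_left hMle (by positivity)
      _ = 64 * C1 ^ 2 * ((K : ℝ) + 1) ^ 3 * (y ^ 6 * (m : ℝ) ^ (ε / 2) * (m : ℝ)) := by ring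
      _ = _ := by rw [hyz]
  have hlogK : Real.log ((K : ℝ) + 1) ≤ (K : ℝ) := by
    have := Real.log_le_sub_one_of_pos (by positivity : (0 : ℝ) < (K : ℝ) + 1)
    linarith
  have hlogK0 : 0 ≤ Real.log ((K : ℝ) + 1) := Real.log_nonneg (by linarith)
  have hexp : Real.log 2 + T + (n : ℝ) * Real.log ((K : ℝ) + 1) ≤
      Real.log 2 * (m : ℝ) ^ (1 + ε) := by
    have h1 : (n : ℝ) * Real.log ((K : ℝ) + 1) ≤ 2 * (m : ℝ) * (K : ℝ) :=
      mul_le_mul hn2' hlogK hlogK0 (by positivity)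
    have h2 : Real.log 2 + T + (n : ℝ) * Real.log ((K : ℝ) + 1) ≤ C2 * z := by
      have h3 : 2 * (m : ℝ) * (K : ℝ) ≤ 2 * (K : ℝ) * z := by
        have h31 : 2 * (K : ℝ) * (m : ℝ) ≤ 2 * (K : ℝ) * z :=
          mul_le_mul_of_nonneg_left hmz (by positivity)
        linarith
      have h4 : Real.log 2 ≤ 1 * z := by linarith
      rw [hC2]
      linarith
    have h5 : C2 / Real.log 2 ≤ (m : ℝ) ^ (ε / 4) := by
      have h6 : (0 : ℝ) ≤ C2 / Real.log 2 := by positivity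
      calc C2 / Real.log 2 = ((C2 / Real.log 2) ^ (4 / ε)) ^ (ε / 4) := by
            rw [← Real.rpow_mul h6]
            have : 4 / ε * (ε / 4) = 1 := by field_simp
            rw [this, Real.rpow_one]
        _ ≤ _ := Real.rpow_le_rpow (by positivity) hmC (by positivity)
    have h7 : (m : ℝ) ^ (1 + ε) = (m : ℝ) ^ (ε / 4) * z := by
      rw [hz, ← Real.rpow_add hmpos]
      congr 1; ring
    rw [div_le_iff₀ hl2] at h5
    have h8 : 0 < z := by positivity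
    rw [h7]
    have h9 := mul_le_mul_of_nonneg_right h5 h8.le
    have h10 : Real.log 2 * ((m : ℝ) ^ (ε / 4) * z) = (m : ℝ) ^ (ε / 4) * Real.log 2 * z := by
      ring
    rw [h10]
    linarith
  -- conclusion
  have hfin : (2 : ℝ) ^ (-((m : ℝ) ^ (1 + ε))) * (2 * Real.exp T * ((K : ℝ) + 1) ^ n) ≤ 1 := by
    have h1 : (2 : ℝ) ^ (-((m : ℝ) ^ (1 + ε))) =
        Real.exp (-(Real.log 2 * (m : ℝ) ^ (1 + ε))) := by
      rw [Real.rpow_def_of_pos (by norm_num)]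
      congr 1; ring
    have h2 : 2 * Real.exp T * ((K : ℝ) + 1) ^ n =
        Real.exp (Real.log 2 + T + (n : ℝ) * Real.log ((K : ℝ) + 1)) := by
      rw [Real.exp_add, Real.exp_add, Real.exp_log (by norm_num), Real.exp_nat_mul,
        Real.exp_log (by positivity)]
    rw [h1, h2, ← Real.exp_add, Real.exp_le_one_iff]
    linarith
  have h2pos : (0 : ℝ) < (2 : ℝ) ^ (-((m : ℝ) ^ (1 + ε))) := by positivity
  calc (2 : ℝ) ^ (-((m : ℝ) ^ (1 + ε))) * (N : ℝ) ^ n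
      ≤ (2 : ℝ) ^ (-((m : ℝ) ^ (1 + ε))) * (2 * Real.exp T * ((K : ℝ) + 1) ^ n * hom) :=
        mul_le_mul_of_nonneg_left hc h2pos.le
    _ = (2 : ℝ) ^ (-((m : ℝ) ^ (1 + ε))) * (2 * Real.exp T * ((K : ℝ) + 1) ^ n) * hom := by
        ring
    _ ≤ 1 * hom := mul_le_mul_of_nonneg_right hfin hhom0
    _ = hom := one_mul _

end

end Pool.Agent.Helper691.RM
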